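import Mathlib

set_option autoImplicit false

namespace Pool.Agent.Helper201.Crit

open SimpleGraph

/-- A coloring lemma: a function that separates all adjacent vertices gives colorability. -/
theorem colorable_of_fun {V : Type*} {G : SimpleGraph V} {q : ℕ} (c : V → Fin q)
    (h : ∀ a b, G.Adj a b → c a ≠ c b) : G.Colorable q :=
  ⟨Coloring.mk c (fun {a b} hab => h a b hab)⟩

theorem exists_fun_of_colorable {V : Type*} {G : SimpleGraph V} {q : ℕ} (h : G.Colorable q) :
    ∃ c : V → Fin q, ∀ a b, G.Adj a b → c a ≠ c b := by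
  obtain ⟨C⟩ := h
  exact ⟨C, fun a b hab => C.valid hab⟩

/-- Transfer of a graph on a finite type to `Fin`. -/
theorem transfer {W U : Type*} [Fintype U] {Γ : SimpleGraph W} (K : SimpleGraph U) (q : ℕ)
    (f : K →g Γ) (hf : Function.Injective f) (hK : ¬ K.Colorable q) :
    ∃ (G : SimpleGraph (Fin (Fintype.card U))) (g : G →g Γ),
      Function.Injective g ∧ ¬ G.Colorable q := by
  classical
  let e := Fintype.equivFin U
  let G : SimpleGraph (Fin (Fintype.card U)) := K.comap e.symm
  let h1 : G →g K := ⟨e.symm, fun {a b} hab => hab⟩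
  refine ⟨G, f.comp h1, ?_, ?_⟩
  · intro a b hab
    exact e.symm.injective (hf hab)
  · intro hG
    apply hK
    obtain ⟨c, hc⟩ := exists_fun_of_colorable hG
    refine colorable_of_fun (fun u => c (e u)) ?_
    intro a b hab
    apply hc
    show K.Adj (e.symm (e a)) (e.symm (e b))
    simpa using hab

/-- Extraction of a critical subgraph (on a type `Fin m`, with an injective homomorphism). -/
theorem exists_critical {W : Type*} [Fintype W] (Γ : SimpleGraph W) (q : ℕ)
    (h : ¬ Γ.Colorable q) :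
    ∃ (m : ℕ) (G : SimpleGraph (Fin m)) (f : G →g Γ), Function.Injective f ∧
      ¬ G.Colorable q ∧
      (∀ v w, G.Adj v w → (G.deleteEdges {s(v, w)}).Colorable q) ∧
      (∀ v, (G.induce ({v}ᶜ : Set (Fin m))).Colorable q) := by
  classical
  let P : ℕ → Prop := fun m => ∃ (G : SimpleGraph (Fin m)) (f : G →g Γ),
    Function.Injective f ∧ ¬ G.Colorable q
  have hP : ∃ m, P m :=
    ⟨Fintype.card W, transfer Γ q (Hom.id) (fun a b hab => hab) h⟩
  obtain ⟨m, hm, hmin⟩ : ∃ m, P m ∧ ∀ m' < m, ¬ P m' :=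
    ⟨Nat.find hP, Nat.find_spec hP, fun m' hm' => Nat.find_min hP hm'⟩
  let S : Set (SimpleGraph (Fin m)) := {G | ∃ f : G →g Γ, Function.Injective f ∧ ¬ G.Colorable q}
  have hS : S.Nonempty := by
    obtain ⟨G, f, hf⟩ := hm
    exact ⟨G, f, hf⟩
  obtain ⟨G, hGS, hGmin⟩ := (Finite.to_wellFoundedLT
    (α := SimpleGraph (Fin m))).wf.has_min S hS
  obtain ⟨f, hf, hG⟩ := hGS
  refine ⟨m, G, f, hf, hG, ?_, ?_⟩
  · intro v w hvw
    by_contra hcol
    have hlt : G.deleteEdges {s(v, w)} < G := by
      refine lt_of_le_of_ne (deleteEdges_le _) ?_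
      intro heq
      have : (G.deleteEdges {s(v, w)}).Adj v w := by rw [heq]; exact hvw
      simp [deleteEdges_adj] at this
    refine hGmin _ ?_ hlt
    refine ⟨f.comp (Hom.ofLE (deleteEdges_le _)), ?_, hcol⟩
    intro a b hab
    exact hf hab
  · intro v
    by_contra hcol
    have hcard : Fintype.card ↥({v}ᶜ : Set (Fin m)) < m := by
      have h1 : Fintype.card ↥({v}ᶜ : Set (Fin m)) < Fintype.card (Fin m) := by
        apply Fintype.card_subtype_lt (x := v)
        simp
      simpa using h1
    apply hmin _ hcard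
    let g : G.induce ({v}ᶜ : Set (Fin m)) →g G := (Embedding.induce _).toHom
    refine transfer (G.induce ({v}ᶜ : Set (Fin m))) q (f.comp g) ?_ hcol
    intro a b hab
    exact Subtype.ext (hf hab)

/-- An edge whose removal makes the big graph colorable lies in each non-colorable subgraph. -/
theorem edge_mem {W U : Type*} {Γ : SimpleGraph W} {G : SimpleGraph U} {q : ℕ}
    (f : G →g Γ) (hG : ¬ G.Colorable q) (a b : W)
    (hab : (Γ.deleteEdges {s(a, b)}).Colorable q) :
    ∃ x y, G.Adj x y ∧ f x = a ∧ f y = b := by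
  by_contra hcon
  push Not at hcon
  apply hG
  let g : G →g Γ.deleteEdges {s(a, b)} := ⟨f, by
    intro x y hxy
    rw [deleteEdges_adj]
    refine ⟨f.map_adj hxy, ?_⟩
    intro hmem
    rw [Set.mem_singleton_iff, Sym2.eq_iff] at hmem
    rcases hmem with ⟨h1, h2⟩ | ⟨h1, h2⟩
    · exact hcon x y hxy h1 h2
    · exact hcon y x hxy.symm h2 h1⟩
  exact hab.of_hom g

/-- Vertex-critical graphs need just one more color. -/
theorem colorable_succ {m q : ℕ} (G : SimpleGraph (Fin m)) (hG : ¬ G.Colorable q)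
    (hv : ∀ v, (G.induce ({v}ᶜ : Set (Fin m))).Colorable q) : G.Colorable (q + 1) := by
  classical
  have hm : 0 < m := by
    rcases Nat.eq_zero_or_pos m with h0 | h0
    · subst h0
      exact absurd (Colorable.of_isEmpty (G := G) q) hG
    · exact h0
  let v : Fin m := ⟨0, hm⟩
  obtain ⟨c, hc⟩ := exists_fun_of_colorable (hv v)
  refine colorable_of_fun (fun u => if h : u = v then Fin.last q else
    (c ⟨u, by simpa using h⟩).castSucc) ?_
  intro a b hab
  by_cases ha : a = v
  · by_cases hb : b = v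
    · exact absurd (ha.trans hb.symm) hab.ne
    · simp only [ha, hb, dif_pos, dif_neg, not_false_eq_true]
      exact (Fin.castSucc_lt_last _).ne'
  · by_cases hb : b = v
    · simp only [ha, hb, dif_pos, dif_neg, not_false_eq_true]
      exact (Fin.castSucc_lt_last _).ne
    · simp only [ha, hb, dif_neg, not_false_eq_true]
      intro heq
      exact hc ⟨a, by simpa using ha⟩ ⟨b, by simpa using hb⟩ hab (Fin.castSucc_injective _ heq)

theorem chromaticNumber_eq {m q : ℕ} (G : SimpleGraph (Fin m)) (hG : ¬ G.Colorable q)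
    (hv : ∀ v, (G.induce ({v}ᶜ : Set (Fin m))).Colorable q) :
    G.chromaticNumber = ((q + 1 : ℕ) : ℕ∞) := by
  have := (chromaticNumber_eq_iff_colorable_not_colorable (G := G) (n := q)).2
    ⟨colorable_succ G hG hv, hG⟩
  rw [this]; push_cast; rfl

theorem chromaticNumber_lt {V : Type*} {G : SimpleGraph V} {q : ℕ} (h : G.Colorable q) :
    G.chromaticNumber < ((q + 1 : ℕ) : ℕ∞) := by
  refine lt_of_le_of_lt h.chromaticNumber_le ?_
  exact_mod_cast Nat.lt_succ_self q

end Pool.Agent.Helper201.Crit
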