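import Mathlib
import Pool.Agent.Helper201.Crit

set_option autoImplicit false

namespace Pool.Agent.Helper201.FiveCrit

open SimpleGraph Pool.Agent.Helper201.Crit

/-- Vertices: three kinds, five blocks, `4 t + 3` vertices of each kind in each block. -/
inductive VV (t : ℕ) : Type
  | s (i : ZMod 5) (k : Fin (4 * t + 3)) : VV t
  | z (i : ZMod 5) (k : Fin (4 * t + 3)) : VV t
  | x (i : ZMod 5) (k : Fin (4 * t + 3)) : VV t

variable {t : ℕ}

/-- adjacency (before symmetrisation) -/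
inductive Rel : VV t → VV t → Prop
  | zc (i : ZMod 5) (k : Fin (4 * t + 3)) : Rel (VV.z i k) (VV.z i (k + 1))
  | xc (i : ZMod 5) (k : Fin (4 * t + 3)) : Rel (VV.x i k) (VV.x i (k + 1))
  | mt (i : ZMod 5) (k : Fin (4 * t + 3)) : Rel (VV.z i k) (VV.s i k)
  | zu (i : ZMod 5) (k l : Fin (4 * t + 3)) : (k : ℕ) < 2 * t + 1 → Rel (VV.z i l) (VV.s (i + 1) k)
  | xa (i : ZMod 5) (k l : Fin (4 * t + 3)) : 2 * t + 1 ≤ (k : ℕ) → Rel (VV.x i l) (VV.s i k)
  | e0 (i : ZMod 5) (k k' : Fin (4 * t + 3)) :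
      (((k : ℕ) = 0 ∧ (k' : ℕ) = 2) ∨ ((k : ℕ) = 1 ∧ (k' : ℕ) = 2 * t + 3) ∨
        ((k : ℕ) = 2 * t + 1 ∧ (k' : ℕ) = 3) ∨ ((k : ℕ) = 2 * t + 2 ∧ (k' : ℕ) = 2 * t + 4)) →
      Rel (VV.s i k) (VV.s (i + 2) k')

/-- the graph -/
def Gam (t : ℕ) : SimpleGraph (VV t) := SimpleGraph.fromRel Rel

def toProd : VV t → Fin 3 × ZMod 5 × Fin (4 * t + 3)
  | VV.s i k => (0, i, k)
  | VV.z i k => (1, i, k)
  | VV.x i k => (2, i, k)

theorem toProd_injective : Function.Injective (toProd : VV t → _) := by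
  intro a b h
  cases a <;> cases b <;> simp [toProd] at h ⊢ <;> exact h

instance : Finite (VV t) := Finite.of_injective _ toProd_injective

noncomputable instance : Fintype (VV t) := Fintype.ofFinite _

theorem card_le : Fintype.card (VV t) ≤ 15 * (4 * t + 3) := by
  refine (Fintype.card_le_of_injective _ toProd_injective).trans ?_
  simp only [Fintype.card_prod, Fintype.card_fin, ZMod.card]
  omega

/-- An odd cycle cannot avoid two of four colours. -/
theorem odd_cycle (C : Fin (4 * t + 3) → ℕ) (h4 : ∀ k, C k < 4) (hC : ∀ k, C k ≠ C (k + 1))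
    (a b : ℕ) (ha : a < 4) (hb : b < 4) (hab : a ≠ b) (hCa : ∀ k, C k ≠ a) (hCb : ∀ k, C k ≠ b) :
    False := by
  have key : ∀ j : ℕ, ∀ hj : j < 4 * t + 3,
      (j % 2 = 0 → C ⟨j, hj⟩ = C ⟨0, by omega⟩) ∧ (j % 2 = 1 → C ⟨j, hj⟩ ≠ C ⟨0, by omega⟩) := by
    intro j
    induction j with
    | zero => intro hj; exact ⟨fun _ => rfl, fun h => by omega⟩
    | succ j ih =>
      intro hj
      obtain ⟨ih1, ih2⟩ := ih (by omega)
      have h1 := hC ⟨j, by omega⟩
      have h2 : (⟨j, by omega⟩ : Fin (4 * t + 3)) + 1 = ⟨j + 1, hj⟩ := by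
        apply Fin.ext
        rw [Fin.val_add_one_of_lt' (by simpa using hj)]
      rw [h2] at h1
      have e1 := h4 ⟨j, by omega⟩
      have e2 := h4 ⟨j + 1, hj⟩
      have e3 := h4 ⟨0, by omega⟩
      have f1 := hCa ⟨j, by omega⟩
      have f2 := hCa ⟨j + 1, hj⟩
      have f3 := hCa ⟨0, by omega⟩
      have g1 := hCb ⟨j, by omega⟩
      have g2 := hCb ⟨j + 1, hj⟩
      have g3 := hCb ⟨0, by omega⟩
      constructor
      · intro hpar
        have := ih2 (by omega)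
        omega
      · intro hpar
        have := ih1 (by omega)
        omega
  have h1 := (key (4 * t + 2) (by omega)).1 (by omega)
  have h2 := hC ⟨4 * t + 2, by omega⟩
  have h3 : (⟨4 * t + 2, by omega⟩ : Fin (4 * t + 3)) + 1 = ⟨0, by omega⟩ := by
    apply Fin.ext
    have := Fin.val_add_one (n := 4 * t + 2) ⟨4 * t + 2, by omega⟩
    rw [this]
    simp [Fin.ext_iff]
  rw [h3] at h2
  exact h2 h1

/-- finite contradiction: one mono block -/
theorem mono_false (u a : ZMod 5 → ℕ) (hu : ∀ i, u i < 4) (ha : ∀ i, a i < 4)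
    (hG : ∀ i, u i = a i → u (i + 1) = u i)
    (h1 : ∀ i, u i ≠ u (i + 2)) (h2 : ∀ i, u i ≠ a (i + 2))
    (h3 : ∀ i, a i ≠ u (i + 2)) (h4 : ∀ i, a i ≠ a (i + 2)) (i : ZMod 5) (hi : u i = a i) :
    False := by
  have e5 : (5 : ZMod 5) = 0 := by decide
  have e1 : i + 1 + 2 = i + 3 := by ring
  have e2 : i + 2 + 2 = i + 4 := by ring
  have e4 : i + 4 + 2 = i + 1 := by linear_combination e5
  have e6 : i + 4 + 1 = i := by linear_combination e5
  have e7 : i + 1 + 1 = i + 2 := by ring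
  have e8 : i + 2 + 1 = i + 3 := by ring
  have g0 := hG i hi
  have a0 := h1 i
  have a1 := h2 i
  have b0 := h1 (i + 1)
  have b2 := h3 (i + 1)
  have c0 := h1 (i + 2)
  have c1 := h2 (i + 2)
  have c2 := h3 (i + 2)
  have c3 := h4 (i + 2)
  have d0 := h1 (i + 4)
  have d1 := h2 (i + 4)
  have d2 := h3 (i + 4)
  have d3 := h4 (i + 4)
  have g1 := hG (i + 1)
  have g2 := hG (i + 2)
  have g4 := hG (i + 4)
  rw [e1] at b0 b2
  rw [e2] at c0 c1 c2 c3
  rw [e4] at d0 d1 d2 d3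
  rw [e6] at g4
  rw [e7] at g1
  rw [e8] at g2
  have ha1 := ha (i + 1)
  have hu1 := hu (i + 1)
  have hu2 := hu (i + 2)
  have ha2 := ha (i + 2)
  have hu4 := hu (i + 4)
  have ha4 := ha (i + 4)
  have hnm1 : u (i + 1) ≠ a (i + 1) := by
    intro h
    have := g1 h
    omega
  have hnm4 : u (i + 4) ≠ a (i + 4) := by
    intro h
    have := g4 h
    omega
  have hu2d : u (i + 2) = a (i + 1) := by omega
  have ha2d : a (i + 2) = a (i + 1) := by omega
  have := g2 (by omega)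
  omega

theorem finite_false (u a : ZMod 5 → ℕ) (hu : ∀ i, u i < 4) (ha : ∀ i, a i < 4)
    (hG : ∀ i, u i = a i → u (i + 1) = u i)
    (h1 : ∀ i, u i ≠ u (i + 2)) (h2 : ∀ i, u i ≠ a (i + 2))
    (h3 : ∀ i, a i ≠ u (i + 2)) (h4 : ∀ i, a i ≠ a (i + 2)) : False := by
  have key := mono_false u a hu ha hG h1 h2 h3 h4
  have e5 : (5 : ZMod 5) = 0 := by decide
  -- the complement of the complement
  have step : ∀ i : ZMod 5, (u (i + 4) = u i ∨ u (i + 4) = a i) ∧
      (a (i + 4) = u i ∨ a (i + 4) = a i) := by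
    intro i
    have f0 : u i ≠ a i := fun h => key i h
    have f2 : u (i + 2) ≠ a (i + 2) := fun h => key (i + 2) h
    have e2 : i + 2 + 2 = i + 4 := by ring
    have b0 := h1 i
    have b1 := h2 i
    have b2 := h3 i
    have b3 := h4 i
    have c0 := h1 (i + 2)
    have c1 := h2 (i + 2)
    have c2 := h3 (i + 2)
    have c3 := h4 (i + 2)
    rw [e2] at c0 c1 c2 c3
    have x1 := hu i
    have x2 := ha i
    have x3 := hu (i + 2)
    have x4 := ha (i + 2)
    have x5 := hu (i + 4)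
    have x6 := ha (i + 4)
    constructor <;> omega
  have s0 := step 0
  have s4 := step 4
  have s3 := step 3
  have e44 : (4 : ZMod 5) + 4 = 3 := by decide
  have e34 : (3 : ZMod 5) + 4 = 2 := by decide
  rw [zero_add] at s0
  rw [e44] at s4
  rw [e34] at s3
  have b0 := h1 0
  have b1 := h2 0
  have b2 := h3 0
  have b3 := h4 0
  rw [zero_add] at b0 b1 b2 b3
  omega

theorem fin_ne {n : ℕ} {a b : Fin n} (h : a ≠ b) : (a : ℕ) ≠ b := fun h' => h (Fin.ext h')

theorem not_colorable (ht : 2 ≤ t) : ¬ (Gam t).Colorable 4 := by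
  intro hcol
  obtain ⟨C, hC⟩ := exists_fun_of_colorable hcol
  have hR : ∀ a b, Rel a b → a ≠ b → (C a : ℕ) ≠ C b := by
    intro a b hab hne
    refine fin_ne (hC a b ?_)
    rw [Gam, SimpleGraph.fromRel_adj]
    exact ⟨hne, Or.inl hab⟩
  have hk1 : ∀ k : Fin (4 * t + 3), k ≠ k + 1 := by
    intro k h
    have h3 : (k + 1).val = if k = Fin.last (4 * t + 2) then 0 else k.val + 1 :=
      Fin.val_add_one (n := 4 * t + 2) k
    have h4 : k.val = (k + 1).val := congrArg Fin.val h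
    rw [h3] at h4
    split_ifs at h4 with h5
    · rw [h5] at h4; simp at h4
    · omega
  have hz : ∀ i k, (C (VV.z i k) : ℕ) ≠ C (VV.z i (k + 1)) := by
    intro i k
    exact hR _ _ (Rel.zc i k) (by intro h; injection h with _ h2; exact hk1 k h2)
  have hx : ∀ i k, (C (VV.x i k) : ℕ) ≠ C (VV.x i (k + 1)) := by
    intro i k
    exact hR _ _ (Rel.xc i k) (by intro h; injection h with _ h2; exact hk1 k h2)
  have hm : ∀ i k, (C (VV.z i k) : ℕ) ≠ C (VV.s i k) := by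
    intro i k
    exact hR _ _ (Rel.mt i k) (by intro h; cases h)
  have hzu : ∀ i (k l : Fin (4 * t + 3)), (k : ℕ) < 2 * t + 1 →
      (C (VV.z i l) : ℕ) ≠ C (VV.s (i + 1) k) := by
    intro i k l hk
    exact hR _ _ (Rel.zu i k l hk) (by intro h; cases h)
  have hxa : ∀ i (k l : Fin (4 * t + 3)), 2 * t + 1 ≤ (k : ℕ) →
      (C (VV.x i l) : ℕ) ≠ C (VV.s i k) := by
    intro i k l hk
    exact hR _ _ (Rel.xa i k l hk) (by intro h; cases h)
  have hlt : ∀ v, (C v : ℕ) < 4 := fun v => (C v).isLt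
  have hA : ∀ i (k k' : Fin (4 * t + 3)), 2 * t + 1 ≤ (k : ℕ) → 2 * t + 1 ≤ (k' : ℕ) →
      (C (VV.s i k) : ℕ) = C (VV.s i k') := by
    intro i k k' hk hk'
    by_contra hne
    exact odd_cycle (fun l => (C (VV.x i l) : ℕ)) (fun l => hlt _) (hx i) _ _ (hlt _) (hlt _) hne
      (fun l => hxa i k l hk) (fun l => hxa i k' l hk')
  have hU' : ∀ i (k k' : Fin (4 * t + 3)), (k : ℕ) < 2 * t + 1 → (k' : ℕ) < 2 * t + 1 →
      (C (VV.s (i + 1) k) : ℕ) = C (VV.s (i + 1) k') := by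
    intro i k k' hk hk'
    by_contra hne
    exact odd_cycle (fun l => (C (VV.z i l) : ℕ)) (fun l => hlt _) (hz i) _ _ (hlt _) (hlt _) hne
      (fun l => hzu i k l hk) (fun l => hzu i k' l hk')
  have hU : ∀ i (k k' : Fin (4 * t + 3)), (k : ℕ) < 2 * t + 1 → (k' : ℕ) < 2 * t + 1 →
      (C (VV.s i k) : ℕ) = C (VV.s i k') := by
    intro i k k' hk hk'
    have := hU' (i - 1) k k' hk hk'
    rwa [sub_add_cancel] at this
  have b0 : 0 < 4 * t + 3 := by omega
  have bK : 2 * t + 1 < 4 * t + 3 := by omega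
  let u : ZMod 5 → ℕ := fun i => C (VV.s i ⟨0, b0⟩)
  let a : ZMod 5 → ℕ := fun i => C (VV.s i ⟨2 * t + 1, bK⟩)
  have hu : ∀ i (k : Fin (4 * t + 3)), (k : ℕ) < 2 * t + 1 → (C (VV.s i k) : ℕ) = u i :=
    fun i k hk => hU i k _ hk (by simp)
  have ha : ∀ i (k : Fin (4 * t + 3)), 2 * t + 1 ≤ (k : ℕ) → (C (VV.s i k) : ℕ) = a i :=
    fun i k hk => hA i k _ hk (by simp)
  have hE : ∀ i (k k' : Fin (4 * t + 3)),
      (((k : ℕ) = 0 ∧ (k' : ℕ) = 2) ∨ ((k : ℕ) = 1 ∧ (k' : ℕ) = 2 * t + 3) ∨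
        ((k : ℕ) = 2 * t + 1 ∧ (k' : ℕ) = 3) ∨ ((k : ℕ) = 2 * t + 2 ∧ (k' : ℕ) = 2 * t + 4)) →
      (C (VV.s i k) : ℕ) ≠ C (VV.s (i + 2) k') := by
    intro i k k' hkk
    refine hR _ _ (Rel.e0 i k k' hkk) ?_
    intro h
    injection h with h1 _
    have : (2 : ZMod 5) = 0 := by linear_combination -h1
    exact absurd this (by decide)
  refine finite_false u a (fun i => hlt _) (fun i => hlt _) ?_ ?_ ?_ ?_ ?_
  · intro i hi
    by_contra hne
    refine odd_cycle (fun l => (C (VV.z i l) : ℕ)) (fun l => hlt _) (hz i) (u (i + 1)) (u i)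
      (hlt _) (hlt _) hne (fun l => hzu i ⟨0, b0⟩ l (by simp)) ?_
    intro l
    have h := hm i l
    rcases lt_or_ge (l : ℕ) (2 * t + 1) with hl | hl
    · rw [hu i l hl] at h; exact h
    · rw [ha i l hl, ← hi] at h; exact h
  · intro i
    have h := hE i ⟨0, b0⟩ ⟨2, by omega⟩ (by simp)
    rwa [hu _ _ (by simp), hu _ _ (by simp; omega)] at h
  · intro i
    have h := hE i ⟨1, by omega⟩ ⟨2 * t + 3, by omega⟩ (by simp)
    rwa [hu _ _ (by simp; omega), ha _ _ (by simp)] at h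
  · intro i
    have h := hE i ⟨2 * t + 1, by omega⟩ ⟨3, by omega⟩ (by simp)
    rwa [ha _ _ (by simp), hu _ _ (by simp; omega)] at h
  · intro i
    have h := hE i ⟨2 * t + 2, by omega⟩ ⟨2 * t + 4, by omega⟩ (by simp)
    rwa [ha _ _ (by simp), ha _ _ (by simp)] at h

theorem val_sub_add_one (k b : Fin (4 * t + 3)) :
    (k + 1 - b).val = if (k - b).val = 4 * t + 2 then 0 else (k - b).val + 1 := by
  have h : k + 1 - b = (k - b) + 1 := by abel
  rw [h]
  have h3 := Fin.val_add_one (n := 4 * t + 2) (k - b)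
  rw [h3]
  by_cases h4 : (k - b) = Fin.last (4 * t + 2)
  · have h5 : (k - b).val = 4 * t + 2 := by rw [h4]; rfl
    rw [if_pos h4, if_pos h5]
  · have h5 : ¬ (k - b).val = 4 * t + 2 := fun h6 => h4 (Fin.ext h6)
    rw [if_neg h4, if_neg h5]

theorem eq_iff_val (k b : Fin (4 * t + 3)) : k = b ↔ (k - b).val = 0 := by
  rw [← sub_eq_zero (a := k) (b := b), Fin.ext_iff]
  simp

/-- three-colour pattern on an odd cycle -/
def cyc3 (b : Fin (4 * t + 3)) (p q r : ℕ) (k : Fin (4 * t + 3)) : ℕ :=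
  if k = b then p else if (k - b).val % 2 = 1 then q else r

theorem cyc3_ne (b : Fin (4 * t + 3)) (p q r : ℕ) (h1 : p ≠ q) (h2 : q ≠ r) (h3 : p ≠ r)
    (k : Fin (4 * t + 3)) : cyc3 b p q r k ≠ cyc3 b p q r (k + 1) := by
  have e1 := eq_iff_val k b
  have e2 := eq_iff_val (k + 1) b
  have e3 := val_sub_add_one k b
  have e4 := (k - b).isLt
  unfold cyc3
  generalize (k + 1 - b).val = w at *
  generalize (k - b).val = v at *
  split_ifs at e3 with h5
  · have f1 : ¬ k = b := fun h => by have := e1.1 h; omega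
    have f2 : k + 1 = b := e2.2 e3
    have f3 : ¬ v % 2 = 1 := by omega
    rw [if_neg f1, if_neg f3, if_pos f2]
    exact h3.symm
  · have f2 : ¬ k + 1 = b := fun h => by have := e2.1 h; omega
    rw [if_neg f2]
    by_cases f1 : k = b
    · have f3 : w % 2 = 1 := by have := e1.1 f1; omega
      rw [if_pos f1, if_pos f3]
      exact h1
    · rw [if_neg f1]
      by_cases f3 : v % 2 = 1
      · have f4 : ¬ w % 2 = 1 := by omega
        rw [if_pos f3, if_neg f4]
        exact h2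
      · have f4 : w % 2 = 1 := by omega
        rw [if_neg f3, if_pos f4]
        exact h2.symm

theorem cyc3_base (b : Fin (4 * t + 3)) (p q r : ℕ) : cyc3 b p q r b = p := by
  simp [cyc3]

theorem cyc3_off (b : Fin (4 * t + 3)) (p q r : ℕ) (k : Fin (4 * t + 3)) (h : k ≠ b) :
    cyc3 b p q r k = q ∨ cyc3 b p q r k = r := by
  unfold cyc3
  rw [if_neg h]
  by_cases h2 : (k - b).val % 2 = 1
  · rw [if_pos h2]; exact Or.inl rfl
  · rw [if_neg h2]; exact Or.inr rfl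

theorem cyc3_all (b : Fin (4 * t + 3)) (p q r : ℕ) (k : Fin (4 * t + 3)) :
    cyc3 b p q r k = p ∨ cyc3 b p q r k = q ∨ cyc3 b p q r k = r := by
  by_cases h : k = b
  · subst h; exact Or.inl (cyc3_base _ _ _ _)
  · exact Or.inr (cyc3_off b p q r k h)

/-- colours on the sets -/
def sc (k0 : Fin (4 * t + 3)) (ζ : ℕ) (v : ℕ) (k : Fin (4 * t + 3)) : ℕ :=
  match v with
  | 0 => if k = k0 then ζ else 0
  | 1 => 1
  | 2 => if (k : ℕ) < 2 * t + 1 then 1 else 2
  | 3 => if (k : ℕ) < 2 * t + 1 then 2 else 3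
  | _ => 0

/-- colours on the first family of cycles -/
def zc (k0 l0 : Fin (4 * t + 3)) (ζ p q : ℕ) (v : ℕ) (k : Fin (4 * t + 3)) : ℕ :=
  match v with
  | 0 => cyc3 k0 0 2 3 k
  | 1 => cyc3 0 0 2 3 k
  | 2 => cyc3 (Fin.last (4 * t + 2)) 1 0 3 k
  | 3 => if (k : ℕ) < 2 * t + 1 then (if (k : ℕ) % 2 = 0 then 3 else 1) else
      (if (k : ℕ) % 2 = 0 then 1 else 2)
  | _ => cyc3 l0 ζ p q k

/-- colours on the second family of cycles -/
def xc (l0 : Fin (4 * t + 3)) (ζ p q : ℕ) (v : ℕ) (k : Fin (4 * t + 3)) : ℕ :=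
  match v with
  | 0 => cyc3 l0 ζ p q k
  | 1 => cyc3 0 0 2 3 k
  | 2 => cyc3 0 0 1 3 k
  | 3 => cyc3 0 0 1 2 k
  | _ => cyc3 0 1 2 3 k

/-- the colouring -/
def col (i0 : ZMod 5) (k0 l0 : Fin (4 * t + 3)) (ζ p q : ℕ) : VV t → ℕ
  | VV.s i k => sc k0 ζ ((i - i0).val) k
  | VV.z i k => zc k0 l0 ζ p q ((i - i0).val) k
  | VV.x i k => xc l0 ζ p q ((i - i0).val) k

/-- the only violated pair -/
def Special (i0 : ZMod 5) (k0 l0 : Fin (4 * t + 3)) (a b : VV t) : Prop :=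
  ((k0 : ℕ) < 2 * t + 1 ∧ a = VV.z (i0 - 1) l0 ∧ b = VV.s i0 k0) ∨
    (2 * t + 1 ≤ (k0 : ℕ) ∧ a = VV.x i0 l0 ∧ b = VV.s i0 k0)

theorem val_lt5 (i : ZMod 5) : i.val < 5 := ZMod.val_lt i

theorem val_succ (i i0 : ZMod 5) : (i + 1 - i0).val = ((i - i0).val + 1) % 5 := by
  revert i i0; decide

theorem val_two (i i0 : ZMod 5) : (i + 2 - i0).val = ((i - i0).val + 2) % 5 := by
  revert i i0; decide

theorem eq_of_val_zero (i i0 : ZMod 5) (h : (i - i0).val = 0) : i = i0 := by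
  revert i i0; decide

theorem eq_of_val_four (i i0 : ZMod 5) (h : (i - i0).val = 4) : i = i0 - 1 := by
  revert i i0; decide

theorem col_zc (i0 : ZMod 5) (k0 l0 : Fin (4 * t + 3)) (ζ p q : ℕ)
    (h1 : ζ ≠ p) (h2 : p ≠ q) (h3 : ζ ≠ q) (i : ZMod 5) (k : Fin (4 * t + 3)) :
    col i0 k0 l0 ζ p q (VV.z i k) ≠ col i0 k0 l0 ζ p q (VV.z i (k + 1)) := by
  simp only [col]
  have hv := val_lt5 (i - i0)
  generalize (i - i0).val = v at *
  interval_cases v
  · exact cyc3_ne _ _ _ _ (by decide) (by decide) (by decide) k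
  · exact cyc3_ne _ _ _ _ (by decide) (by decide) (by decide) k
  · exact cyc3_ne _ _ _ _ (by decide) (by decide) (by decide) k
  · simp only [zc]
    have h4 := Fin.val_add_one (n := 4 * t + 2) k
    have h5 := k.isLt
    by_cases h6 : k = Fin.last (4 * t + 2)
    · rw [if_pos h6] at h4
      have h7 : (k : ℕ) = 4 * t + 2 := by rw [h6]; rfl
      rw [h4, h7]
      have e1 : ¬ (4 * t + 2 < 2 * t + 1) := by omega
      have e2 : (4 * t + 2) % 2 = 0 := by omega
      rw [if_neg e1, if_pos e2]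
      simp
    · rw [if_neg h6] at h4
      rw [h4]
      have h7 : (k : ℕ) ≠ 4 * t + 2 := fun h => h6 (Fin.ext h)
      split_ifs <;> omega
  · exact cyc3_ne _ _ _ _ h1 h2 h3 k

theorem col_xc (i0 : ZMod 5) (k0 l0 : Fin (4 * t + 3)) (ζ p q : ℕ)
    (h1 : ζ ≠ p) (h2 : p ≠ q) (h3 : ζ ≠ q) (i : ZMod 5) (k : Fin (4 * t + 3)) :
    col i0 k0 l0 ζ p q (VV.x i k) ≠ col i0 k0 l0 ζ p q (VV.x i (k + 1)) := by
  simp only [col]
  have hv := val_lt5 (i - i0)
  generalize (i - i0).val = v at *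
  interval_cases v
  · exact cyc3_ne _ _ _ _ h1 h2 h3 k
  · exact cyc3_ne _ _ _ _ (by decide) (by decide) (by decide) k
  · exact cyc3_ne _ _ _ _ (by decide) (by decide) (by decide) k
  · exact cyc3_ne _ _ _ _ (by decide) (by decide) (by decide) k
  · exact cyc3_ne _ _ _ _ (by decide) (by decide) (by decide) k

theorem col_mt (i0 : ZMod 5) (k0 l0 : Fin (4 * t + 3)) (ζ p q : ℕ)
    (h1 : 1 ≤ ζ) (h2 : 1 ≤ p) (h3 : 1 ≤ q) (i : ZMod 5) (k : Fin (4 * t + 3)) :
    col i0 k0 l0 ζ p q (VV.z i k) ≠ col i0 k0 l0 ζ p q (VV.s i k) := by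
  simp only [col]
  have hv := val_lt5 (i - i0)
  have hk := k.isLt
  generalize (i - i0).val = v at *
  interval_cases v
  · simp only [zc, sc]
    by_cases h : k = k0
    · subst h
      rw [cyc3_base, if_pos rfl]
      omega
    · rw [if_neg h]
      rcases cyc3_off k0 0 2 3 k h with h' | h' <;> rw [h'] <;> decide
  · simp only [zc, sc]
    rcases cyc3_all 0 0 2 3 k with h' | h' | h' <;> rw [h'] <;> decide
  · simp only [zc, sc]
    by_cases h : k = Fin.last (4 * t + 2)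
    · have h7 : (k : ℕ) = 4 * t + 2 := by rw [h]; rfl
      have e1 : ¬ ((k : ℕ) < 2 * t + 1) := by omega
      rw [if_neg e1, h, cyc3_base]
      decide
    · rcases cyc3_off (Fin.last (4 * t + 2)) 1 0 3 k h with h' | h' <;> rw [h'] <;>
        split_ifs <;> omega
  · simp only [zc, sc]
    split_ifs <;> omega
  · simp only [zc, sc]
    rcases cyc3_all l0 ζ p q k with h' | h' | h' <;> rw [h'] <;> omega

theorem col_zu (i0 : ZMod 5) (k0 l0 : Fin (4 * t + 3)) (ζ p q : ℕ)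
    (h1 : 1 ≤ ζ) (h2 : 1 ≤ p) (h3 : 1 ≤ q) (h4 : ζ ≠ p) (h5 : ζ ≠ q)
    (i : ZMod 5) (k l : Fin (4 * t + 3)) (hk : (k : ℕ) < 2 * t + 1) :
    col i0 k0 l0 ζ p q (VV.z i l) ≠ col i0 k0 l0 ζ p q (VV.s (i + 1) k) ∨
      (i = i0 - 1 ∧ l = l0 ∧ k = k0) := by
  simp only [col, val_succ]
  have hv := val_lt5 (i - i0)
  have hv4 := eq_of_val_four i i0
  generalize (i - i0).val = v at *
  interval_cases v
  · left
    simp only [zc, sc]
    rcases cyc3_all k0 0 2 3 l with h' | h' | h' <;> rw [h'] <;> decide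
  · left
    simp only [zc, sc]
    rw [if_pos hk]
    rcases cyc3_all 0 0 2 3 l with h' | h' | h' <;> rw [h'] <;> decide
  · left
    simp only [zc, sc]
    rw [if_pos hk]
    rcases cyc3_all (Fin.last (4 * t + 2)) 1 0 3 l with h' | h' | h' <;> rw [h'] <;> decide
  · left
    simp only [zc, sc]
    split_ifs <;> omega
  · simp only [zc, sc]
    by_cases hkk : k = k0
    · by_cases hll : l = l0
      · right; exact ⟨hv4 rfl, hll, hkk⟩
      · left
        rw [if_pos hkk]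
        rcases cyc3_off l0 ζ p q l hll with h' | h' <;> rw [h'] <;> omega
    · left
      rw [if_neg hkk]
      rcases cyc3_all l0 ζ p q l with h' | h' | h' <;> rw [h'] <;> omega

theorem col_xa (i0 : ZMod 5) (k0 l0 : Fin (4 * t + 3)) (ζ p q : ℕ)
    (h1 : 1 ≤ ζ) (h2 : 1 ≤ p) (h3 : 1 ≤ q) (h4 : ζ ≠ p) (h5 : ζ ≠ q)
    (i : ZMod 5) (k l : Fin (4 * t + 3)) (hk : 2 * t + 1 ≤ (k : ℕ)) :
    col i0 k0 l0 ζ p q (VV.x i l) ≠ col i0 k0 l0 ζ p q (VV.s i k) ∨
      (i = i0 ∧ l = l0 ∧ k = k0) := by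
  simp only [col]
  have hv := val_lt5 (i - i0)
  have hv0 := eq_of_val_zero i i0
  have hk' : ¬ ((k : ℕ) < 2 * t + 1) := by omega
  generalize (i - i0).val = v at *
  interval_cases v
  · simp only [xc, sc]
    by_cases hkk : k = k0
    · by_cases hll : l = l0
      · right; exact ⟨hv0 rfl, hll, hkk⟩
      · left
        rw [if_pos hkk]
        rcases cyc3_off l0 ζ p q l hll with h' | h' <;> rw [h'] <;> omega
    · left
      rw [if_neg hkk]
      rcases cyc3_all l0 ζ p q l with h' | h' | h' <;> rw [h'] <;> omega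
  · left
    simp only [xc, sc]
    rcases cyc3_all 0 0 2 3 l with h' | h' | h' <;> rw [h'] <;> decide
  · left
    simp only [xc, sc]
    rw [if_neg hk']
    rcases cyc3_all 0 0 1 3 l with h' | h' | h' <;> rw [h'] <;> decide
  · left
    simp only [xc, sc]
    rw [if_neg hk']
    rcases cyc3_all 0 0 1 2 l with h' | h' | h' <;> rw [h'] <;> decide
  · left
    simp only [xc, sc]
    rcases cyc3_all 0 1 2 3 l with h' | h' | h' <;> rw [h'] <;> decide

theorem col_e0 (ht : 2 ≤ t) (i0 : ZMod 5) (k0 l0 : Fin (4 * t + 3)) (ζ p q : ℕ)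
    (hζ1 : ((k0 : ℕ) = 3 ∨ (k0 : ℕ) = 2 * t + 4) → ζ = 1)
    (hζ3 : ¬ ((k0 : ℕ) = 3 ∨ (k0 : ℕ) = 2 * t + 4) → ζ = 3)
    (i : ZMod 5) (k k' : Fin (4 * t + 3))
    (hkk : (((k : ℕ) = 0 ∧ (k' : ℕ) = 2) ∨ ((k : ℕ) = 1 ∧ (k' : ℕ) = 2 * t + 3) ∨
        ((k : ℕ) = 2 * t + 1 ∧ (k' : ℕ) = 3) ∨ ((k : ℕ) = 2 * t + 2 ∧ (k' : ℕ) = 2 * t + 4))) :
    col i0 k0 l0 ζ p q (VV.s i k) ≠ col i0 k0 l0 ζ p q (VV.s (i + 2) k') := by
  simp only [col, val_two]
  have hv := val_lt5 (i - i0)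
  generalize (i - i0).val = v at *
  interval_cases v
  · simp only [sc, Fin.ext_iff]
    split_ifs <;> omega
  · simp only [sc]
    split_ifs <;> omega
  · simp only [sc]
    split_ifs <;> omega
  · simp only [sc, Fin.ext_iff]
    split_ifs <;> omega
  · simp only [sc]
    decide

/-- all dense edges are critical -/
theorem special_critical (ht : 2 ≤ t) (i0 : ZMod 5) (k0 l0 : Fin (4 * t + 3)) (a b : VV t)
    (hab : Special i0 k0 l0 a b) : ((Gam t).deleteEdges {s(a, b)}).Colorable 4 := by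
  obtain ⟨ζ, p, q, hζ1, hζ3, hζ, hζ', hp, hp', hq, hq', hζp, hζq, hpq⟩ :
      ∃ ζ p q : ℕ, (((k0 : ℕ) = 3 ∨ (k0 : ℕ) = 2 * t + 4) → ζ = 1) ∧
        (¬ ((k0 : ℕ) = 3 ∨ (k0 : ℕ) = 2 * t + 4) → ζ = 3) ∧ 1 ≤ ζ ∧ ζ < 4 ∧ 1 ≤ p ∧ p < 4 ∧
        1 ≤ q ∧ q < 4 ∧ ζ ≠ p ∧ ζ ≠ q ∧ p ≠ q := by
    by_cases h : (k0 : ℕ) = 3 ∨ (k0 : ℕ) = 2 * t + 4
    · exact ⟨1, 2, 3, fun _ => rfl, fun h' => absurd h h', by decide, by decide, by decide,
        by decide, by decide, by decide, by decide, by decide, by decide⟩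
    · exact ⟨3, 1, 2, fun h' => absurd h' h, fun _ => rfl, by decide, by decide, by decide,
        by decide, by decide, by decide, by decide, by decide, by decide⟩
  have hlt : ∀ v, col i0 k0 l0 ζ p q v < 4 := by
    have hcyc : ∀ (b : Fin (4 * t + 3)) (p q r : ℕ) (k : Fin (4 * t + 3)), p < 4 → q < 4 →
        r < 4 → cyc3 b p q r k < 4 := by
      intro b p q r k h1 h2 h3
      rcases cyc3_all b p q r k with h | h | h <;> rw [h] <;> assumption
    intro v
    cases v with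
    | s i k =>
      simp only [col, sc]
      split <;> (try split_ifs) <;> omega
    | z i k =>
      simp only [col, zc]
      split <;> first
        | exact hcyc _ _ _ _ _ (by omega) (by omega) (by omega)
        | (split_ifs <;> omega)
    | x i k =>
      simp only [col, xc]
      split <;> exact hcyc _ _ _ _ _ (by omega) (by omega) (by omega)
  have main : ∀ v w, Rel v w → s(v, w) ≠ s(a, b) → col i0 k0 l0 ζ p q v ≠ col i0 k0 l0 ζ p q w := by
    intro v w hvw hne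
    cases hvw with
    | zc i k => exact col_zc i0 k0 l0 ζ p q hζp hpq hζq i k
    | xc i k => exact col_xc i0 k0 l0 ζ p q hζp hpq hζq i k
    | mt i k => exact col_mt i0 k0 l0 ζ p q hζ hp hq i k
    | zu i k l hk =>
      rcases col_zu i0 k0 l0 ζ p q hζ hp hq hζp hζq i k l hk with h | ⟨rfl, rfl, rfl⟩
      · exact h
      · exfalso
        apply hne
        rcases hab with ⟨h1, rfl, rfl⟩ | ⟨h1, _, _⟩
        · rw [sub_add_cancel]
        · omega
    | xa i k l hk =>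
      rcases col_xa i0 k0 l0 ζ p q hζ hp hq hζp hζq i k l hk with h | ⟨rfl, rfl, rfl⟩
      · exact h
      · exfalso
        apply hne
        rcases hab with ⟨h1, _, _⟩ | ⟨h1, rfl, rfl⟩
        · omega
        · rfl
    | e0 i k k' hkk => exact col_e0 ht i0 k0 l0 ζ p q hζ1 hζ3 i k k' hkk
  refine colorable_of_fun (fun v => (⟨col i0 k0 l0 ζ p q v, hlt v⟩ : Fin 4)) ?_
  intro v w hvw
  rw [deleteEdges_adj, Gam, SimpleGraph.fromRel_adj, Set.mem_singleton_iff] at hvw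
  obtain ⟨⟨hne, hvw⟩, hsym⟩ := hvw
  intro heq
  have heq' : col i0 k0 l0 ζ p q v = col i0 k0 l0 ζ p q w := congrArg Fin.val heq
  rcases hvw with h | h
  · exact main v w h hsym heq'
  · exact main w v h (by rwa [Sym2.eq_swap]) heq'.symm

theorem degree_aux (ht : 2 ≤ t) {m : ℕ} (G : SimpleGraph (Fin m)) (f : G →g Gam t)
    (hf : Function.Injective f) (hG : ¬ G.Colorable 4) (v : Fin m) (d : ℕ) (g : Fin d → VV t)
    (hg : Function.Injective g)
    (hs : ∀ j, ∃ i0 k0 l0, Special i0 k0 l0 (f v) (g j) ∨ Special i0 k0 l0 (g j) (f v)) :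
    d ≤ (G.neighborSet v).ncard := by
  have h1 : ∀ j, ∃ w, G.Adj v w ∧ f w = g j := by
    intro j
    obtain ⟨i0, k0, l0, h | h⟩ := hs j
    · obtain ⟨x, y, hxy, hx, hy⟩ := edge_mem f hG _ _ (special_critical ht i0 k0 l0 _ _ h)
      have : x = v := hf hx
      subst this
      exact ⟨y, hxy, hy⟩
    · obtain ⟨x, y, hxy, hx, hy⟩ := edge_mem f hG _ _ (special_critical ht i0 k0 l0 _ _ h)
      have : y = v := hf hy
      subst this
      exact ⟨x, hxy.symm, hx⟩
  choose w hw1 hw2 using h1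
  have hw : Function.Injective w := by
    intro j j' h
    apply hg
    rw [← hw2, ← hw2, h]
  have hcard : (Set.range w).ncard = d := by
    rw [← Set.image_univ, Set.ncard_image_of_injective _ hw, Set.ncard_univ, Nat.card_fin]
  rw [← hcard]
  refine Set.ncard_le_ncard ?_ (Set.toFinite _)
  rintro _ ⟨j, rfl⟩
  exact hw1 j

theorem degree_bound (ht : 2 ≤ t) {m : ℕ} (G : SimpleGraph (Fin m)) (f : G →g Gam t)
    (hf : Function.Injective f) (hG : ¬ G.Colorable 4) (v : Fin m) :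
    2 * t + 1 ≤ (G.neighborSet v).ncard := by
  rcases hv : f v with ⟨i, k⟩ | ⟨i, k⟩ | ⟨i, k⟩
  · rcases lt_or_ge (k : ℕ) (2 * t + 1) with hk | hk
    · refine degree_aux ht G f hf hG v _
        (fun j : Fin (2 * t + 1) => VV.z (i - 1) ⟨j, by omega⟩) ?_ ?_
      · intro j j' h
        simpa [Fin.ext_iff] using h
      · intro j
        refine ⟨i, k, ⟨j, by omega⟩, Or.inr (Or.inl ⟨hk, rfl, hv⟩)⟩
    · refine degree_aux ht G f hf hG v _
        (fun j : Fin (2 * t + 1) => VV.x i ⟨j, by omega⟩) ?_ ?_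
      · intro j j' h
        simpa [Fin.ext_iff] using h
      · intro j
        refine ⟨i, k, ⟨j, by omega⟩, Or.inr (Or.inr ⟨hk, rfl, hv⟩)⟩
  · refine degree_aux ht G f hf hG v _
      (fun j : Fin (2 * t + 1) => VV.s (i + 1) ⟨j, by omega⟩) ?_ ?_
    · intro j j' h
      simpa [Fin.ext_iff] using h
    · intro j
      refine ⟨i + 1, ⟨j, by omega⟩, k, Or.inl (Or.inl ⟨j.isLt, ?_, rfl⟩)⟩
      rw [hv, add_sub_cancel_right]
  · refine degree_aux ht G f hf hG v _
      (fun j : Fin (2 * t + 1) => VV.s i ⟨2 * t + 1 + j, by omega⟩) ?_ ?_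
    · intro j j' h
      simpa [Fin.ext_iff] using h
    · intro j
      exact ⟨i, ⟨2 * t + 1 + j, by omega⟩, k, Or.inl (Or.inr ⟨by simp, hv, rfl⟩)⟩

/-- the theorem -/
theorem main (N : ℕ) : ∃ n : ℕ, N ≤ n ∧ ∃ G : SimpleGraph (Fin n),
    G.chromaticNumber = 5 ∧ (∀ e ∈ G.edgeSet, (G.deleteEdges {e}).chromaticNumber < 5) ∧
    ∀ v : Fin n, (1 / 45 : ℝ) * (n : ℝ) ≤ ((G.neighborSet v).ncard : ℝ) := by
  obtain ⟨t, ht, hN⟩ : ∃ t : ℕ, 2 ≤ t ∧ N ≤ 2 * t + 1 := ⟨N + 2, by omega, by omega⟩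
  obtain ⟨m, G, f, hf, hG, hE, hV⟩ := exists_critical (Gam t) 4 (not_colorable ht)
  have hdeg := degree_bound ht G f hf hG
  have hm : 0 < m := by
    rcases Nat.eq_zero_or_pos m with h0 | h0
    · subst h0
      exact absurd (Colorable.of_isEmpty (G := G) 4) hG
    · exact h0
  have hm1 : 2 * t + 1 ≤ m := by
    refine (hdeg ⟨0, hm⟩).trans ?_
    refine (Set.ncard_le_ncard (Set.subset_univ _) (Set.toFinite _)).trans ?_
    rw [Set.ncard_univ, Nat.card_fin]
  have hm2 : m ≤ 15 * (4 * t + 3) := by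
    have h1 := Fintype.card_le_of_injective f hf
    rw [Fintype.card_fin] at h1
    exact h1.trans card_le
  refine ⟨m, hN.trans hm1, G, ?_, ?_, ?_⟩
  · have := chromaticNumber_eq G hG hV
    rw [this]; rfl
  · intro e he
    induction e using Sym2.ind with
    | _ v w =>
      have h1 : G.Adj v w := he
      exact chromaticNumber_lt (hE v w h1)
  · intro v
    have h1 := hdeg v
    have h2 : ((2 * t + 1 : ℕ) : ℝ) ≤ ((G.neighborSet v).ncard : ℝ) := by exact_mod_cast h1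
    have h3 : (m : ℝ) ≤ ((15 * (4 * t + 3) : ℕ) : ℝ) := by exact_mod_cast hm2
    push_cast at h2 h3
    have h4 : (0 : ℝ) ≤ t := Nat.cast_nonneg t
    linarith

end Pool.Agent.Helper201.FiveCrit
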