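import Mathlib
import Pool.Agent.Helper201.Crit

set_option autoImplicit false

namespace Pool.Agent.Helper201.Gadget

open SimpleGraph Pool.Agent.Helper201.Crit

/-- Vertices of the selection gadget built on the vertex set `V`; there are `Q + 3` colours. -/
inductive GV (V : Type) (N Q : ℕ) : Type
  | pal (j : Fin (Q + 3)) : GV V N Q
  | base (v : V) : GV V N Q
  | s (b : Bool) (v : V) : GV V N Q
  | u (b : Bool) (v : V) (j : Fin (Q + 3)) : GV V N Q
  | r (b : Bool) (v : V) (j : Fin (Q + 3)) : GV V N Q
  | X (b : Bool) (i : Fin (N + 1)) : GV V N Q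
  | Y (b : Bool) (v : V) : GV V N Q

variable {V : Type} {N Q : ℕ}

/-- colour of an unselected selector vertex -/
def F : Bool → ℕ
  | false => 1
  | true => 2

/-- the other nonzero colour used in the chain -/
def O : Bool → ℕ
  | false => 2
  | true => 1

/-- an auxiliary colour different from `0` and `j` -/
def al (j : ℕ) : ℕ := if j = 1 then 2 else 1

/-- the list of allowed colours at each vertex -/
def L : GV V N Q → ℕ → Prop
  | GV.pal _, _ => True
  | GV.base _, _ => True
  | GV.s b _, c => c = 0 ∨ c = F b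
  | GV.u _ _ j, c => c = 0 ∨ c = al j
  | GV.r _ _ j, c => c = al j ∨ c = j
  | GV.X b i, c => (c = 0 ∧ (i : ℕ) ≠ N) ∨ (c = O b ∧ (i : ℕ) ≠ 0)
  | GV.Y _ _, c => c = 0 ∨ c = 1 ∨ c = 2

/-- the adjacency relation (before symmetrisation) -/
inductive Rel (H : SimpleGraph V) (e : V → ℕ) : GV V N Q → GV V N Q → Prop
  | pal (i j : Fin (Q + 3)) : i ≠ j → Rel H e (GV.pal i) (GV.pal j)
  | list (j : Fin (Q + 3)) (w : GV V N Q) : ¬ L w (j : ℕ) → Rel H e (GV.pal j) w
  | base (v w : V) : H.Adj v w → Rel H e (GV.base v) (GV.base w)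
  | st (v w : V) : ¬ H.Adj v w → Rel H e (GV.s false v) (GV.s true w)
  | su (b : Bool) (v : V) (j : Fin (Q + 3)) : (j : ℕ) ≠ 0 → Rel H e (GV.s b v) (GV.u b v j)
  | ur (b : Bool) (v : V) (j : Fin (Q + 3)) : (j : ℕ) ≠ 0 → Rel H e (GV.u b v j) (GV.r b v j)
  | rb (b : Bool) (v : V) (j : Fin (Q + 3)) : (j : ℕ) ≠ 0 → Rel H e (GV.r b v j) (GV.base v)
  | xy1 (b : Bool) (i : Fin (N + 1)) (v : V) : e v = (i : ℕ) → Rel H e (GV.X b i) (GV.Y b v)
  | xy2 (b : Bool) (i : Fin (N + 1)) (v : V) : e v + 1 = (i : ℕ) → Rel H e (GV.X b i) (GV.Y b v)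
  | ys (b : Bool) (v : V) : Rel H e (GV.Y b v) (GV.s b v)

/-- The gadget graph. -/
def Gam (H : SimpleGraph V) (e : V → ℕ) : SimpleGraph (GV V N Q) :=
  SimpleGraph.fromRel (Rel H e)

/-- Injection to a sum type. -/
def toSum : GV V N Q → (Fin (Q + 3) ⊕ V) ⊕ ((Bool × V) ⊕ (Bool × V)) ⊕
    ((Bool × V × Fin (Q + 3)) ⊕ (Bool × V × Fin (Q + 3))) ⊕ (Bool × Fin (N + 1))
  | GV.pal j => Sum.inl (Sum.inl j)
  | GV.base v => Sum.inl (Sum.inr v)
  | GV.s b v => Sum.inr (Sum.inl (Sum.inl (b, v)))
  | GV.Y b v => Sum.inr (Sum.inl (Sum.inr (b, v)))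
  | GV.u b v j => Sum.inr (Sum.inr (Sum.inl (Sum.inl (b, v, j))))
  | GV.r b v j => Sum.inr (Sum.inr (Sum.inl (Sum.inr (b, v, j))))
  | GV.X b i => Sum.inr (Sum.inr (Sum.inr (b, i)))

theorem toSum_injective : Function.Injective (toSum : GV V N Q → _) := by
  intro a b h
  cases a <;> cases b <;> simp [toSum] at h ⊢ <;> exact h

instance [Fintype V] : Finite (GV V N Q) := Finite.of_injective _ toSum_injective

noncomputable instance [Fintype V] : Fintype (GV V N Q) := Fintype.ofFinite _

theorem card_le [Fintype V] :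
    Fintype.card (GV V N Q) ≤ (4 * Q + 17) * Fintype.card V + Q + 2 * N + 5 := by
  refine (Fintype.card_le_of_injective _ toSum_injective).trans ?_
  simp only [Fintype.card_sum, Fintype.card_prod, Fintype.card_fin, Fintype.card_bool]
  nlinarith

theorem main_not_colorable [Fintype V] (H : SimpleGraph V) (e : V → ℕ)
    (he : ∀ i < N, ∃ v, e v = i) :
    ¬ (Gam (N := N) (Q := Q) H e).Colorable (Q + 3) := by
  intro hcol
  obtain ⟨C, hC⟩ := exists_fun_of_colorable hcol
  -- the palette permutation
  have hσ : Function.Injective (fun j : Fin (Q + 3) => C (GV.pal j)) := by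
    intro i j hij
    by_contra hne
    exact hC (GV.pal i) (GV.pal j) ⟨by simpa using hne, Or.inl (Rel.pal i j hne)⟩ hij
  have hσb : Function.Bijective (fun j : Fin (Q + 3) => C (GV.pal j)) :=
    (Finite.injective_iff_bijective).1 hσ
  let σ : Fin (Q + 3) ≃ Fin (Q + 3) := Equiv.ofBijective _ hσb
  let f : GV V N Q → ℕ := fun w => (σ.symm (C w) : ℕ)
  have hpal : ∀ j : Fin (Q + 3), f (GV.pal j) = j := by
    intro j
    have : σ j = C (GV.pal j) := rfl
    show ((σ.symm (C (GV.pal j)) : Fin (Q + 3)) : ℕ) = j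
    rw [← this, Equiv.symm_apply_apply]
  have hlt : ∀ w, f w < Q + 3 := fun w => (σ.symm (C w)).2
  have hadj : ∀ a b : GV V N Q, a ≠ b → Rel H e a b → f a ≠ f b := by
    intro a b hab hr heq
    apply hC a b ⟨hab, Or.inl hr⟩
    have : σ.symm (C a) = σ.symm (C b) := Fin.ext heq
    exact σ.symm.injective this
  have hL : ∀ w : GV V N Q, L w (f w) := by
    intro w
    by_contra hw
    have hr : Rel H e (GV.pal ⟨f w, hlt w⟩) w := Rel.list _ _ hw
    have hne : (GV.pal ⟨f w, hlt w⟩ : GV V N Q) ≠ w := by
      intro h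
      apply hw
      rw [← h]
      trivial
    have := hadj _ _ hne hr
    rw [hpal] at this
    exact this rfl
  -- the chain forces a selected vertex
  have hsel : ∀ b : Bool, ∃ v, f (GV.s b v) = 0 := by
    intro b
    by_contra hcon
    push Not at hcon
    have hs : ∀ v, f (GV.s b v) = F b := by
      intro v
      rcases hL (GV.s b v) with h | h
      · exact absurd h (hcon v)
      · exact h
    have hchain : ∀ i : ℕ, ∀ hi : i < N + 1, f (GV.X b ⟨i, hi⟩) = 0 := by
      intro i
      induction i with
      | zero =>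
        intro hi
        rcases hL (GV.X b ⟨0, hi⟩) with h | h
        · exact h.1
        · exact absurd rfl h.2
      | succ i ih =>
        intro hi
        have hX := ih (by omega)
        obtain ⟨v, hv⟩ := he i (by omega)
        have h1 := hadj (GV.X b ⟨i, by omega⟩) (GV.Y b v) (by simp) (Rel.xy1 _ _ _ hv)
        have h2 := hadj (GV.X b ⟨i + 1, hi⟩) (GV.Y b v) (by simp) (Rel.xy2 _ _ _ (by simp [hv]))
        have h3 := hadj (GV.Y b v) (GV.s b v) (by simp) (Rel.ys _ _)
        have h4 := hL (GV.Y b v)
        have h5 := hL (GV.X b ⟨i + 1, hi⟩)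
        rw [hs v] at h3
        rw [hX] at h1
        simp only [L] at h4 h5
        cases b <;> simp only [F, O] at * <;> omega
    have h1 := hchain N (by omega)
    rcases hL (GV.X b ⟨N, by omega⟩) with h | h
    · exact h.2 rfl
    · rw [h1] at h
      cases b <;> simp [O] at h
  -- selected vertices have colour 0
  have hbase : ∀ b v, f (GV.s b v) = 0 → f (GV.base v) = 0 := by
    intro b v hs
    by_contra hne
    let j : Fin (Q + 3) := ⟨f (GV.base v), hlt _⟩
    have hj0 : (j : ℕ) ≠ 0 := hne
    have h1 := hadj (GV.s b v) (GV.u b v j) (by simp) (Rel.su _ _ _ hj0)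
    have h2 := hadj (GV.u b v j) (GV.r b v j) (by simp) (Rel.ur _ _ _ hj0)
    have h3 := hadj (GV.r b v j) (GV.base v) (by simp) (Rel.rb _ _ _ hj0)
    have h4 := hL (GV.u b v j)
    have h5 := hL (GV.r b v j)
    simp only [L] at h4 h5
    have hj : (j : ℕ) = f (GV.base v) := rfl
    omega
  obtain ⟨v, hv⟩ := hsel false
  obtain ⟨w, hw⟩ := hsel true
  by_cases hvw : H.Adj v w
  · have := hadj (GV.base v) (GV.base w) (by simpa using hvw.ne) (Rel.base _ _ hvw)
    rw [hbase false v hv, hbase true w hw] at this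
    exact this rfl
  · have := hadj (GV.s false v) (GV.s true w) (by simp) (Rel.st _ _ hvw)
    rw [hv, hw] at this
    exact this rfl

/-- The explicit colouring after removal of an edge of `H`. -/
def colr [DecidableEq V] (e : V → ℕ) (x y : V) (c : V → ℕ) : GV V N Q → ℕ
  | GV.pal j => j
  | GV.base v => c v
  | GV.s b v => if v = (if b then y else x) then 0 else F b
  | GV.u b v j => if v = (if b then y else x) then al j else 0
  | GV.r b v j => if v = (if b then y else x) then j else (if c v = j then al j else j)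
  | GV.X b i => if (i : ℕ) ≤ e (if b then y else x) then 0 else O b
  | GV.Y b v => if e v < e (if b then y else x) then O b else
      if e v = e (if b then y else x) then F b else 0

theorem main_colorable [Fintype V] (H : SimpleGraph V) (e : V → ℕ)
    (heN : ∀ v, e v < N) (hinj : Function.Injective e) (x y : V)
    (hxy : H.Adj x y) (c : V → Fin (Q + 3)) (hx : c x = 0) (hy : c y = 0)
    (hc : ∀ a b, H.Adj a b → s(a, b) ≠ s(x, y) → c a ≠ c b) :
    ((Gam (N := N) (Q := Q) H e).deleteEdges {s(GV.base x, GV.base y)}).Colorable (Q + 3) := by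
  classical
  have hlt : ∀ w : GV V N Q, colr e x y (fun v => (c v : ℕ)) w < Q + 3 := by
    intro w
    cases w with
    | pal j => exact j.2
    | base v => exact (c v).2
    | s b v => simp only [colr]; cases b <;> simp only [F] <;> split_ifs <;> omega
    | u b v j => simp only [colr, al]; split_ifs <;> omega
    | r b v j => simp only [colr, al]; have := j.2; split_ifs <;> omega
    | X b i => simp only [colr]; cases b <;> simp only [O] <;> split_ifs <;> omega
    | Y b v => simp only [colr]; cases b <;> simp only [O, F] <;> split_ifs <;> omega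
  have hL : ∀ w : GV V N Q, L w (colr e x y (fun v => (c v : ℕ)) w) := by
    intro w
    cases w with
    | pal j => trivial
    | base v => trivial
    | s b v => simp only [colr, L]; split_ifs <;> simp
    | u b v j => simp only [colr, L]; split_ifs <;> simp
    | r b v j => simp only [colr, L]; split_ifs <;> simp
    | X b i =>
      simp only [colr, L]
      have h1 := heN (if b then y else x)
      by_cases h : (i : ℕ) ≤ e (if b then y else x)
      · rw [if_pos h]; left; exact ⟨rfl, by omega⟩
      · rw [if_neg h]; right; exact ⟨rfl, by omega⟩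
    | Y b v => simp only [colr, L]; cases b <;> simp only [O, F] <;> split_ifs <;> simp
  have hx' : ((c x : Fin (Q + 3)) : ℕ) = 0 := by rw [hx]; rfl
  have hy' : ((c y : Fin (Q + 3)) : ℕ) = 0 := by rw [hy]; rfl
  have key : ∀ a b : GV V N Q, Rel H e a b → s(a, b) ≠ s(GV.base x, GV.base y) →
      colr e x y (fun v => (c v : ℕ)) a ≠ colr e x y (fun v => (c v : ℕ)) b := by
    intro a b hr hne
    cases hr with
    | pal i j hij => exact fun h => hij (Fin.ext h)
    | list j w hw =>
      intro h
      apply hw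
      have h2 := hL b
      rw [← h] at h2
      exact h2
    | base v w hvw =>
      intro h
      have hne' : s(v, w) ≠ s(x, y) := by
        intro h'
        apply hne
        rw [Sym2.eq_iff] at h' ⊢
        rcases h' with ⟨h1, h2⟩ | ⟨h1, h2⟩
        · left; exact ⟨by rw [h1], by rw [h2]⟩
        · right; exact ⟨by rw [h1], by rw [h2]⟩
      exact hc v w hvw hne' (Fin.ext h)
    | st v w hvw =>
      simp only [colr, F]
      by_cases h1 : v = x <;> by_cases h2 : w = y
      · subst h1; subst h2; exact absurd hxy hvw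
      · simp [h1, h2]
      · simp [h1, h2]
      · simp [h1, h2]
    | su b v j hj =>
      simp only [colr, al]
      cases b <;> simp only [F] <;> split_ifs <;> simp
    | ur b v j hj =>
      simp only [colr, al]
      split_ifs <;> omega
    | rb b v j hj =>
      simp only [colr]
      by_cases hv : v = (if b then y else x)
      · rw [if_pos hv]
        have : ((c v : Fin (Q + 3)) : ℕ) = 0 := by
          rw [hv]; cases b
          · simpa using hx'
          · simpa using hy'
        omega
      · rw [if_neg hv]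
        simp only [al]
        split_ifs <;> omega
    | xy1 b i v hi =>
      simp only [colr]
      cases b <;> simp only [O, F] <;> split_ifs <;> omega
    | xy2 b i v hi =>
      simp only [colr]
      cases b <;> simp only [O, F] <;> split_ifs <;> omega
    | ys b v =>
      simp only [colr]
      by_cases hv : v = (if b then y else x)
      · rw [if_pos hv, hv]
        simp only [lt_irrefl, if_false, if_true]
        cases b <;> simp [F]
      · rw [if_neg hv]
        have : e v ≠ e (if b then y else x) := fun h => hv (hinj h)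
        rw [if_neg this]
        cases b <;> simp only [O, F] <;> split_ifs <;> simp
  refine colorable_of_fun (fun w => ⟨colr e x y (fun v => (c v : ℕ)) w, hlt w⟩) ?_
  intro a b hab heq
  rw [deleteEdges_adj] at hab
  obtain ⟨⟨_, hr⟩, hne⟩ := hab
  rw [Set.mem_singleton_iff] at hne
  have heq' : colr e x y (fun v => (c v : ℕ)) a = colr e x y (fun v => (c v : ℕ)) b :=
    congrArg Fin.val heq
  rcases hr with hr | hr
  · exact key a b hr hne heq'
  · exact key b a hr (by rw [Sym2.eq_swap]; exact hne) heq'.symm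

/-- The main gadget theorem. -/
theorem main [Fintype V] (H : SimpleGraph V)
    (hP : ∀ x y, H.Adj x y → ∃ c : V → Fin (Q + 3), c x = c y ∧
      ∀ a b, H.Adj a b → s(a, b) ≠ s(x, y) → c a ≠ c b) :
    ∃ (m : ℕ) (G : SimpleGraph (Fin m)),
      ¬ G.Colorable (Q + 3) ∧
      (∀ v w, G.Adj v w → (G.deleteEdges {s(v, w)}).Colorable (Q + 3)) ∧
      (∀ v, (G.induce ({v}ᶜ : Set (Fin m))).Colorable (Q + 3)) ∧
      m ≤ (4 * Q + 19) * Fintype.card V + Q + 5 ∧
      ∃ f : {v : V // ∃ w, H.Adj v w} → Fin m, Function.Injective f ∧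
        ∀ a b, H.Adj a.1 b.1 → G.Adj (f a) (f b) := by
  classical
  let N := Fintype.card V
  let e : V → ℕ := fun v => (Fintype.equivFin V v : ℕ)
  have he : ∀ i < N, ∃ v, e v = i := by
    intro i hi
    exact ⟨(Fintype.equivFin V).symm ⟨i, hi⟩, by simp [e]⟩
  have hinj : Function.Injective e := by
    intro a b hab
    exact (Fintype.equivFin V).injective (Fin.ext hab)
  have heN : ∀ v, e v < N := fun v => (Fintype.equivFin V v).2
  obtain ⟨m, G, f, hf, hG, hE, hV⟩ := exists_critical (Gam (N := N) (Q := Q) H e) (Q + 3)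
    (main_not_colorable H e he)
  have hdel : ∀ x y, H.Adj x y →
      ((Gam (N := N) (Q := Q) H e).deleteEdges {s(GV.base x, GV.base y)}).Colorable (Q + 3) := by
    intro x y hxy
    obtain ⟨c, hcxy, hc⟩ := hP x y hxy
    let π := Equiv.swap (c x) 0
    refine main_colorable H e heN hinj x y hxy (fun v => π (c v)) ?_ ?_ ?_
    · simp [π]
    · rw [← hcxy]; simp [π]
    · intro a b hab hne h
      exact hc a b hab hne (π.injective h)
  have hmem : ∀ x y, H.Adj x y → ∃ a b, G.Adj a b ∧ f a = GV.base x ∧ f b = GV.base y :=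
    fun x y hxy => edge_mem f hG _ _ (hdel x y hxy)
  have hm : m ≤ (4 * Q + 19) * Fintype.card V + Q + 5 := by
    have h1 : Fintype.card (Fin m) ≤ Fintype.card (GV V N Q) := Fintype.card_le_of_injective f hf
    have h2 := card_le (V := V) (N := N) (Q := Q)
    rw [Fintype.card_fin] at h1
    have h3 : N = Fintype.card V := rfl
    rw [h3] at h1 h2
    nlinarith
  have hex : ∀ v : {v : V // ∃ w, H.Adj v w}, ∃ a, f a = GV.base v.1 := by
    rintro ⟨v, w, hvw⟩
    obtain ⟨a, b, _, ha, _⟩ := hmem v w hvw
    exact ⟨a, ha⟩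
  choose g hg using hex
  refine ⟨m, G, hG, hE, hV, hm, g, ?_, ?_⟩
  · intro a b hab
    have := hg a
    rw [hab, hg b] at this
    injection this with h
    exact Subtype.ext h.symm
  · intro a b hab
    obtain ⟨a', b', hadj, ha', hb'⟩ := hmem a.1 b.1 hab
    have h1 : g a = a' := hf ((hg a).trans ha'.symm)
    have h2 : g b = b' := hf ((hg b).trans hb'.symm)
    rw [h1, h2]
    exact hadj

end Pool.Agent.Helper201.Gadget
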