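import Mathlib
import Pool.Agent.Helper201.Gir6
import Pool.Agent.Helper201.Gir6P0
import Pool.Agent.Helper201.Gir6P1
import Pool.Agent.Helper201.Gir6P2
import Pool.Agent.Helper201.Gir6P3

set_option autoImplicit false

namespace Pool.Agent.Helper201.Gir6

open SimpleGraph

theorem go_sound (N : ℕ → ℕ) (f : ℕ → Fin 3) : ∀ (fuel s A0 A1 A2 U : ℕ),
    (∀ v, U.testBit v = true → f v = 0 → A0.testBit v = true) →
    (∀ v, U.testBit v = true → f v = 1 → A1.testBit v = true) →
    (∀ v, U.testBit v = true → f v = 2 → A2.testBit v = true) →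
    (∀ v w, U.testBit v = true → U.testBit w = true → (N v).testBit w = true → f v ≠ f w) →
    go N fuel s A0 A1 A2 U = none := by
  intro fuel
  induction fuel with
  | zero => intros; rfl
  | succ k ih =>
    intro s A0 A1 A2 U h0 h1 h2 hN
    rw [go]
    have hU : ((A0 ||| A1 ||| A2) &&& U) = U := by
      apply Nat.eq_of_testBit_eq
      intro i
      rw [Nat.testBit_and, Nat.testBit_or, Nat.testBit_or]
      rcases hb : U.testBit i with _ | _
      · simp
      · have : f i = 0 ∨ f i = 1 ∨ f i = 2 := by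
          generalize f i = z
          revert z
          decide
        rcases this with h | h | h
        · simp [h0 i hb h]
        · simp [h1 i hb h]
        · simp [h2 i hb h]
    rw [if_neg (by simpa using hU)]
    dsimp only
    generalize (if (((A0 ^^^ A1 ^^^ A2) ^^^ ((A0 ^^^ A1 ^^^ A2) &&& (A0 &&& A1 &&& A2))) &&& U) ≠ 0
      then Nat.log2 (((A0 ^^^ A1 ^^^ A2) ^^^ ((A0 ^^^ A1 ^^^ A2) &&& (A0 &&& A1 &&& A2))) &&& U)
      else s % 128) = v
    generalize (if (((A0 ^^^ A1 ^^^ A2) ^^^ ((A0 ^^^ A1 ^^^ A2) &&& (A0 &&& A1 &&& A2))) &&& U) ≠ 0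
      then s else s / 128) = s'
    rcases hv : U.testBit v with _ | _
    · simp
    · have hm : ∀ w, (U ^^^ 2 ^ v).testBit w = true → U.testBit w = true ∧ w ≠ v := by
        intro w hw
        rw [Nat.testBit_xor, Nat.testBit_two_pow] at hw
        by_cases h : v = w
        · subst h
          simp [hv] at hw
        · refine ⟨by simpa [h] using hw, fun h' => h h'.symm⟩
      have hA : ∀ (A : ℕ) (c : Fin 3), f v = c →
          (∀ w, U.testBit w = true → f w = c → A.testBit w = true) →
          ∀ w, (U ^^^ 2 ^ v).testBit w = true → f w = c →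
            (A ^^^ (A &&& N v)).testBit w = true := by
        intro A c hc hA w hw hwc
        obtain ⟨hw1, hw2⟩ := hm w hw
        have h3 := hA w hw1 hwc
        have h4 : (N v).testBit w = false := by
          by_contra hcon
          rw [Bool.not_eq_false] at hcon
          exact hN v w hv hw1 hcon (by rw [hc, hwc])
        rw [Nat.testBit_xor, Nat.testBit_and, h3, h4]
        rfl
      have : f v = 0 ∨ f v = 1 ∨ f v = 2 := by
        generalize f v = z
        revert z
        decide
      rw [if_pos rfl]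
      rcases this with h | h | h
      · have := fun t => ih t (A0 ^^^ (A0 &&& N v)) A1 A2 (U ^^^ 2 ^ v) (hA A0 0 h h0)
          (fun w hw => h1 w (hm w hw).1) (fun w hw => h2 w (hm w hw).1)
          (fun x y hx hy => hN x y (hm x hx).1 (hm y hy).1)
        rw [if_pos (h0 v hv h), this]
      · have := fun t => ih t A0 (A1 ^^^ (A1 &&& N v)) A2 (U ^^^ 2 ^ v)
          (fun w hw => h0 w (hm w hw).1) (hA A1 1 h h1) (fun w hw => h2 w (hm w hw).1)
          (fun x y hx hy => hN x y (hm x hx).1 (hm y hy).1)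
        split
        · rfl
        · rw [if_pos (h1 v hv h), this]
      · have := fun t => ih t A0 A1 (A2 ^^^ (A2 &&& N v)) (U ^^^ 2 ^ v)
          (fun w hw => h0 w (hm w hw).1) (fun w hw => h1 w (hm w hw).1) (hA A2 2 h h2)
          (fun x y hx hy => hN x y (hm x hx).1 (hm y hy).1)
        split
        · rfl
        · split
          · rfl
          · rw [if_pos (h2 v hv h), this]


inductive T : Type
  | leaf : T
  | node : ℕ → T → T → T → T

/-- unpropagated leaf states of a top tree -/
def lvs : T → ℕ → ℕ → ℕ → ℕ → List (ℕ × ℕ × ℕ × ℕ)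
  | .leaf, A0, A1, A2, U => [(A0, A1, A2, U)]
  | .node v a b c, A0, A1, A2, U =>
    if U.testBit v then
      (if A0.testBit v then lvs a (A0 ^^^ (A0 &&& nb v)) A1 A2 (U ^^^ (2 ^ v)) else []) ++
      ((if A1.testBit v then lvs b A0 (A1 ^^^ (A1 &&& nb v)) A2 (U ^^^ (2 ^ v)) else []) ++
      (if A2.testBit v then lvs c A0 A1 (A2 ^^^ (A2 &&& nb v)) (U ^^^ (2 ^ v)) else []))
    else [(A0, A1, A2, U)]

/-- compatibility of a colouring with a state -/
def Val (f : ℕ → Fin 3) (A0 A1 A2 U : ℕ) : Prop :=
    (∀ v, U.testBit v = true → f v = 0 → A0.testBit v = true) ∧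
    (∀ v, U.testBit v = true → f v = 1 → A1.testBit v = true) ∧
    (∀ v, U.testBit v = true → f v = 2 → A2.testBit v = true) ∧
    (∀ v w, U.testBit v = true → U.testBit w = true → (nb v).testBit w = true → f v ≠ f w)

theorem lvs_sound (f : ℕ → Fin 3) : ∀ (t : T) (A0 A1 A2 U : ℕ), Val f A0 A1 A2 U →
    ∃ e ∈ lvs t A0 A1 A2 U, Val f e.1 e.2.1 e.2.2.1 e.2.2.2 := by
  intro t
  induction t with
  | leaf =>
    intro A0 A1 A2 U h
    exact ⟨(A0, A1, A2, U), by simp [lvs], h⟩
  | node v a b c iha ihb ihc =>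
    intro A0 A1 A2 U hV
    rw [lvs]
    rcases hv : U.testBit v with _ | _
    · exact ⟨(A0, A1, A2, U), by simp, hV⟩
    · obtain ⟨h0, h1, h2, hN⟩ := hV
      have hm : ∀ w, (U ^^^ 2 ^ v).testBit w = true → U.testBit w = true ∧ w ≠ v := by
        intro w hw
        rw [Nat.testBit_xor, Nat.testBit_two_pow] at hw
        by_cases h : v = w
        · subst h
          simp [hv] at hw
        · refine ⟨by simpa [h] using hw, fun h' => h h'.symm⟩
      have hA : ∀ (A : ℕ) (c : Fin 3), f v = c →
          (∀ w, U.testBit w = true → f w = c → A.testBit w = true) →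
          ∀ w, (U ^^^ 2 ^ v).testBit w = true → f w = c →
            (A ^^^ (A &&& nb v)).testBit w = true := by
        intro A c hc hA w hw hwc
        obtain ⟨hw1, hw2⟩ := hm w hw
        have h3 := hA w hw1 hwc
        have h4 : (nb v).testBit w = false := by
          by_contra hcon
          rw [Bool.not_eq_false] at hcon
          exact hN v w hv hw1 hcon (by rw [hc, hwc])
        rw [Nat.testBit_xor, Nat.testBit_and, h3, h4]
        rfl
      have : f v = 0 ∨ f v = 1 ∨ f v = 2 := by
        generalize f v = z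
        revert z
        decide
      rw [if_pos rfl]
      rcases this with h | h | h
      · obtain ⟨e, he, hVe⟩ := iha (A0 ^^^ (A0 &&& nb v)) A1 A2 (U ^^^ 2 ^ v) ⟨hA A0 0 h h0,
          fun w hw => h1 w (hm w hw).1, fun w hw => h2 w (hm w hw).1,
          fun x y hx hy => hN x y (hm x hx).1 (hm y hy).1⟩
        refine ⟨e, ?_, hVe⟩
        rw [if_pos (h0 v hv h)]
        exact List.mem_append_left _ he
      · obtain ⟨e, he, hVe⟩ := ihb A0 (A1 ^^^ (A1 &&& nb v)) A2 (U ^^^ 2 ^ v)
          ⟨fun w hw => h0 w (hm w hw).1, hA A1 1 h h1, fun w hw => h2 w (hm w hw).1,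
          fun x y hx hy => hN x y (hm x hx).1 (hm y hy).1⟩
        refine ⟨e, ?_, hVe⟩
        rw [if_pos (h1 v hv h)]
        exact List.mem_append_right _ (List.mem_append_left _ he)
      · obtain ⟨e, he, hVe⟩ := ihc A0 A1 (A2 ^^^ (A2 &&& nb v)) (U ^^^ 2 ^ v)
          ⟨fun w hw => h0 w (hm w hw).1, fun w hw => h1 w (hm w hw).1, hA A2 2 h h2,
          fun x y hx hy => hN x y (hm x hx).1 (hm y hy).1⟩
        refine ⟨e, ?_, hVe⟩
        rw [if_pos (h2 v hv h)]
        exact List.mem_append_right _ (List.mem_append_right _ he)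

theorem exists_perm : ∀ x y : Fin 3, x ≠ y →
    ∃ σ : Equiv.Perm (Fin 3), σ x = 0 ∧ σ y = 1 := by
  decide

theorem full_testBit (v : ℕ) : full.testBit v = decide (v < 112) := by
  unfold full
  exact Nat.testBit_two_pow_sub_one 112 v

/-- the top tree -/
def tree : T :=
  (.node 63 (.node 4 (.node 5 (.node 75 .leaf (.node 61 (.node 21 .leaf .leaf .leaf) (.node 53
  .leaf .leaf .leaf) (.node 66 .leaf (.node 21 .leaf .leaf .leaf) .leaf)) (.node 87 (.node 79
  (.node 39 .leaf .leaf .leaf) .leaf .leaf) (.node 74 .leaf (.node 107 .leaf .leaf .leaf) .leaf)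
  .leaf)) (.node 36 (.node 72 (.node 49 .leaf .leaf .leaf) (.node 79 .leaf .leaf .leaf) (.node 48
  .leaf .leaf .leaf)) (.node 72 (.node 79 .leaf .leaf .leaf) .leaf (.node 90 .leaf .leaf .leaf))
  (.node 72 .leaf .leaf .leaf)) (.node 36 (.node 51 .leaf (.node 12 .leaf .leaf .leaf) (.node 94
  .leaf .leaf .leaf)) (.node 72 .leaf .leaf .leaf) (.node 61 (.node 90 .leaf .leaf .leaf) .leaf
  .leaf))) (.node 8 (.node 79 .leaf .leaf (.node 15 .leaf .leaf .leaf)) (.node 51 (.node 88 .leaf
  .leaf .leaf) (.node 36 .leaf .leaf .leaf) .leaf) (.node 77 (.node 67 .leaf .leaf .leaf) (.node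
  98 .leaf .leaf .leaf) (.node 61 .leaf .leaf .leaf))) (.node 5 (.node 61 .leaf .leaf .leaf)
  (.node 36 (.node 49 .leaf .leaf .leaf) (.node 92 .leaf .leaf .leaf) (.node 61 .leaf .leaf
  .leaf)) (.node 36 (.node 61 .leaf .leaf .leaf) (.node 61 .leaf .leaf .leaf) (.node 61 .leaf
  .leaf .leaf)))) .leaf (.node 4 (.node 5 (.node 40 (.node 75 (.node 107 .leaf .leaf .leaf) .leaf
  .leaf) (.node 36 (.node 30 .leaf .leaf .leaf) .leaf .leaf) (.node 54 .leaf .leaf .leaf)) (.node
  36 (.node 61 (.node 40 (.node 84 .leaf .leaf .leaf) .leaf .leaf) .leaf (.node 40 .leaf .leaf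
  .leaf)) (.node 90 .leaf .leaf .leaf) .leaf) (.node 36 (.node 40 (.node 61 .leaf .leaf .leaf)
  .leaf .leaf) .leaf (.node 40 .leaf .leaf .leaf))) (.node 8 (.node 72 (.node 17 .leaf .leaf
  .leaf) .leaf (.node 102 (.node 98 .leaf .leaf .leaf) .leaf (.node 34 .leaf .leaf .leaf))) (.node
  13 (.node 28 .leaf .leaf .leaf) (.node 15 .leaf .leaf (.node 87 .leaf .leaf .leaf)) .leaf)
  (.node 72 (.node 42 .leaf .leaf .leaf) .leaf (.node 86 .leaf .leaf .leaf))) (.node 5 (.node 61
  .leaf .leaf (.node 36 .leaf .leaf (.node 40 .leaf .leaf .leaf))) (.node 36 (.node 72 (.node 10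
  .leaf .leaf .leaf) .leaf .leaf) (.node 90 .leaf .leaf .leaf) (.node 72 .leaf .leaf .leaf))
  (.node 36 (.node 61 .leaf .leaf .leaf) .leaf (.node 61 (.node 40 .leaf .leaf .leaf) (.node 94
  .leaf .leaf .leaf) .leaf)))))

/-- all leaf checks -/
def allG : List (List ((ℕ × ℕ × ℕ × ℕ) × ℕ)) :=
  [G0, G1, G2, G3, G4, G5, G6, G7, G8, G9, G10, G11,
  G12, G13, G14, G15, G16, G17, G18, G19, G20, G21, G22, G23,
  G24, G25, G26, G27, G28, G29, G30, G31, G32, G33, G34, G35,
  G36, G37, G38, G39, G40, G41, G42, G43, G44, G45, G46, G47,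
  G48, G49, G50, G51, G52, G53, G54, G55, G56, G57, G58, G59,
  G60, G61, G62, G63, G64, G65, G66, G67, G68, G69, G70, G71,
  G72, G73, G74, G75, G76, G77, G78, G79, G80, G81, G82, G83,
  G84, G85, G86, G87, G88, G89, G90, G91, G92, G93, G94, G95,
  G96, G97, G98, G99, G100, G101, G102, G103, G104, G105, G106, G107,
  G108, G109, G110, G111, G112, G113, G114, G115, G116, G117, G118, G119,
  G120, G121, G122, G123, G124, G125, G126, G127, G128]

theorem allG_ok : ∀ g ∈ allG, g.all ck = true := by
  unfold allG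
  simp only [List.forall_mem_cons]
  exact ⟨g0, g1, g2, g3, g4, g5, g6, g7, g8, g9, g10, g11,
    g12, g13, g14, g15, g16, g17, g18, g19, g20, g21, g22, g23,
    g24, g25, g26, g27, g28, g29, g30, g31, g32, g33, g34, g35,
    g36, g37, g38, g39, g40, g41, g42, g43, g44, g45, g46, g47,
    g48, g49, g50, g51, g52, g53, g54, g55, g56, g57, g58, g59,
    g60, g61, g62, g63, g64, g65, g66, g67, g68, g69, g70, g71,
    g72, g73, g74, g75, g76, g77, g78, g79, g80, g81, g82, g83,
    g84, g85, g86, g87, g88, g89, g90, g91, g92, g93, g94, g95,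
    g96, g97, g98, g99, g100, g101, g102, g103, g104, g105, g106, g107,
    g108, g109, g110, g111, g112, g113, g114, g115, g116, g117, g118, g119,
    g120, g121, g122, g123, g124, g125, g126, g127, g128,
    fun x hx => absurd hx List.not_mem_nil⟩

theorem tree_ok : lvs tree (full ^^^ (nb 0)) (full ^^^ (nb 97)) full ((full ^^^ (2 ^ 0)) ^^^ (2 ^ 97)) =
    allG.flatten.map Prod.fst := by
  decide +kernel

theorem chk_sound (v0 w0 : ℕ) (h1 : (nb v0).testBit w0 = true)
    (h2 : lvs tree (full ^^^ (nb v0)) (full ^^^ (nb w0)) full ((full ^^^ (2 ^ v0)) ^^^ (2 ^ w0)) =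
      allG.flatten.map Prod.fst) (hv0 : v0 < 112) (hw0 : w0 < 112)
    (f : ℕ → Fin 3)
    (hf : ∀ v w, v < 112 → w < 112 → (nb v).testBit w = true → f v ≠ f w) : False := by
  obtain ⟨σ, hσ0, hσ1⟩ := exists_perm (f v0) (f w0) (hf v0 w0 hv0 hw0 h1)
  have hU : ∀ u, ((full ^^^ 2 ^ v0) ^^^ 2 ^ w0).testBit u = true → u < 112 := by
    intro u hu
    by_contra hcon
    rw [Nat.testBit_xor, Nat.testBit_xor, full_testBit, Nat.testBit_two_pow,
      Nat.testBit_two_pow] at hu
    have e1 : ¬ v0 = u := by omega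
    have e2 : ¬ w0 = u := by omega
    simp [hcon, e1, e2] at hu
  have hV : Val (fun x => σ (f x)) (full ^^^ (nb v0))
    (full ^^^ (nb w0)) full ((full ^^^ (2 ^ v0)) ^^^ (2 ^ w0)) := by
   refine ⟨?_, ?_, ?_, ?_⟩
   · intro u hu hu0
     have hu' := hU u hu
     have h3 : (nb v0).testBit u = false := by
       by_contra hcon
       rw [Bool.not_eq_false] at hcon
       apply hf v0 u hv0 hu' hcon
       apply σ.injective
       rw [hσ0]
       exact hu0.symm
     rw [Nat.testBit_xor, full_testBit, h3]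
     simp [hu']
   · intro u hu hu0
     have hu' := hU u hu
     have h3 : (nb w0).testBit u = false := by
       by_contra hcon
       rw [Bool.not_eq_false] at hcon
       apply hf w0 u hw0 hu' hcon
       apply σ.injective
       rw [hσ1]
       exact hu0.symm
     rw [Nat.testBit_xor, full_testBit, h3]
     simp [hu']
   · intro u hu _
     rw [full_testBit]
     simpa using hU u hu
   · intro x y hx hy hxy he
     exact hf x y (hU x hx) (hU y hy) hxy (σ.injective he)
  obtain ⟨e, he, h3⟩ := lvs_sound _ tree _ _ _ _ hV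
  rw [h2, List.mem_map] at he
  obtain ⟨x, hx, rfl⟩ := he
  rw [List.mem_flatten] at hx
  obtain ⟨g, hg, hxg⟩ := hx
  have h4 := allG_ok g hg
  rw [List.all_eq_true] at h4
  have h5 := h4 x hxg
  unfold ck at h5
  rw [go_sound nb _ 120 x.2 _ _ _ _ h3.1 h3.2.1 h3.2.2.1 h3.2.2.2] at h5
  cases h5

theorem symm_all : (List.range 112).all (fun x =>
    (List.range x).all (fun y => (nb x).testBit y == (nb y).testBit x) &&
      !(nb x).testBit x) = true := by
  decide +kernel

theorem nl_all : (List.range 112).all (fun x => (List.range 112).all (fun y =>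
    !(nb x).testBit y || (nl x 0 == y || nl x 1 == y || nl x 2 == y || nl x 3 == y ||
      nl x 4 == y))) = true := by
  decide +kernel

theorem girth_all : (List.range 112).all (fun v => (List.range 5).all (fun i =>
    (List.range 5).all (fun j => i == j || ((!(nb (nl v i)).testBit (nl v j)) &&
      ((nb (nl v i) &&& nb (nl v j)) == 2 ^ v) &&
      (List.range 5).all (fun k => nl (nl v i) k == v ||
        (nb (nl (nl v i) k) &&& nb (nl v j)) == 0))))) = true := by
  decide +kernel

/-- The graph. -/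
def Gr : SimpleGraph (Fin 112) where
  Adj x y := (nb x).testBit y = true
  symm := ⟨by
    intro x y h
    have hs := symm_all
    rw [List.all_eq_true] at hs
    rcases lt_trichotomy (x : ℕ) (y : ℕ) with hxy | hxy | hxy
    · have := hs y (List.mem_range.2 y.2)
      rw [Bool.and_eq_true, List.all_eq_true] at this
      have h2 := this.1 x (List.mem_range.2 hxy)
      rw [beq_iff_eq] at h2
      rw [h2]
      exact h
    · rw [← hxy] at h ⊢
      exact h
    · have := hs x (List.mem_range.2 x.2)
      rw [Bool.and_eq_true, List.all_eq_true] at this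
      have h2 := this.1 y (List.mem_range.2 hxy)
      rw [beq_iff_eq] at h2
      rw [← h2]
      exact h⟩
  loopless := ⟨by
    intro x h
    have hs := symm_all
    rw [List.all_eq_true] at hs
    have := hs x (List.mem_range.2 x.2)
    rw [Bool.and_eq_true] at this
    rw [h] at this
    simp at this⟩

theorem Gr_adj (x y : Fin 112) : Gr.Adj x y ↔ (nb x).testBit y = true := Iff.rfl

theorem exists_nl (x y : Fin 112) (h : Gr.Adj x y) : ∃ k : ℕ, k < 5 ∧ nl x k = y := by
  have hs := nl_all
  rw [List.all_eq_true] at hs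
  have h1 := hs x (List.mem_range.2 x.2)
  rw [List.all_eq_true] at h1
  have h2 := h1 y (List.mem_range.2 y.2)
  have h3 : (nb x).testBit y = true := h
  rw [h3] at h2
  simp only [Bool.not_true, Bool.false_or, Bool.or_eq_true, beq_iff_eq] at h2
  rcases h2 with (((h | h) | h) | h) | h
  · exact ⟨0, by norm_num, h⟩
  · exact ⟨1, by norm_num, h⟩
  · exact ⟨2, by norm_num, h⟩
  · exact ⟨3, by norm_num, h⟩
  · exact ⟨4, by norm_num, h⟩

theorem degree_le (v : Fin 112) : (Gr.neighborSet v).ncard ≤ 5 := by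
  have hsub : (fun w : Fin 112 => (w : ℕ)) '' (Gr.neighborSet v) ⊆
      ↑((Finset.range 5).image (fun k => nl v k)) := by
    rintro _ ⟨w, hw, rfl⟩
    obtain ⟨k, hk, hk2⟩ := exists_nl v w hw
    simp only [Finset.coe_image, Set.mem_image]
    exact ⟨k, by simpa using hk, hk2⟩
  have h1 : ((fun w : Fin 112 => (w : ℕ)) '' (Gr.neighborSet v)).ncard =
      (Gr.neighborSet v).ncard :=
    Set.ncard_image_of_injective _ Fin.val_injective
  rw [← h1]
  refine (Set.ncard_le_ncard hsub (Finset.finite_toSet _)).trans ?_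
  rw [Set.ncard_coe_finset]
  exact Finset.card_image_le.trans (by simp)

theorem key (v x y : Fin 112) (hx : Gr.Adj v x) (hy : Gr.Adj v y) (hxy : x ≠ y) :
    ¬ Gr.Adj x y ∧ (∀ u, Gr.Adj x u → Gr.Adj y u → u = v) ∧
    (∀ z u, Gr.Adj x z → z ≠ v → Gr.Adj z u → Gr.Adj y u → False) := by
  obtain ⟨i, hi, hix⟩ := exists_nl v x hx
  obtain ⟨j, hj, hjy⟩ := exists_nl v y hy
  have hs := girth_all
  rw [List.all_eq_true] at hs
  have h1 := hs v (List.mem_range.2 v.2)
  rw [List.all_eq_true] at h1
  have h2 := h1 i (List.mem_range.2 hi)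
  rw [List.all_eq_true] at h2
  have h3 := h2 j (List.mem_range.2 hj)
  have hij : i ≠ j := by
    rintro rfl
    apply hxy
    apply Fin.ext
    rw [← hix, ← hjy]
  rw [hix, hjy] at h3
  simp only [Bool.or_eq_true, beq_iff_eq, hij, false_or, Bool.and_eq_true,
    List.all_eq_true] at h3
  obtain ⟨⟨ha, hb⟩, hc⟩ := h3
  refine ⟨?_, ?_, ?_⟩
  · intro h
    rw [(Gr_adj x y).1 h] at ha
    simp at ha
  · intro u hxu hyu
    have h4 : (nb x &&& nb y).testBit u = true := by
      rw [Nat.testBit_and, (Gr_adj x u).1 hxu, (Gr_adj y u).1 hyu]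
      rfl
    rw [hb, Nat.testBit_two_pow, decide_eq_true_eq] at h4
    exact Fin.ext h4.symm
  · intro z u hxz hzv hzu hyu
    obtain ⟨k, hk, hkz⟩ := exists_nl x z hxz
    have h5 := hc k (List.mem_range.2 hk)
    rw [hkz] at h5
    rcases h5 with h5 | h5
    · exact hzv (Fin.ext h5)
    · have h4 : (nb z &&& nb y).testBit u = true := by
        rw [Nat.testBit_and, (Gr_adj z u).1 hzu, (Gr_adj y u).1 hyu]
        rfl
      rw [h5] at h4
      simp at h4

theorem six_le (a : Fin 112) (w : Gr.Walk a a) (hw : w.IsCycle) : 6 ≤ w.length := by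
  by_contra hlt
  push Not at hlt
  have hl3 := hw.three_le_length
  have hnd := hw.support_nodup
  cases w with
  | nil => simp at hl3
  | @cons _ b _ hab w1 =>
    cases w1 with
    | nil => simp at hl3
    | @cons _ c _ hbc w2 =>
      cases w2 with
      | nil => simp at hl3
      | @cons _ d _ hcd w3 =>
        cases w3 with
        | nil =>
          simp at hnd
          exact (key a b c hab hcd.symm (by tauto)).1 hbc
        | @cons _ e _ hde w4 =>
          cases w4 with
          | nil =>
            simp at hnd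
            have := (key a b d hab hde.symm (by tauto)).2.1 c hbc hcd.symm
            tauto
          | @cons _ g _ heg w5 =>
            cases w5 with
            | nil =>
              simp at hnd
              exact (key a b e hab heg.symm (by tauto)).2.2 c d hbc (by tauto) hcd hde.symm
            | cons h6 w6 =>
              simp at hlt
              omega

theorem adj01 : Gr.Adj 0 1 := by
  show (nb 0).testBit 1 = true
  decide +kernel

theorem adj1 : Gr.Adj 1 30 := by
  show (nb 1).testBit 30 = true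
  decide +kernel

theorem adj2 : Gr.Adj 30 35 := by
  show (nb 30).testBit 35 = true
  decide +kernel

theorem adj3 : Gr.Adj 35 3 := by
  show (nb 35).testBit 3 = true
  decide +kernel

theorem adj4 : Gr.Adj 3 6 := by
  show (nb 3).testBit 6 = true
  decide +kernel

theorem adj5 : Gr.Adj 6 0 := by
  show (nb 6).testBit 0 = true
  decide +kernel

theorem egirth_eq : Gr.egirth = ((6 : ℕ) : ℕ∞) := by
  apply le_antisymm
  · have hc : (Walk.cons adj01 (Walk.cons adj1 (Walk.cons adj2 (Walk.cons adj3
        (Walk.cons adj4 (Walk.cons adj5 Walk.nil)))))).IsCycle := by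
      rw [Walk.cons_isCycle_iff]
      constructor
      · simp [Walk.cons_isPath_iff]
      · simp
    have := egirth_le_length hc
    simpa using this
  · rw [le_egirth]
    intro a w hw
    exact_mod_cast six_le a w hw

theorem not_colorable : ¬ Gr.Colorable 3 := by
  rintro ⟨C⟩
  let F : ℕ → Fin 3 := fun x => if h : x < 112 then C ⟨x, h⟩ else 0
  refine chk_sound 0 97 ?_ tree_ok (by norm_num) (by norm_num) F ?_
  · decide +kernel
  · intro v w hv hw hvw
    have h1 : Gr.Adj ⟨v, hv⟩ ⟨w, hw⟩ := hvw
    have h2 := C.valid h1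
    simpa [F, hv, hw] using h2

end Pool.Agent.Helper201.Gir6
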