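import Mathlib
import Pool.Agent.Helper201.HypoData

set_option autoImplicit false

namespace Pool.Agent.Helper201.Hypo

theorem srch_sound (N : ℕ → ℕ) (f : ℕ → Fin 3) : ∀ (fuel A0 A1 A2 U : ℕ),
    (∀ v, U.testBit v = true → f v = 0 → A0.testBit v = true) →
    (∀ v, U.testBit v = true → f v = 1 → A1.testBit v = true) →
    (∀ v, U.testBit v = true → f v = 2 → A2.testBit v = true) →
    (∀ v w, U.testBit v = true → U.testBit w = true → (N v).testBit w = true → f v ≠ f w) →
    srch N fuel A0 A1 A2 U = false := by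
  intro fuel
  induction fuel with
  | zero => intros; rfl
  | succ k ih =>
    intro A0 A1 A2 U h0 h1 h2 hN
    rw [srch]
    have hU : ((A0 ||| A1 ||| A2) &&& U) = U := by
      apply Nat.eq_of_testBit_eq
      intro i
      rw [Nat.testBit_and, Nat.testBit_or, Nat.testBit_or]
      rcases hb : U.testBit i with _ | _
      · simp
      · have : f i = 0 ∨ f i = 1 ∨ f i = 2 := by
          generalize f i = z
          revert z
          decide
        rcases this with h | h | h
        · simp [h0 i hb h]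
        · simp [h1 i hb h]
        · simp [h2 i hb h]
    rw [if_neg (by simpa using hU)]
    dsimp only
    generalize Nat.log2 _ = v
    rcases hv : U.testBit v with _ | _
    · simp
    · have hm : ∀ w, (U ^^^ 2 ^ v).testBit w = true → U.testBit w = true ∧ w ≠ v := by
        intro w hw
        rw [Nat.testBit_xor, Nat.testBit_two_pow] at hw
        by_cases h : v = w
        · subst h
          simp [hv] at hw
        · refine ⟨by simpa [h] using hw, fun h' => h h'.symm⟩
      have hA : ∀ (A : ℕ) (c : Fin 3), f v = c →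
          (∀ w, U.testBit w = true → f w = c → A.testBit w = true) →
          ∀ w, (U ^^^ 2 ^ v).testBit w = true → f w = c →
            (A ^^^ (A &&& N v)).testBit w = true := by
        intro A c hc hA w hw hwc
        obtain ⟨hw1, hw2⟩ := hm w hw
        have h3 := hA w hw1 hwc
        have h4 : (N v).testBit w = false := by
          by_contra hcon
          rw [Bool.not_eq_false] at hcon
          exact hN v w hv hw1 hcon (by rw [hc, hwc])
        rw [Nat.testBit_xor, Nat.testBit_and, h3, h4]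
        rfl
      have : f v = 0 ∨ f v = 1 ∨ f v = 2 := by
        generalize f v = z
        revert z
        decide
      rcases this with h | h | h
      · have := ih (A0 ^^^ (A0 &&& N v)) A1 A2 (U ^^^ 2 ^ v) (hA A0 0 h h0)
          (fun w hw => h1 w (hm w hw).1) (fun w hw => h2 w (hm w hw).1)
          (fun x y hx hy => hN x y (hm x hx).1 (hm y hy).1)
        rw [this, h0 v hv h]
        simp
      · have := ih A0 (A1 ^^^ (A1 &&& N v)) A2 (U ^^^ 2 ^ v)
          (fun w hw => h0 w (hm w hw).1) (hA A1 1 h h1) (fun w hw => h2 w (hm w hw).1)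
          (fun x y hx hy => hN x y (hm x hx).1 (hm y hy).1)
        rw [this, h1 v hv h]
        simp
      · have := ih A0 A1 (A2 ^^^ (A2 &&& N v)) (U ^^^ 2 ^ v)
          (fun w hw => h0 w (hm w hw).1) (fun w hw => h1 w (hm w hw).1) (hA A2 2 h h2)
          (fun x y hx hy => hN x y (hm x hx).1 (hm y hy).1)
        rw [this, h2 v hv h]
        simp

/-- no colouring when the search succeeds -/
theorem srch_full (N : ℕ → ℕ) (f : ℕ → Fin 3) (fuel m : ℕ)
    (hs : srch N fuel (2 ^ m - 1) (2 ^ m - 1) (2 ^ m - 1) (2 ^ m - 1) = true)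
    (h : ∀ v w, v < m → w < m → (N v).testBit w = true → f v ≠ f w) : False := by
  have hU : ∀ v, (2 ^ m - 1).testBit v = true → v < m := by
    intro v hv
    rw [Nat.testBit_two_pow_sub_one] at hv
    simpa using hv
  have := srch_sound N f fuel (2 ^ m - 1) (2 ^ m - 1) (2 ^ m - 1) (2 ^ m - 1)
    (fun v hv _ => hv) (fun v hv _ => hv) (fun v hv _ => hv)
    (fun v w hv hw hvw => h v w (hU v hv) (hU w hw) hvw)
  rw [this] at hs
  cases hs

/-- incidence triples of the inner vertices of `T` -/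
def INC : List (ℕ × ℕ × ℕ) := [(22, 30, 33), (12, 21, 25), (0, 1, 2), (14, 23, 26), (8, 15, 16), (1, 4, 10), (3, 4, 5), (29, 31, 36), (26, 27, 35), (34, 35, 38), (32, 33, 37), (9, 19, 20), (5, 6, 17), (0, 6, 7), (18, 28, 29), (7, 13, 18), (3, 8, 9), (2, 11, 12), (19, 30, 31), (24, 25, 34), (10, 21, 22), (16, 17, 27), (11, 13, 14), (36, 37, 38)]

theorem chkInc : (List.range 5).all (fun i => INC.all (fun t =>
    share (dx i t.1) (dy i t.1) (dx i t.2.1) (dy i t.2.1) &&
    share (dx i t.1) (dy i t.1) (dx i t.2.2) (dy i t.2.2) &&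
    share (dx i t.2.1) (dy i t.2.1) (dx i t.2.2) (dy i t.2.2))) = true := by
  decide +kernel

theorem parity24 (x : ℕ → ZMod 2)
    (h : ∀ t ∈ INC, x t.1 + x t.2.1 + x t.2.2 = 1) :
    x 15 + x 23 + x 24 + x 32 + x 20 + x 28 = 0 := by
  have hz : (2 : ZMod 2) = 0 := by decide
  have h0 : x 22 + x 30 + x 33 = 1 := h (22, 30, 33) (by decide)
  have h1 : x 12 + x 21 + x 25 = 1 := h (12, 21, 25) (by decide)
  have h2 : x 0 + x 1 + x 2 = 1 := h (0, 1, 2) (by decide)
  have h3 : x 14 + x 23 + x 26 = 1 := h (14, 23, 26) (by decide)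
  have h4 : x 8 + x 15 + x 16 = 1 := h (8, 15, 16) (by decide)
  have h5 : x 1 + x 4 + x 10 = 1 := h (1, 4, 10) (by decide)
  have h6 : x 3 + x 4 + x 5 = 1 := h (3, 4, 5) (by decide)
  have h7 : x 29 + x 31 + x 36 = 1 := h (29, 31, 36) (by decide)
  have h8 : x 26 + x 27 + x 35 = 1 := h (26, 27, 35) (by decide)
  have h9 : x 34 + x 35 + x 38 = 1 := h (34, 35, 38) (by decide)
  have h10 : x 32 + x 33 + x 37 = 1 := h (32, 33, 37) (by decide)
  have h11 : x 9 + x 19 + x 20 = 1 := h (9, 19, 20) (by decide)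
  have h12 : x 5 + x 6 + x 17 = 1 := h (5, 6, 17) (by decide)
  have h13 : x 0 + x 6 + x 7 = 1 := h (0, 6, 7) (by decide)
  have h14 : x 18 + x 28 + x 29 = 1 := h (18, 28, 29) (by decide)
  have h15 : x 7 + x 13 + x 18 = 1 := h (7, 13, 18) (by decide)
  have h16 : x 3 + x 8 + x 9 = 1 := h (3, 8, 9) (by decide)
  have h17 : x 2 + x 11 + x 12 = 1 := h (2, 11, 12) (by decide)
  have h18 : x 19 + x 30 + x 31 = 1 := h (19, 30, 31) (by decide)
  have h19 : x 24 + x 25 + x 34 = 1 := h (24, 25, 34) (by decide)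
  have h20 : x 10 + x 21 + x 22 = 1 := h (10, 21, 22) (by decide)
  have h21 : x 16 + x 17 + x 27 = 1 := h (16, 17, 27) (by decide)
  have h22 : x 11 + x 13 + x 14 = 1 := h (11, 13, 14) (by decide)
  have h23 : x 36 + x 37 + x 38 = 1 := h (36, 37, 38) (by decide)
  linear_combination h0 + h1 + h2 + h3 + h4 + h5 + h6 + h7 + h8 + h9 + h10 + h11 + h12 + h13 + h14 + h15 + h16 + h17 + h18 + h19 + h20 + h21 + h22 + h23 -
    (x 0 + x 1 + x 2 + x 3 + x 4 + x 5 + x 6 + x 7 + x 8 + x 9 + x 10 + x 11 + x 12 + x 13 + x 14 + x 16 + x 17 + x 18 + x 19 + x 21 + x 22 + x 25 + x 26 + x 27 + x 29 + x 30 + x 31 + x 33 + x 34 + x 35 + x 36 + x 37 + x 38 - 12) * hz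

/-- indicator of a colour -/
def ind (a k : Fin 3) : ZMod 2 := if a = k then 1 else 0

theorem ind_sum : ∀ x y z k : Fin 3, x ≠ y → x ≠ z → y ≠ z → ind x k + ind y k + ind z k = 1 := by
  decide

/-- sum of three colours (in the Klein four-group), `none` for zero -/
def tt (a b c : Fin 3) : Option (Fin 3) :=
  if a = b then some c else if b = c then some a else if a = c then some b else none

theorem key1 : ∀ a b c d e g : Fin 3,
    (∀ k : Fin 3, ind a k + ind b k + ind c k + ind d k + ind e k + ind g k = 0) →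
    tt a b c = tt d e g := by
  decide +kernel

theorem key2 : ∀ a b c : Fin 3, tt a b c = none → a ≠ b ∧ a ≠ c ∧ b ≠ c := by
  decide

theorem key3 : ∀ a b c d s t t' : Fin 3, a ≠ b → a ≠ s → b ≠ s → tt a c d = some t →
    tt b c d = some t' → t ≠ t' ∧ t ≠ s ∧ t' ≠ s := by
  decide +kernel

theorem lset_mem : ∀ e, e < 39 → lset.testBit e = true → e = 15 ∨ e = 23 ∨ e = 24 := by
  decide +kernel

theorem rset_mem : ∀ e, e < 39 → rset.testBit e = true → e = 32 ∨ e = 20 ∨ e = 28 := by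
  decide +kernel

/-- adjacency relation in the line graph of the Petersen graph -/
def npRel (v w i : ℕ) : Bool :=
  (v == i && w == (i + 1) % 5) || (w == i && v == (i + 1) % 5) ||
  (v == i && w == 5 + i) || (w == i && v == 5 + i) ||
  (v == (i + 1) % 5 && w == 5 + i) || (w == (i + 1) % 5 && v == 5 + i) ||
  (v == 5 + i && w == 10 + i) || (w == 5 + i && v == 10 + i) ||
  (v == 5 + i && w == 10 + (i + 3) % 5) || (w == 5 + i && v == 10 + (i + 3) % 5) ||
  (v == 10 + i && w == 10 + (i + 3) % 5) || (w == 10 + i && v == 10 + (i + 3) % 5)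

theorem chkNP : (List.range 15).all (fun v => (List.range 15).all (fun w =>
    !((np v).testBit w) || (List.range 5).any (fun i => npRel v w i))) = true := by
  decide +kernel

theorem np_adj (v : ℕ) (hv : v < 15) (w : ℕ) (hw : w < 15) (h : (np v).testBit w = true) :
    ∃ i, i < 5 ∧ npRel v w i = true := by
  have h1 := chkNP
  rw [List.all_eq_true] at h1
  have h2 := h1 v (List.mem_range.2 hv)
  rw [List.all_eq_true] at h2
  have h3 := h2 w (List.mem_range.2 hw)
  rw [h] at h3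
  simp only [Bool.not_true, Bool.false_or, List.any_eq_true] at h3
  obtain ⟨i, hi, h4⟩ := h3
  exact ⟨i, List.mem_range.1 hi, h4⟩

theorem nb_facts (v : ℕ) (hv : v < 130) (i : ℕ) (hi : i < 3) :
    nb v i < 130 ∧ nb v i ≠ v ∧ adjB (nb v i) v = true := by
  have h := chkG
  rw [List.all_eq_true] at h
  have h1 := h v (List.mem_range.2 hv)
  simp only [Bool.and_eq_true, List.all_eq_true] at h1
  have h2 := h1.1.1.1 i (List.mem_range.2 hi)
  simp only [decide_eq_true_eq, bne_iff_ne] at h2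
  exact ⟨h2.1.1, h2.1.2, h2.2⟩

theorem nb_ne (v : ℕ) (hv : v < 130) : nb v 0 ≠ nb v 1 ∧ nb v 0 ≠ nb v 2 ∧ nb v 1 ≠ nb v 2 := by
  have h := chkG
  rw [List.all_eq_true] at h
  have h1 := h v (List.mem_range.2 hv)
  simp only [Bool.and_eq_true, bne_iff_ne] at h1
  exact ⟨h1.1.1.2, h1.1.2, h1.2⟩

theorem adjB_iff (v w : ℕ) : adjB v w = true ↔ ∃ i, i < 3 ∧ nb v i = w := by
  unfold adjB
  simp only [Bool.or_eq_true, beq_iff_eq]
  constructor
  · rintro ((h | h) | h)
    · exact ⟨0, by omega, h⟩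
    · exact ⟨1, by omega, h⟩
    · exact ⟨2, by omega, h⟩
  · rintro ⟨i, hi, h⟩
    interval_cases i
    · exact Or.inl (Or.inl h)
    · exact Or.inl (Or.inr h)
    · exact Or.inr h

theorem adjB_facts (v w : ℕ) (hv : v < 130) (h : adjB v w = true) :
    w < 130 ∧ w ≠ v ∧ adjB w v = true := by
  obtain ⟨i, hi, rfl⟩ := (adjB_iff v w).1 h
  exact nb_facts v hv i hi

theorem dx_lt (i e : ℕ) : dx i e < 130 := Nat.mod_lt _ (by norm_num)

theorem dy_lt (i e : ℕ) : dy i e < 130 := Nat.mod_lt _ (by norm_num)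

theorem dx_mod (i e : ℕ) : dx i e = dx (i % 5) e := by
  unfold dx
  omega

theorem dy_mod (i e : ℕ) : dy i e = dy (i % 5) e := by
  unfold dy
  omega

section NoCol

variable (f : ℕ → ℕ → Fin 3) (hsym : ∀ x y, x < 130 → adjB x y = true → f x y = f y x)
  (hprop : ∀ x y z, x < 130 → adjB x y = true → adjB x z = true → y ≠ z → f x y ≠ f x z)

include hsym hprop

theorem share_sound (a b c d : ℕ) (ha : a < 130) (hc : c < 130) (hab : adjB a b = true)
    (hcd : adjB c d = true) (h : share a b c d = true) : f a b ≠ f c d := by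
  obtain ⟨hb, _, hba⟩ := adjB_facts a b ha hab
  obtain ⟨hd, _, hdc⟩ := adjB_facts c d hc hcd
  unfold share at h
  simp only [Bool.or_eq_true, Bool.and_eq_true, beq_iff_eq, bne_iff_ne] at h
  rcases h with ((⟨h1, h2⟩ | ⟨h1, h2⟩) | ⟨h1, h2⟩) | ⟨h1, h2⟩
  · subst h1
    exact hprop a b d ha hab hcd h2
  · subst h1
    rw [hsym c a hc hcd]
    exact hprop a b c ha hab hdc h2
  · subst h1
    rw [hsym a b ha hab]
    exact hprop b a d hb hba hcd h2
  · subst h1
    rw [hsym a b ha hab, hsym c b hc hcd]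
    exact hprop b a c hb hba hdc h2

theorem block (i : ℕ) (hi : i < 5) : ∃ t : Fin 3,
    tt (f (dx i 15) (dy i 15)) (f (dx i 23) (dy i 23)) (f (dx i 24) (dy i 24)) = some t ∧
    tt (f (dx i 32) (dy i 32)) (f (dx i 20) (dy i 20)) (f (dx i 28) (dy i 28)) = some t := by
  have hd : ∀ e, e < 39 → adjB (dx i e) (dy i e) = true := by
    intro e he
    have h := chkDart
    rw [List.all_eq_true] at h
    have h1 := h i (List.mem_range.2 hi)
    rw [List.all_eq_true] at h1
    exact h1 e (List.mem_range.2 he)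
  have hinc39 : ∀ t ∈ INC, t.1 < 39 ∧ t.2.1 < 39 ∧ t.2.2 < 39 := by decide
  have hpar : ∀ k : Fin 3, ind (f (dx i 15) (dy i 15)) k + ind (f (dx i 23) (dy i 23)) k +
      ind (f (dx i 24) (dy i 24)) k + ind (f (dx i 32) (dy i 32)) k +
      ind (f (dx i 20) (dy i 20)) k + ind (f (dx i 28) (dy i 28)) k = 0 := by
    intro k
    apply parity24 (fun e => ind (f (dx i e) (dy i e)) k)
    intro t ht
    obtain ⟨h1, h2, h3⟩ := hinc39 t ht
    have h := chkInc
    rw [List.all_eq_true] at h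
    have h4 := h i (List.mem_range.2 hi)
    rw [List.all_eq_true] at h4
    have h5 := h4 t ht
    simp only [Bool.and_eq_true] at h5
    apply ind_sum
    · exact share_sound f hsym hprop _ _ _ _ (dx_lt _ _) (dx_lt _ _) (hd _ h1) (hd _ h2) h5.1.1
    · exact share_sound f hsym hprop _ _ _ _ (dx_lt _ _) (dx_lt _ _) (hd _ h1) (hd _ h3) h5.1.2
    · exact share_sound f hsym hprop _ _ _ _ (dx_lt _ _) (dx_lt _ _) (hd _ h2) (hd _ h3) h5.2
  have h1 := key1 _ _ _ _ _ _ hpar
  rcases h2 : tt (f (dx i 15) (dy i 15)) (f (dx i 23) (dy i 23))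
    (f (dx i 24) (dy i 24)) with _ | t
  · exfalso
    obtain ⟨l1, l2, l3⟩ := key2 _ _ _ h2
    rw [h2] at h1
    obtain ⟨r1, r2, r3⟩ := key2 _ _ _ h1.symm
    apply srch_full nt (fun e => f (dx i e) (dy i e)) 60 39 chkT
    intro e e' he he' hee
    have h := chkShare
    rw [List.all_eq_true] at h
    have h4 := h i (List.mem_range.2 hi)
    rw [List.all_eq_true] at h4
    have h5 := h4 e (List.mem_range.2 he)
    rw [List.all_eq_true] at h5
    have h6 := h5 e' (List.mem_range.2 he')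
    rw [hee] at h6
    simp only [Bool.not_true, Bool.false_or, Bool.or_eq_true, Bool.and_eq_true, bne_iff_ne] at h6
    rcases h6 with (h6 | ⟨⟨h6, h7⟩, h8⟩) | ⟨⟨h6, h7⟩, h8⟩
    · exact share_sound f hsym hprop _ _ _ _ (dx_lt _ _) (dx_lt _ _) (hd _ he) (hd _ he') h6
    · rcases lset_mem e he h6 with rfl | rfl | rfl <;>
        rcases lset_mem e' he' h7 with rfl | rfl | rfl <;>
        first
          | exact absurd rfl h8
          | exact l1
          | exact l2
          | exact l3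
          | exact l1.symm
          | exact l2.symm
          | exact l3.symm
    · rcases rset_mem e he h6 with rfl | rfl | rfl <;>
        rcases rset_mem e' he' h7 with rfl | rfl | rfl <;>
        first
          | exact absurd rfl h8
          | exact r1
          | exact r2
          | exact r3
          | exact r1.symm
          | exact r2.symm
          | exact r3.symm
  · exact ⟨t, rfl, by rw [← h1, h2]⟩

theorem noCol : False := by
  have hb := fun i (hi : i < 5) => block f hsym hprop i hi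
  choose! t ht1 ht2 using hb
  have hring : ∀ i, i < 5 →
      t i ≠ t ((i + 1) % 5) ∧ t i ≠ f (26 * i + 24) (26 * i + 25) ∧
      t ((i + 1) % 5) ≠ f (26 * i + 24) (26 * i + 25) := by
    intro i hi
    have h := chkRing
    rw [List.all_eq_true] at h
    have h1 := h i (List.mem_range.2 hi)
    simp only [Bool.and_eq_true, beq_iff_eq, bne_iff_ne] at h1
    obtain ⟨⟨⟨⟨⟨⟨⟨⟨⟨⟨⟨⟨⟨⟨a1, a2⟩, a3⟩, a4⟩, a5⟩, a6⟩, a7⟩, a8⟩, a9⟩, a10⟩, a11⟩, a12⟩, a13⟩, a14⟩, a15⟩ := h1
    have hv : 26 * i + 24 < 130 := by omega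
    have hdd : ∀ j e, e < 39 → adjB (dx (j % 5) e) (dy (j % 5) e) = true := by
      intro j e he
      have h := chkDart
      rw [List.all_eq_true] at h
      have h1 := h (j % 5) (List.mem_range.2 (Nat.mod_lt _ (by norm_num)))
      rw [List.all_eq_true] at h1
      exact h1 e (List.mem_range.2 he)
    have hii : i % 5 = i := Nat.mod_eq_of_lt hi
    have hi' : (i + 1) % 5 < 5 := Nat.mod_lt _ (by norm_num)
    have e1 := ht2 i hi
    have e2 := ht1 ((i + 1) % 5) hi'
    have b1 : f (dx ((i + 1) % 5) 23) (dy ((i + 1) % 5) 23) = f (dx i 20) (dy i 20) := by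
      rw [hsym _ _ (dx_lt _ _) (hdd (i + 1) 23 (by norm_num))]
      rw [← dx_mod, ← dy_mod, ← a1, ← a2]
    have b2 : f (dx ((i + 1) % 5) 24) (dy ((i + 1) % 5) 24) = f (dx i 28) (dy i 28) := by
      rw [hsym _ _ (dx_lt _ _) (hdd (i + 1) 24 (by norm_num))]
      rw [← dx_mod, ← dy_mod, ← a3, ← a4]
    rw [b1, b2] at e2
    have c1 : f (dx i 32) (dy i 32) = f (26 * i + 24) (dx i 32) := by
      rw [a5]
      exact (hsym _ _ hv a14).symm
    have c2 : f (dx ((i + 1) % 5) 15) (dy ((i + 1) % 5) 15) = f (26 * i + 24) (dx (i + 1) 15) := by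
      rw [← dx_mod, ← dy_mod, a6]
      exact (hsym _ _ hv a15).symm
    rw [c1] at e1
    rw [c2] at e2
    exact key3 _ _ _ _ _ _ _ (hprop _ _ _ hv a14 a15 a7) (hprop _ _ _ hv a14 a10 a8)
      (hprop _ _ _ hv a15 a10 a9) e1 e2
  have hin : ∀ i, i < 5 →
      f (26 * i + 24) (26 * i + 25) ≠ f (26 * i + 25) (26 * ((i + 2) % 5) + 25) ∧
      f (26 * i + 24) (26 * i + 25) ≠
        f (26 * ((i + 3) % 5) + 25) (26 * (((i + 3) % 5 + 2) % 5) + 25) ∧
      f (26 * i + 25) (26 * ((i + 2) % 5) + 25) ≠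
        f (26 * ((i + 3) % 5) + 25) (26 * (((i + 3) % 5 + 2) % 5) + 25) := by
    intro i hi
    have h := chkRing
    rw [List.all_eq_true] at h
    have h1 := h i (List.mem_range.2 hi)
    simp only [Bool.and_eq_true, beq_iff_eq, bne_iff_ne] at h1
    obtain ⟨⟨⟨⟨⟨⟨⟨⟨⟨⟨⟨⟨⟨⟨a1, a2⟩, a3⟩, a4⟩, a5⟩, a6⟩, a7⟩, a8⟩, a9⟩, a10⟩, a11⟩, a12⟩, a13⟩, a14⟩, a15⟩ := h1
    have hv : 26 * i + 24 < 130 := by omega
    have hu : 26 * i + 25 < 130 := by omega
    have hi3 : ((i + 3) % 5 + 2) % 5 = i := by omega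
    rw [hi3]
    have d1 : f (26 * i + 24) (26 * i + 25) = f (26 * i + 25) (26 * i + 24) := hsym _ _ hv a10
    have d2 : f (26 * ((i + 3) % 5) + 25) (26 * i + 25) =
        f (26 * i + 25) (26 * ((i + 3) % 5) + 25) := (hsym _ _ hu a12).symm
    rw [d1, d2]
    refine ⟨hprop _ _ _ hu a13 a11 (by omega), hprop _ _ _ hu a13 a12 (by omega),
      hprop _ _ _ hu a11 a12 (by omega)⟩
  let hh : ℕ → Fin 3 := fun x => if x < 5 then t x else if x < 10 then
    f (26 * (x - 5) + 24) (26 * (x - 5) + 25) else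
    f (26 * (x - 10) + 25) (26 * ((x - 10 + 2) % 5) + 25)
  have hh1 : ∀ i, i < 5 → hh i = t i := fun i hi => if_pos hi
  have hh2 : ∀ i, i < 5 → hh (5 + i) = f (26 * i + 24) (26 * i + 25) := by
    intro i hi
    show (if 5 + i < 5 then _ else if 5 + i < 10 then _ else _) = _
    rw [if_neg (by omega), if_pos (by omega), Nat.add_sub_cancel_left]
  have hh3 : ∀ i, i < 5 → hh (10 + i) = f (26 * i + 25) (26 * ((i + 2) % 5) + 25) := by
    intro i hi
    show (if 10 + i < 5 then _ else if 10 + i < 10 then _ else _) = _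
    rw [if_neg (by omega), if_neg (by omega), Nat.add_sub_cancel_left]
  apply srch_full np hh 30 15 chkP
  intro v w hv hw hvw
  obtain ⟨i, hi, hcase⟩ := np_adj v hv w hw hvw
  unfold npRel at hcase
  simp only [Bool.or_eq_true, Bool.and_eq_true, beq_iff_eq] at hcase
  have hi1 : (i + 1) % 5 < 5 := Nat.mod_lt _ (by norm_num)
  have hi3 : (i + 3) % 5 < 5 := Nat.mod_lt _ (by norm_num)
  obtain ⟨r1, r2, r3⟩ := hring i hi
  obtain ⟨s1, s2, s3⟩ := hin i hi
  rw [← hh1 i hi, ← hh1 _ hi1] at r1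
  rw [← hh1 i hi, ← hh2 i hi] at r2
  rw [← hh1 _ hi1, ← hh2 i hi] at r3
  rw [← hh2 i hi, ← hh3 i hi] at s1
  rw [← hh2 i hi, ← hh3 _ hi3] at s2
  rw [← hh3 i hi, ← hh3 _ hi3] at s3
  rcases hcase with ((((((((((⟨rfl, rfl⟩ | ⟨rfl, rfl⟩) | ⟨rfl, rfl⟩) | ⟨rfl, rfl⟩) | ⟨rfl, rfl⟩) |
    ⟨rfl, rfl⟩) | ⟨rfl, rfl⟩) | ⟨rfl, rfl⟩) | ⟨rfl, rfl⟩) | ⟨rfl, rfl⟩) | ⟨rfl, rfl⟩) | ⟨rfl, rfl⟩
  · exact r1
  · exact r1.symm
  · exact r2
  · exact r2.symm
  · exact r3
  · exact r3.symm
  · exact s1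
  · exact s1.symm
  · exact s2
  · exact s2.symm
  · exact s3
  · exact s3.symm

end NoCol

end Pool.Agent.Helper201.Hypo
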