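import Mathlib

set_option autoImplicit false

namespace Pool.Agent.Helper201.Hypo

open SimpleGraph

/-- A Hamilton cycle from a list. -/
theorem hamCycle_of_list {α : Type*} [DecidableEq α] [Fintype α] (H : SimpleGraph α) (a b m : α)
    (M : List α)
    (hc : (a :: b :: m :: (M ++ [a])).IsChain H.Adj) (hn : (a :: b :: m :: M).Nodup)
    (hcard : (a :: b :: m :: M).length = Fintype.card α) : H.IsHamiltonian := by
  intro _
  obtain ⟨hab, hc1⟩ := List.isChain_cons_cons.1 hc
  obtain ⟨hbm, hc2⟩ := List.isChain_cons_cons.1 hc1
  have hne : m :: (M ++ [a]) ≠ [] := by simp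
  have hlast : (m :: (M ++ [a])).getLast hne = a := by
    rw [List.getLast_cons (by simp)]
    simp
  let q : H.Walk m a := (SimpleGraph.Walk.ofSupport (m :: (M ++ [a])) hne hc2).copy rfl hlast
  have hq : q.support = m :: (M ++ [a]) :=
    (SimpleGraph.Walk.support_copy _ _ _).trans (SimpleGraph.Walk.support_ofSupport hne hc2)
  have hperm : (a :: b :: m :: M).Perm (b :: m :: (M ++ [a])) := by
    have : ((b :: m :: M) ++ [a]).Perm (a :: b :: m :: M) := List.perm_append_singleton a _
    simpa using this.symm
  have hn' : (b :: m :: (M ++ [a])).Nodup := hperm.nodup_iff.1 hn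
  have hba : b ≠ a := by
    rintro rfl
    simp at hn
  have ham : a ≠ m := by
    rintro rfl
    simp at hn
  have hpath : (SimpleGraph.Walk.cons hbm q).IsPath := by
    rw [SimpleGraph.Walk.isPath_def, SimpleGraph.Walk.support_cons, hq]
    exact hn'
  have hnotin : s(a, b) ∉ (SimpleGraph.Walk.cons hbm q).edges := by
    rw [SimpleGraph.Walk.edges_cons, List.mem_cons, not_or]
    constructor
    · intro h
      rw [Sym2.eq_iff] at h
      rcases h with ⟨h1, -⟩ | ⟨h1, -⟩
      · exact hba h1.symm
      · exact ham h1
    · intro h
      have := SimpleGraph.Walk.snd_mem_support_of_mem_edges q h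
      rw [hq] at this
      exact (List.nodup_cons.1 hn').1 this
  refine ⟨a, SimpleGraph.Walk.cons hab (SimpleGraph.Walk.cons hbm q), ?_⟩
  rw [SimpleGraph.Walk.isHamiltonianCycle_iff_isCycle_and_length_eq]
  refine ⟨(SimpleGraph.Walk.cons_isCycle_iff _ hab).2 ⟨hpath, hnotin⟩, ?_⟩
  rw [← hcard]
  have := congrArg List.length hq
  rw [SimpleGraph.Walk.length_support] at this
  simp only [SimpleGraph.Walk.length_cons, List.length_cons, List.length_append, List.length_nil]
    at this ⊢
  omega

/-- A Hamilton cycle from a cyclic enumeration. -/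
theorem ham_of_fn {α : Type*} [DecidableEq α] [Fintype α] (H : SimpleGraph α) (N : ℕ)
    (q : ℕ → α) (hinj : ∀ i j, i < N + 3 → j < N + 3 → q i = q j → i = j)
    (hadj : ∀ i, i + 1 < N + 3 → H.Adj (q i) (q (i + 1))) (hlast : H.Adj (q (N + 2)) (q 0))
    (hcard : Fintype.card α = N + 3) : H.IsHamiltonian := by
  have hl : (List.range (N + 3)).map q =
      q 0 :: q 1 :: q 2 :: (List.range N).map (fun k => q (k + 3)) := by
    rw [List.range_succ_eq_map, List.range_succ_eq_map, List.range_succ_eq_map]
    simp [Function.comp_def]
  have hnd : ((List.range (N + 3)).map q).Nodup := by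
    rw [List.nodup_map_iff_inj_on List.nodup_range]
    intro x hx y hy hxy
    exact hinj x y (List.mem_range.1 hx) (List.mem_range.1 hy) hxy
  refine hamCycle_of_list H (q 0) (q 1) (q 2) ((List.range N).map (fun k => q (k + 3))) ?_ ?_ ?_
  · have h1 : (q 0 :: q 1 :: q 2 :: ((List.range N).map (fun k => q (k + 3)) ++ [q 0])) =
        ((List.range (N + 3)).map q) ++ [q 0] := by
      rw [hl]
      simp
    rw [h1, List.isChain_iff_getElem]
    intro i hi
    simp only [List.length_append, List.length_map, List.length_range, List.length_cons,
      List.length_nil] at hi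
    by_cases h2 : i + 1 < N + 3
    · rw [List.getElem_append_left (by simpa using (by omega : i < N + 3)),
        List.getElem_append_left (by simpa using h2)]
      simp only [List.getElem_map, List.getElem_range]
      exact hadj i h2
    · have h3 : i = N + 2 := by omega
      subst h3
      rw [List.getElem_append_left (by simp)]
      rw [List.getElem_append_right (by simp)]
      simp only [List.getElem_map, List.getElem_range]
      simpa using hlast
  · rw [← hl]
    exact hnd
  · rw [← hl]
    simp [hcard]

/-- A Hamiltonian cubic graph with an even number of vertices has a proper 3-edge-colouring. -/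
theorem col_of_ham {V : Type} [Fintype V] [DecidableEq V] (G : SimpleGraph V)
    (n : V → Fin 3 → V) (hn : ∀ v w, G.Adj v w ↔ ∃ i, w = n v i) (K : ℕ)
    (hcard : Fintype.card V = 2 * K) (hK : 2 ≤ K) (hH : G.IsHamiltonian) :
    ∃ f : V → V → Fin 3, (∀ v w, G.Adj v w → f v w = f w v) ∧
      (∀ v w x, G.Adj v w → G.Adj v x → w ≠ x → f v w ≠ f v x) := by
  classical
  obtain ⟨a, p, hp⟩ := hH (by omega)
  have hlen : p.length = 2 * K := by rw [hp.length_eq, hcard]
  have hinjOn := hp.isCycle.getVert_injOn'
  let q : Fin (2 * K) → V := fun i => p.getVert i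
  have hq : Function.Injective q := by
    intro i j hij
    have hi := i.2
    have hj := j.2
    apply Fin.ext
    apply hinjOn
    · show (i : ℕ) ≤ p.length - 1
      omega
    · show (j : ℕ) ≤ p.length - 1
      omega
    · exact hij
  have hqb : Function.Bijective q := by
    rw [Fintype.bijective_iff_injective_and_card]
    exact ⟨hq, by rw [Fintype.card_fin, hcard]⟩
  let e : Fin (2 * K) ≃ V := Equiv.ofBijective q hqb
  have he : ∀ i, e i = p.getVert i := fun i => rfl
  have hend : p.getVert (2 * K) = p.getVert 0 := by
    rw [← hlen, SimpleGraph.Walk.getVert_length, SimpleGraph.Walk.getVert_zero]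
  have hadj : ∀ i, i < 2 * K → G.Adj (p.getVert i) (p.getVert (i + 1)) := by
    intro i hi
    exact p.adj_getVert_succ (by omega)
  -- position
  let pos : V → ℕ := fun v => (e.symm v : Fin (2 * K))
  have hpos : ∀ v, pos v < 2 * K := fun v => (e.symm v).2
  have hpv : ∀ v, p.getVert (pos v) = v := by
    intro v
    have := e.apply_symm_apply v
    exact this
  have hposv : ∀ i, i < 2 * K → pos (p.getVert i) = i := by
    intro i hi
    have h1 : e.symm (e ⟨i, hi⟩) = ⟨i, hi⟩ := e.symm_apply_apply _
    have h2 : e ⟨i, hi⟩ = p.getVert i := he _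
    rw [h2] at h1
    exact congrArg Fin.val h1
  let nxt : V → V := fun v => p.getVert (pos v + 1)
  have hposn : ∀ v, pos (nxt v) = if pos v + 1 = 2 * K then 0 else pos v + 1 := by
    intro v
    have h1 := hpos v
    split_ifs with h
    · show pos (p.getVert (pos v + 1)) = 0
      rw [h, hend]
      exact hposv 0 (by omega)
    · exact hposv _ (by omega)
  have hpinj : ∀ v w, pos v = pos w → v = w := by
    intro v w h
    rw [← hpv v, ← hpv w, h]
  have hnadj : ∀ v, G.Adj v (nxt v) := by
    intro v
    have := hadj (pos v) (hpos v)
    rw [hpv v] at this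
    exact this
  have hninj : ∀ v w, nxt v = nxt w → v = w := by
    intro v w h
    apply hpinj
    have h1 := hposn v
    have h2 := hposn w
    rw [h] at h1
    rw [h1] at h2
    have h3 := hpos v
    have h4 := hpos w
    split_ifs at h2 <;> omega
  have hnn : ∀ v w, w = nxt v → v = nxt w → False := by
    intro v w h1 h2
    have h3 := hposn v
    have h4 := hposn w
    rw [← h1] at h3
    rw [← h2] at h4
    have h5 := hpos v
    have h6 := hpos w
    split_ifs at h3 h4 <;> omega
  let prv : V → V := fun v => p.getVert (if pos v = 0 then 2 * K - 1 else pos v - 1)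
  have hprv : ∀ v, nxt (prv v) = v := by
    intro v
    have h5 := hpos v
    apply hpinj
    rw [hposn]
    have h6 : pos (prv v) = if pos v = 0 then 2 * K - 1 else pos v - 1 := by
      apply hposv
      split_ifs <;> omega
    rw [h6]
    split_ifs <;> omega
  let par : ℕ → Fin 3 := fun i => if i % 2 = 0 then 0 else 1
  have hpar2 : ∀ i, par i ≠ 2 := by
    intro i
    show (if i % 2 = 0 then (0 : Fin 3) else 1) ≠ 2
    split_ifs <;> decide
  have hpars : ∀ v, par (pos v) ≠ par (pos (nxt v)) := by
    intro v
    rw [hposn]
    have h5 := hpos v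
    show (if pos v % 2 = 0 then (0 : Fin 3) else 1) ≠ (if (if pos v + 1 = 2 * K then 0 else
      pos v + 1) % 2 = 0 then (0 : Fin 3) else 1)
    split_ifs <;> first | omega | decide
  let f : V → V → Fin 3 := fun v w =>
    if w = nxt v then par (pos v) else if v = nxt w then par (pos w) else 2
  refine ⟨f, ?_, ?_⟩
  · intro v w _
    show (if w = nxt v then par (pos v) else if v = nxt w then par (pos w) else 2) =
      (if v = nxt w then par (pos w) else if w = nxt v then par (pos v) else 2)
    by_cases h1 : w = nxt v
    · have h2 : v ≠ nxt w := fun h2 => hnn v w h1 h2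
      rw [if_pos h1, if_neg h2, if_pos h1]
    · by_cases h2 : v = nxt w
      · rw [if_neg h1, if_pos h2, if_pos h2]
      · rw [if_neg h1, if_neg h2, if_neg h2, if_neg h1]
  · intro v w x hw hx hwx
    show (if w = nxt v then par (pos v) else if v = nxt w then par (pos w) else 2) ≠
      (if x = nxt v then par (pos v) else if v = nxt x then par (pos x) else 2)
    by_cases h1 : w = nxt v
    · have h2 : x ≠ nxt v := fun h => hwx (by rw [h1, h])
      rw [if_pos h1, if_neg h2]
      by_cases h3 : v = nxt x
      · rw [if_pos h3]
        have := hpars x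
        rw [← h3] at this
        exact this.symm
      · rw [if_neg h3]
        exact hpar2 _
    · rw [if_neg h1]
      by_cases h2 : v = nxt w
      · rw [if_pos h2]
        by_cases h3 : x = nxt v
        · rw [if_pos h3]
          have := hpars w
          rw [← h2] at this
          exact this
        · rw [if_neg h3]
          by_cases h4 : v = nxt x
          · exact absurd (hninj w x (by rw [← h2, ← h4])) hwx
          · rw [if_neg h4]
            exact hpar2 _
      · rw [if_neg h2]
        by_cases h3 : x = nxt v
        · rw [if_pos h3]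
          exact (hpar2 _).symm
        · rw [if_neg h3]
          by_cases h4 : v = nxt x
          · rw [if_pos h4]
            exact (hpar2 _).symm
          · -- four neighbours
            exfalso
            have hpa : G.Adj v (prv v) := by
              have := hnadj (prv v)
              rw [hprv] at this
              exact this.symm
            have hpn : prv v ≠ nxt v := by
              intro h
              exact hnn v (prv v) h (hprv v).symm
            have hwp : w ≠ prv v := fun h => h2 (by rw [h, hprv])
            have hxp : x ≠ prv v := fun h => h4 (by rw [h, hprv])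
            obtain ⟨i1, e1⟩ := (hn v w).1 hw
            obtain ⟨i2, e2⟩ := (hn v x).1 hx
            obtain ⟨i3, e3⟩ := (hn v _).1 (hnadj v)
            obtain ⟨i4, e4⟩ := (hn v _).1 hpa
            have key : ∀ i1 i2 i3 i4 : Fin 3, i1 = i2 ∨ i1 = i3 ∨ i1 = i4 ∨ i2 = i3 ∨ i2 = i4 ∨
                i3 = i4 := by decide
            rcases key i1 i2 i3 i4 with h | h | h | h | h | h
            · exact hwx (by rw [e1, e2, h])
            · exact h1 (by rw [e1, e3, h])
            · exact hwp (by rw [e1, e4, h])
            · exact h3 (by rw [e2, e3, h])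
            · exact hxp (by rw [e2, e4, h])
            · exact hpn (by rw [e3, e4, h])

end Pool.Agent.Helper201.Hypo
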