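import Mathlib

set_option autoImplicit false

namespace Pool.Agent.Helper201.Hypo

open SimpleGraph

section Mu

variable {V : Type} (G : SimpleGraph V) (n : V → Fin 3 → V)

theorem pig : ∀ i0 i1 i2 j : Fin 3, j ≠ i0 → j ≠ i1 → j ≠ i2 → (i0 = i1 ∨ i0 = i2 ∨ i1 = i2) := by
  decide

theorem four_false {α : Type*} (U : Set α) (hU : U.ncard = 3) (a b c d : α)
    (ha : a ∈ U) (hb : b ∈ U) (hc : c ∈ U) (hd : d ∈ U)
    (hab : a ≠ b) (hac : a ≠ c) (had : a ≠ d) (hbc : b ≠ c) (hbd : b ≠ d) (hcd : c ≠ d) :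
    False := by
  classical
  have hfin : U.Finite := by
    by_contra h
    have : U.ncard = 0 := Set.Infinite.ncard h
    omega
  have hsub : (({a, b, c, d} : Finset α) : Set α) ⊆ U := by
    intro x hx
    simp only [Finset.coe_insert, Finset.coe_singleton, Set.mem_insert_iff,
      Set.mem_singleton_iff] at hx
    rcases hx with rfl | rfl | rfl | rfl <;> assumption
  have h1 := Set.ncard_le_ncard hsub hfin
  rw [Set.ncard_coe_finset] at h1
  have h2 : ({a, b, c, d} : Finset α).card = 4 := by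
    rw [Finset.card_insert_of_notMem, Finset.card_insert_of_notMem, Finset.card_insert_of_notMem,
      Finset.card_singleton]
    · simpa using hcd
    · simp [hbc, hbd]
    · simp [hab, hac, had]
  omega

theorem mu3 (hn : ∀ v w, G.Adj v w ↔ ∃ i, w = n v i) (hinj : ∀ v, Function.Injective (n v))
    (no4 : ∀ a b c d, G.Adj a b → G.Adj b c → G.Adj c d → G.Adj d a → a ≠ c → b ≠ d → False)
    (no6 : ∀ a b c d e f, G.Adj a b → G.Adj b c → G.Adj c d → G.Adj d e → G.Adj e f →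
      G.Adj f a → a ≠ c → b ≠ d → c ≠ e → d ≠ f → e ≠ a → f ≠ b → False)
    (M : Fin 3 → G.Subgraph) (hM : ∀ k, (M k).IsPerfectMatching)
    (U : Set (Sym2 V)) (hU : ∀ v w, s(v, w) ∈ U ↔ (G.Adj v w ∧ ∀ k, ¬ (M k).Adj v w))
    (hU3 : U.ncard = 3) : False := by
  classical
  -- partner functions
  have hp : ∀ k v, ∃ w, (M k).Adj v w ∧ ∀ w', (M k).Adj v w' → w' = w := by
    intro k v
    have h1 := (hM k).1 ((hM k).2 v)
    obtain ⟨w, hw, hw'⟩ := h1
    exact ⟨w, hw, hw'⟩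
  choose m hm hmu using hp
  have hadj : ∀ k v, G.Adj v (m k v) := fun k v => (hm k v).adj_sub
  have hinv : ∀ k v, m k (m k v) = v := fun k v => (hmu k _ _ (hm k v).symm).symm
  have hi : ∀ k v, ∃ i, m k v = n v i := fun k v => (hn v _).1 (hadj k v)
  choose ι hι using hi
  let Un : V → V → Prop := fun v w => G.Adj v w ∧ ∀ k, m k v ≠ w
  have hUn : ∀ v w, Un v w ↔ s(v, w) ∈ U := by
    intro v w
    rw [hU]
    constructor
    · rintro ⟨h1, h2⟩
      exact ⟨h1, fun k hk => h2 k (hmu k v w hk).symm⟩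
    · rintro ⟨h1, h2⟩
      refine ⟨h1, fun k hk => h2 k ?_⟩
      rw [← hk]
      exact hm k v
  have hUs : ∀ v w, Un v w → Un w v := by
    intro v w h
    rw [hUn] at h ⊢
    rw [Sym2.eq_swap]
    exact h
  let D : V → V → Prop := fun v x => ∃ k l, k ≠ l ∧ m k v = x ∧ m l v = x
  have hDs : ∀ v x, D v x → D x v := by
    rintro v x ⟨k, l, hkl, h1, h2⟩
    refine ⟨k, l, hkl, ?_, ?_⟩
    · rw [← h1]; exact hinv k v
    · rw [← h2]; exact hinv l v
  have hDadj : ∀ v x, D v x → G.Adj v x := by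
    rintro v x ⟨k, l, hkl, h1, h2⟩
    rw [← h1]; exact hadj k v
  have hDu : ∀ v x y, D v x → D v y → x = y := by
    rintro v x y ⟨k, l, hkl, h1, h2⟩ ⟨k', l', hkl', h3, h4⟩
    have : k = k' ∨ k = l' ∨ l = k' ∨ l = l' := by
      revert hkl hkl'
      clear h1 h2 h3 h4
      revert k l k' l'
      decide
    rcases this with h | h | h | h
    · subst h; rw [← h1, ← h3]
    · subst h; rw [← h1, ← h4]
    · subst h; rw [← h2, ← h3]
    · subst h; rw [← h2, ← h4]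
  have hUD : ∀ v w x, Un v w → D v x → w ≠ x := by
    rintro v w x ⟨_, h⟩ ⟨k, _, _, h1, _⟩ rfl
    exact h k h1
  -- Fact A
  have factA : ∀ v w, Un v w → ∃ x, D v x := by
    rintro v w ⟨h1, h2⟩
    obtain ⟨j, hj⟩ := (hn v w).1 h1
    have h3 : ∀ k, j ≠ ι k v := by
      intro k hk
      apply h2 k
      rw [hι k v, hj, hk]
    rcases pig (ι 0 v) (ι 1 v) (ι 2 v) j (h3 0) (h3 1) (h3 2) with h | h | h
    · exact ⟨m 0 v, 0, 1, by decide, rfl, by rw [hι 1 v, hι 0 v, h]⟩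
    · exact ⟨m 0 v, 0, 2, by decide, rfl, by rw [hι 2 v, hι 0 v, h]⟩
    · exact ⟨m 1 v, 1, 2, by decide, rfl, by rw [hι 2 v, hι 1 v, h]⟩
  -- Fact B
  have miss : ∀ i0 i1 i2 : Fin 3, (i0 = i1 ∨ i0 = i2 ∨ i1 = i2) →
      ∃ j, j ≠ i0 ∧ j ≠ i1 ∧ j ≠ i2 := by decide
  have factB : ∀ v x, D v x → ∃ w, Un v w := by
    rintro v x ⟨k, l, hkl, h1, h2⟩
    have h3 : ι k v = ι l v := by
      apply hinj v
      rw [← hι k v, ← hι l v, h1, h2]
    have h4 : ι 0 v = ι 1 v ∨ ι 0 v = ι 2 v ∨ ι 1 v = ι 2 v := by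
      have key : ∀ k l : Fin 3, k ≠ l → ∀ g : Fin 3 → Fin 3, g k = g l →
          g 0 = g 1 ∨ g 0 = g 2 ∨ g 1 = g 2 := by decide
      exact key k l hkl (fun t => ι t v) h3
    obtain ⟨j, hj0, hj1, hj2⟩ := miss _ _ _ h4
    refine ⟨n v j, (hn v _).2 ⟨j, rfl⟩, ?_⟩
    intro t ht
    rw [hι t v] at ht
    have h5 := hinj v ht
    fin_cases t
    · exact hj0 h5.symm
    · exact hj1 h5.symm
    · exact hj2 h5.symm
  -- Lemma C: the uncovered neighbour is unique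
  have factC : ∀ v a b, Un v a → Un v b → a = b := by
    intro v a b ha hb
    by_contra hab
    obtain ⟨ja, hja⟩ := (hn v a).1 ha.1
    obtain ⟨jb, hjb⟩ := (hn v b).1 hb.1
    have hjab : ja ≠ jb := fun h => hab (by rw [hja, hjb, h])
    have hka : ∀ k, ι k v ≠ ja := fun k hk => ha.2 k (by rw [hι k v, hk, hja])
    have hkb : ∀ k, ι k v ≠ jb := fun k hk => hb.2 k (by rw [hι k v, hk, hjb])
    have key : ∀ ja jb i i' : Fin 3, ja ≠ jb → i ≠ ja → i ≠ jb → i' ≠ ja → i' ≠ jb → i = i' := by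
      decide
    have hall : ∀ k, m k v = m 0 v := by
      intro k
      rw [hι k v, hι 0 v, key ja jb (ι k v) (ι 0 v) hjab (hka k) (hkb k) (hka 0) (hkb 0)]
    set x := m 0 v with hx
    have hxv : ∀ k, m k x = v := by
      intro k
      rw [← hall k]
      exact hinv k v
    obtain ⟨jv, hjv⟩ := (hn x v).1 (hadj 0 v).symm
    have key2 : ∀ jv : Fin 3, ∃ c d, c ≠ d ∧ c ≠ jv ∧ d ≠ jv := by decide
    obtain ⟨c, d, hcd, hc, hd⟩ := key2 jv
    have hUc : ∀ c, c ≠ jv → Un x (n x c) := by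
      intro c hc
      refine ⟨(hn x _).2 ⟨c, rfl⟩, ?_⟩
      intro k hk
      rw [hxv k, hjv] at hk
      exact hc (hinj x hk).symm
    have hvx : v ≠ x := (hadj 0 v).ne
    have hax : a ≠ x := fun h => ha.2 0 h.symm
    have hbx : b ≠ x := fun h => hb.2 0 h.symm
    have hcv : ∀ c, c ≠ jv → n x c ≠ v := by
      intro c hc h
      have : n x c = n x jv := h.trans hjv
      exact hc (hinj x this)
    have ne1 : ∀ a c, a ≠ x → c ≠ jv → s(v, a) ≠ s(x, n x c) := by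
      intro a c ha' hc' h
      rw [Sym2.eq_iff] at h
      rcases h with ⟨h1, _⟩ | ⟨h1, _⟩
      · exact hvx h1
      · exact hcv c hc' h1.symm
    refine four_false U hU3 s(v, a) s(v, b) s(x, n x c) s(x, n x d) ((hUn _ _).1 ha)
      ((hUn _ _).1 hb) ((hUn _ _).1 (hUc c hc)) ((hUn _ _).1 (hUc d hd)) ?_
      (ne1 a c hax hc) (ne1 a d hax hd) (ne1 b c hbx hc) (ne1 b d hbx hd) ?_
    · intro h
      rw [Sym2.eq_iff] at h
      rcases h with ⟨_, h1⟩ | ⟨h1, _⟩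
      · exact hab h1
      · exact hb.1.ne h1
    · intro h
      rw [Sym2.eq_iff] at h
      rcases h with ⟨_, h1⟩ | ⟨h1, _⟩
      · exact hcd (hinj x h1)
      · exact ((hn x _).2 ⟨d, rfl⟩ : G.Adj x (n x d)).ne h1
  -- start
  have hne : U.Nonempty := by
    rw [Set.nonempty_iff_ne_empty]
    rintro rfl
    simp at hU3
  obtain ⟨e, he⟩ := hne
  induction e using Sym2.ind with
  | _ v0 v1 =>
  have u01 : Un v0 v1 := (hUn _ _).2 he
  obtain ⟨v2, d12⟩ := factA v1 v0 (hUs _ _ u01)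
  obtain ⟨v3, u23⟩ := factB v2 v1 (hDs _ _ d12)
  obtain ⟨v4, d34⟩ := factA v3 v2 (hUs _ _ u23)
  obtain ⟨v5, u45⟩ := factB v4 v3 (hDs _ _ d34)
  obtain ⟨v6, d56⟩ := factA v5 v4 (hUs _ _ u45)
  obtain ⟨v7, u67⟩ := factB v6 v5 (hDs _ _ d56)
  have h20 : v2 ≠ v0 := (hUD _ _ _ (hUs _ _ u01) d12).symm
  have h31 : v3 ≠ v1 := hUD _ _ _ u23 (hDs _ _ d12)
  have h42 : v4 ≠ v2 := (hUD _ _ _ (hUs _ _ u23) d34).symm
  have h53 : v5 ≠ v3 := hUD _ _ _ u45 (hDs _ _ d34)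
  have h64 : v6 ≠ v4 := (hUD _ _ _ (hUs _ _ u45) d56).symm
  have a01 : G.Adj v0 v1 := u01.1
  have a12 : G.Adj v1 v2 := hDadj _ _ d12
  have a23 : G.Adj v2 v3 := u23.1
  have a34 : G.Adj v3 v4 := hDadj _ _ d34
  have a45 : G.Adj v4 v5 := u45.1
  have a56 : G.Adj v5 v6 := hDadj _ _ d56
  have a67 : G.Adj v6 v7 := u67.1
  have h40 : v4 ≠ v0 := by
    rintro rfl
    exact no4 _ _ _ _ a01 a12 a23 a34 h20.symm h31.symm
  have h41 : v4 ≠ v1 := by
    rintro rfl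
    exact a23.ne (hDu _ _ _ d12 (hDs _ _ d34))
  have h51 : v5 ≠ v1 := by
    rintro rfl
    exact h40 (factC _ _ _ (hUs _ _ u45) (hUs _ _ u01))
  by_cases h60 : v6 = v0
  · subst h60
    exact no6 _ _ _ _ _ _ a01 a12 a23 a34 a45 a56 h20.symm h31.symm h42.symm h53.symm h40 h51
  · have h61 : v6 ≠ v1 := by
      rintro rfl
      have h52 : v5 = v2 := hDu _ _ _ (hDs _ _ d56) d12
      subst h52
      exact a34.ne (factC _ _ _ u23 (hUs _ _ u45))
    have h62 : v6 ≠ v2 := by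
      rintro rfl
      exact h51 (hDu _ _ _ (hDs _ _ d56) (hDs _ _ d12))
    have h63 : v6 ≠ v3 := by
      rintro rfl
      exact a45.ne (hDu _ _ _ d34 (hDs _ _ d56))
    have h65 : v6 ≠ v5 := a56.ne.symm
    have ne_of : ∀ a b c d : V, c ≠ a → c ≠ b → s(a, b) ≠ s(c, d) := by
      intro a b c d h1 h2 h
      rw [Sym2.eq_iff] at h
      rcases h with ⟨h3, _⟩ | ⟨_, h3⟩
      · exact h1 h3.symm
      · exact h2 h3.symm
    exact four_false U hU3 s(v0, v1) s(v2, v3) s(v4, v5) s(v6, v7) ((hUn _ _).1 u01)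
      ((hUn _ _).1 u23) ((hUn _ _).1 u45) ((hUn _ _).1 u67)
      (ne_of _ _ _ _ h20 a12.ne.symm) (ne_of _ _ _ _ h40 h41) (ne_of _ _ _ _ h60 h61)
      (ne_of _ _ _ _ h42 a34.ne.symm) (ne_of _ _ _ _ h62 h63) (ne_of _ _ _ _ h64 h65)

end Mu

end Pool.Agent.Helper201.Hypo
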