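import Mathlib
import Pool.Agent.Helper201.HypoData
import Pool.Agent.Helper201.HypoMu
import Pool.Agent.Helper201.HypoHam
import Pool.Agent.Helper201.HypoCol

set_option autoImplicit false

namespace Pool.Agent.Helper201.Hypo

open SimpleGraph

/-- The graph: a cubic graph on 130 vertices. -/
def G130 : SimpleGraph (Fin 130) where
  Adj x y := adjB x y = true
  symm := ⟨by
    intro x y h
    exact (adjB_facts x y x.2 h).2.2⟩
  loopless := ⟨by
    intro x h
    exact (adjB_facts x x x.2 h).2.1 rfl⟩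

instance : DecidableRel G130.Adj := fun x y => inferInstanceAs (Decidable (adjB x y = true))

theorem G130_adj (x y : Fin 130) : G130.Adj x y ↔ adjB x y = true := Iff.rfl

/-- neighbour function -/
def nn (v : Fin 130) (i : Fin 3) : Fin 130 := ⟨nb v i, (nb_facts v v.2 i i.2).1⟩

theorem G130_nn (v w : Fin 130) : G130.Adj v w ↔ ∃ i, w = nn v i := by
  rw [G130_adj, adjB_iff]
  constructor
  · rintro ⟨i, hi, h⟩
    exact ⟨⟨i, hi⟩, Fin.ext h.symm⟩
  · rintro ⟨i, h⟩
    exact ⟨i, i.2, (congrArg Fin.val h).symm⟩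

theorem nn_inj (v : Fin 130) : Function.Injective (nn v) := by
  obtain ⟨h1, h2, h3⟩ := nb_ne v v.2
  intro i j hij
  have h : nb v i = nb v j := congrArg Fin.val hij
  fin_cases i <;> fin_cases j
  · rfl
  · exact absurd h h1
  · exact absurd h h2
  · exact absurd h.symm h1
  · rfl
  · exact absurd h h3
  · exact absurd h.symm h2
  · exact absurd h.symm h3
  · rfl

theorem no4 (a b c d : Fin 130) (hab : G130.Adj a b) (hbc : G130.Adj b c) (hcd : G130.Adj c d)
    (hda : G130.Adj d a) (hac : a ≠ c) (hbd : b ≠ d) : False := by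
  rw [G130_nn] at hab hbc hcd
  obtain ⟨i, rfl⟩ := hab
  obtain ⟨j, rfl⟩ := hbc
  obtain ⟨k, rfl⟩ := hcd
  rw [G130_adj] at hda
  have h := chk4
  rw [List.all_eq_true] at h
  have h1 := h a (List.mem_range.2 a.2)
  rw [List.all_eq_true] at h1
  have h2 := h1 i (List.mem_range.2 i.2)
  rw [List.all_eq_true] at h2
  have h3 := h2 j (List.mem_range.2 j.2)
  rw [List.all_eq_true] at h3
  have h4 := h3 k (List.mem_range.2 k.2)
  simp only [Bool.or_eq_true, beq_iff_eq, Bool.not_eq_true'] at h4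
  rcases h4 with (h4 | h4) | h4
  · exact hac (Fin.ext h4).symm
  · exact hbd (Fin.ext h4).symm
  · have h5 : adjB (nb (nb (nb a i) j) k) a = true := hda
    rw [h5] at h4
    cases h4

theorem no6 (a b c d e f : Fin 130) (h1 : G130.Adj a b) (h2 : G130.Adj b c) (h3 : G130.Adj c d)
    (h4 : G130.Adj d e) (h5 : G130.Adj e f) (h6 : G130.Adj f a)
    (hac : a ≠ c) (hbd : b ≠ d) (hce : c ≠ e) (hdf : d ≠ f) (hea : e ≠ a) (hfb : f ≠ b) :
    False := by
  rw [G130_nn] at h1 h2 h3 h4 h5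
  obtain ⟨i1, rfl⟩ := h1
  obtain ⟨i2, rfl⟩ := h2
  obtain ⟨i3, rfl⟩ := h3
  obtain ⟨i4, rfl⟩ := h4
  obtain ⟨i5, rfl⟩ := h5
  rw [G130_adj] at h6
  have h := chk6
  rw [List.all_eq_true] at h
  have g1 := h a (List.mem_range.2 a.2)
  rw [List.all_eq_true] at g1
  have g2 := g1 i1 (List.mem_range.2 i1.2)
  rw [List.all_eq_true] at g2
  have g3 := g2 i2 (List.mem_range.2 i2.2)
  rw [List.all_eq_true] at g3
  have g4 := g3 i3 (List.mem_range.2 i3.2)
  rw [List.all_eq_true] at g4
  have g5 := g4 i4 (List.mem_range.2 i4.2)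
  rw [List.all_eq_true] at g5
  have g6 := g5 i5 (List.mem_range.2 i5.2)
  unfold t6 at g6
  simp only [Bool.or_eq_true, beq_iff_eq, Bool.not_eq_true'] at g6
  rcases g6 with (((((g | g) | g) | g) | g) | g) | g
  · exact hac (Fin.ext g).symm
  · exact hbd (Fin.ext g).symm
  · exact hce (Fin.ext g).symm
  · exact hdf (Fin.ext g).symm
  · exact hea (Fin.ext g)
  · exact hfb (Fin.ext g)
  · have h7 : adjB (nb (nb (nb (nb (nb a i1) i2) i3) i4) i5) a = true := h6
    rw [h7] at g
    cases g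

/-- no proper edge colouring with three colours, on `Fin 130` -/
theorem noColFin (g : Fin 130 → Fin 130 → Fin 3)
    (h1 : ∀ v w, G130.Adj v w → g v w = g w v)
    (h2 : ∀ v w x, G130.Adj v w → G130.Adj v x → w ≠ x → g v w ≠ g v x) : False := by
  classical
  let f : ℕ → ℕ → Fin 3 := fun x y => if h : x < 130 ∧ y < 130 then g ⟨x, h.1⟩ ⟨y, h.2⟩ else 0
  have hf : ∀ x y (hx : x < 130) (hy : y < 130), f x y = g ⟨x, hx⟩ ⟨y, hy⟩ := by
    intro x y hx hy
    exact dif_pos ⟨hx, hy⟩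
  apply noCol f
  · intro x y hx hxy
    have hy := (adjB_facts x y hx hxy).1
    rw [hf x y hx hy, hf y x hy hx]
    exact h1 _ _ hxy
  · intro x y z hx hxy hxz hyz
    have hy := (adjB_facts x y hx hxy).1
    have hz := (adjB_facts x z hx hxz).1
    rw [hf x y hx hy, hf x z hx hz]
    exact h2 _ _ _ hxy hxz (fun h => hyz (congrArg Fin.val h))

theorem G130_class2 : ¬ G130.lineGraph.Colorable 3 := by
  rintro ⟨C⟩
  classical
  let g : Fin 130 → Fin 130 → Fin 3 := fun x y =>
    if h : G130.Adj x y then C ⟨s(x, y), h⟩ else 0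
  have hg : ∀ x y (h : G130.Adj x y), g x y = C ⟨s(x, y), h⟩ := fun x y h => dif_pos h
  apply noColFin g
  · intro v w h
    rw [hg v w h, hg w v h.symm]
    congr 1
    exact Subtype.ext Sym2.eq_swap
  · intro v w x hw hx hwx
    rw [hg v w hw, hg v x hx]
    apply C.valid
    rw [lineGraph_adj_iff_exists]
    refine ⟨?_, v, by simp, by simp⟩
    intro h
    have h3 : s(v, w) = s(v, x) := congrArg Subtype.val h
    rw [Sym2.eq_iff] at h3
    rcases h3 with ⟨_, h3⟩ | ⟨h3, _⟩
    · exact hwx h3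
    · exact hx.ne h3

theorem G130_notHam : ¬ G130.IsHamiltonian := by
  intro h
  obtain ⟨f, h1, h2⟩ := col_of_ham G130 nn G130_nn 65 (by simp) (by norm_num) h
  exact noColFin f h1 h2

/-- vertices of the Hamilton cycle of the graph minus `v` -/
def cyc (v j : ℕ) : ℕ := ((CYL.getD v 0) >>> (8 * j)) % 256

theorem cyc_facts (v j : ℕ) (hv : v < 130) (hj : j < 129) :
    cyc v j < 130 ∧ cyc v j ≠ v ∧ ((POL.getD v 0) >>> (8 * cyc v j)) % 256 = j ∧
    adjB (cyc v j) (cyc v ((j + 1) % 129)) = true := by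
  have h := chkH
  rw [List.all_eq_true] at h
  have h1 := h v (List.mem_range.2 hv)
  unfold chkC at h1
  rw [List.all_eq_true] at h1
  have h2 := h1 j (List.mem_range.2 hj)
  simp only [Bool.and_eq_true, decide_eq_true_eq, bne_iff_ne, beq_iff_eq] at h2
  exact ⟨h2.1.1.1, h2.1.1.2, h2.1.2, h2.2⟩

theorem G130_del (v : Fin 130) [Fintype ↥{w : Fin 130 | w ≠ v}]
    [DecidableEq ↥{w : Fin 130 | w ≠ v}] : (G130.induce {w | w ≠ v}).IsHamiltonian := by
  have hlt : ∀ j, j % 129 < 129 := fun j => Nat.mod_lt _ (by norm_num)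
  let q : ℕ → ↥{w : Fin 130 | w ≠ v} := fun j =>
    ⟨⟨cyc v (j % 129), (cyc_facts v (j % 129) v.2 (hlt j)).1⟩, by
      intro h
      exact (cyc_facts v (j % 129) v.2 (hlt j)).2.1 (congrArg Fin.val h)⟩
  have hadj : ∀ j, (G130.induce {w | w ≠ v}).Adj (q j) (q (j + 1)) := by
    intro j
    rw [SimpleGraph.induce_adj]
    show adjB (cyc v (j % 129)) (cyc v ((j + 1) % 129)) = true
    have h1 := (cyc_facts v (j % 129) v.2 (hlt j)).2.2.2
    have h2 : (j % 129 + 1) % 129 = (j + 1) % 129 := by omega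
    rw [h2] at h1
    exact h1
  apply ham_of_fn (G130.induce {w | w ≠ v}) 126 q
  · intro i j hi hj hij
    have h1 : cyc v (i % 129) = cyc v (j % 129) := by
      have := congrArg (fun x : ↥{w : Fin 130 | w ≠ v} => ((x : Fin 130) : ℕ)) hij
      exact this
    have h2 := (cyc_facts v (i % 129) v.2 (hlt i)).2.2.1
    have h3 := (cyc_facts v (j % 129) v.2 (hlt j)).2.2.1
    rw [h1] at h2
    rw [h2] at h3
    omega
  · intro i _
    exact hadj i
  · have h1 := hadj 128
    have h2 : q (128 + 1) = q 0 := rfl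
    rw [h2] at h1
    exact h1
  · rw [Set.card_ne_eq, Fintype.card_fin]

theorem G130_reg [inst : ∀ v, Fintype (G130.neighborSet v)] : G130.IsRegularOfDegree 3 := by
  intro v
  have h : G130.neighborFinset v = Finset.univ.image (nn v) := by
    ext w
    rw [mem_neighborFinset, G130_nn, Finset.mem_image]
    constructor
    · rintro ⟨i, hi⟩
      exact ⟨i, Finset.mem_univ _, hi.symm⟩
    · rintro ⟨i, _, hi⟩
      exact ⟨i, hi.symm⟩
  rw [← card_neighborFinset_eq_degree, h, Finset.card_image_of_injective _ (nn_inj v)]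
  rfl

theorem G130_mu (M₁ M₂ M₃ : G130.Subgraph) (h₁ : M₁.IsPerfectMatching) (h₂ : M₂.IsPerfectMatching)
    (h₃ : M₃.IsPerfectMatching) :
    (G130.edgeSet \ (M₁.edgeSet ∪ M₂.edgeSet ∪ M₃.edgeSet)).ncard ≠ 3 := by
  intro h
  let M : Fin 3 → G130.Subgraph := fun k => if k = 0 then M₁ else if k = 1 then M₂ else M₃
  have e0 : M 0 = M₁ := rfl
  have e1 : M 1 = M₂ := rfl
  have e2 : M 2 = M₃ := rfl
  have hM : ∀ k, (M k).IsPerfectMatching := by
    intro k
    fin_cases k
    · exact h₁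
    · exact h₂
    · exact h₃
  refine mu3 G130 nn G130_nn nn_inj no4 no6 M hM _ ?_ h
  intro v w
  rw [Set.mem_sdiff, mem_edgeSet, Set.mem_union, Set.mem_union, Subgraph.mem_edgeSet,
    Subgraph.mem_edgeSet, Subgraph.mem_edgeSet]
  constructor
  · rintro ⟨h4, h5⟩
    refine ⟨h4, fun k hk => h5 ?_⟩
    fin_cases k
    · exact Or.inl (Or.inl hk)
    · exact Or.inl (Or.inr hk)
    · exact Or.inr hk
  · rintro ⟨h4, h5⟩
    refine ⟨h4, ?_⟩
    rintro ((h6 | h6) | h6)
    · exact h5 0 h6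
    · exact h5 1 h6
    · exact h5 2 h6

end Pool.Agent.Helper201.Hypo
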