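import Mathlib
import Pool.Agent.Helper201.Crit
import Pool.Agent.Helper201.FiveCrit

set_option autoImplicit false

namespace Pool.Agent.Helper201.NineCrit

open SimpleGraph Pool.Agent.Helper201.Crit Pool.Agent.Helper201.FiveCrit

/-- Vertices. -/
inductive NV (t : ℕ) : Type
  | p (d : Fin 8) : NV t
  | s (l : Fin 4) : NV t
  | v (l : Fin 4) : NV t
  | w (l : Fin 4) (e : Bool) (a : Fin (4 * t + 3)) : NV t
  | x (l : Fin 4) (a b : Fin (4 * t + 3)) : NV t
  | y (l : Fin 4) (e : Bool) (a : Fin (4 * t + 3)) : NV t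
  | z (l : Fin 4) (e : Bool) (a : Fin (4 * t + 3)) : NV t

variable {t : ℕ}

/-- The class of a vertex (4 means that it is in none of the four big classes). -/
def cls : NV t → ℕ
  | NV.x l _ _ => l
  | NV.y l _ _ => l
  | NV.z l _ _ => l
  | _ => 4

/-- adjacency (before symmetrisation) -/
inductive Rel : NV t → NV t → Prop
  | pp (d d' : Fin 8) : d ≠ d' → Rel (NV.p d) (NV.p d')
  | sp (l : Fin 4) (d : Fin 8) : (d : ℕ) ≠ 0 → (d : ℕ) ≠ l + 1 → Rel (NV.s l) (NV.p d)
  | vp (l : Fin 4) (d : Fin 8) : ((d : ℕ) = 0 ∨ (d : ℕ) = l + 1 ∨ 5 ≤ (d : ℕ)) →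
      Rel (NV.v l) (NV.p d)
  | vs (l l' : Fin 4) : l ≠ l' → Rel (NV.v l) (NV.s l')
  | sw (l : Fin 4) (e : Bool) (a : Fin (4 * t + 3)) : Rel (NV.w l e a) (NV.s l)
  | wp (l : Fin 4) (e : Bool) (a : Fin (4 * t + 3)) : Rel (NV.w l e a) (NV.p 7)
  | wc (l : Fin 4) (e : Bool) (a : Fin (4 * t + 3)) : Rel (NV.w l e a) (NV.w l e (a + 1))
  | ww (l : Fin 4) (a b : Fin (4 * t + 3)) : Rel (NV.w l false a) (NV.w l true b)
  | x1 (l : Fin 4) (a b : Fin (4 * t + 3)) : Rel (NV.x l a b) (NV.w l false a)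
  | x2 (l : Fin 4) (a b : Fin (4 * t + 3)) : Rel (NV.x l a b) (NV.w l true b)
  | y1 (l : Fin 4) (e : Bool) (a : Fin (4 * t + 3)) : Rel (NV.y l e a) (NV.w l e a)
  | y2 (l : Fin 4) (e : Bool) (a : Fin (4 * t + 3)) : Rel (NV.y l e a) (NV.w l e (a + 1))
  | z1 (l : Fin 4) (e : Bool) (a : Fin (4 * t + 3)) : Rel (NV.z l e a) (NV.w l e a)
  | z2 (l : Fin 4) (e : Bool) (a : Fin (4 * t + 3)) : Rel (NV.z l e a) (NV.p 0)
  | up (u : NV t) : cls u < 4 → Rel u (NV.p 7)
  | uu (u u' : NV t) : cls u < 4 → cls u' < 4 → cls u ≠ cls u' → Rel u u'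

/-- the graph -/
def Gam (t : ℕ) : SimpleGraph (NV t) := SimpleGraph.fromRel Rel

/-- no alternating pattern on an odd cycle -/
theorem odd_alt (Q : Fin (4 * t + 3) → Prop) : ∃ k, (Q k ↔ Q (k + 1)) := by
  classical
  by_contra hcon
  push Not at hcon
  refine odd_cycle (fun k => if Q k then 0 else 1) ?_ ?_ 2 3 (by norm_num) (by norm_num)
    (by norm_num) ?_ ?_
  · intro k
    show (if Q k then 0 else 1) < 4
    split_ifs <;> norm_num
  · intro k
    have := hcon k
    show (if Q k then 0 else 1) ≠ (if Q (k + 1) then 0 else 1)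
    by_cases h1 : Q k <;> by_cases h2 : Q (k + 1) <;> simp [h1, h2] at this ⊢
  · intro k
    show (if Q k then 0 else 1) ≠ 2
    split_ifs <;> norm_num
  · intro k
    show (if Q k then 0 else 1) ≠ 3
    split_ifs <;> norm_num

theorem exists_pair {S : Finset (Fin 8)} (h : S.card ≤ 2) :
    ∃ β γ : Fin 8, β ≠ γ ∧ ∀ c ∈ S, c = β ∨ c = γ := by
  obtain ⟨T, hT1, hT2⟩ := Finset.exists_superset_card_eq (s := S) (n := 2) h
    (by simp)
  obtain ⟨β, γ, hne, rfl⟩ := Finset.card_eq_two.1 hT2
  refine ⟨β, γ, hne, ?_⟩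
  intro c hc
  have := hT1 hc
  simpa using this

/-- an odd cycle uses three colours -/
theorem three_le (f : Fin (4 * t + 3) → Fin 8) (hf : ∀ k, f k ≠ f (k + 1)) :
    3 ≤ (Finset.univ.image f).card := by
  by_contra hlt
  obtain ⟨β, γ, -, hS⟩ := exists_pair (S := Finset.univ.image f) (by omega)
  have hS' : ∀ k, f k = β ∨ f k = γ := fun k => hS _ (by simp)
  obtain ⟨k, hk⟩ := odd_alt (fun k => f k = β)
  have h1 := hf k
  rcases hS' k with h | h
  · have h' := hk.1 h
    exact h1 (h.trans h'.symm)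
  · rcases hS' (k + 1) with h' | h'
    · have := hk.2 h'
      exact h1 (this.trans h'.symm)
    · exact h1 (h.trans h'.symm)

/-- the main step: a class whose selector has colour zero needs three colours -/
theorem class_three (C : NV t → Fin 8) (hC : ∀ a b, Rel a b → a ≠ b → C a ≠ C b)
    (hp : ∀ d, C (NV.p d) = d) (l : Fin 4) (hs : C (NV.s l) = 0) (β γ : Fin 8) (hne : β ≠ γ)
    (hX : ∀ u : NV t, cls u = l → C u = β ∨ C u = γ) : False := by
  have hk1 : ∀ k : Fin (4 * t + 3), k ≠ k + 1 := by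
    intro k h
    have h3 : (k + 1).val = if k = Fin.last (4 * t + 2) then 0 else k.val + 1 :=
      Fin.val_add_one (n := 4 * t + 2) k
    have h4 : k.val = (k + 1).val := congrArg Fin.val h
    rw [h3] at h4
    split_ifs at h4 with h5
    · rw [h5] at h4; simp at h4
    · omega
  have hwc : ∀ e k, C (NV.w l e k) ≠ C (NV.w l e (k + 1)) := by
    intro e k
    exact hC _ _ (Rel.wc l e k) (by intro h; injection h with _ _ h2; exact hk1 k h2)
  have hw0 : ∀ e k, C (NV.w l e k) ≠ 0 := by
    intro e k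
    rw [← hs]
    exact hC _ _ (Rel.sw l e k) (by intro h; cases h)
  have hw7 : ∀ e k, C (NV.w l e k) ≠ 7 := by
    intro e k
    have := hC _ _ (Rel.wp l e k) (by intro h; cases h)
    rwa [hp] at this
  have hww : ∀ a b, C (NV.w l false a) ≠ C (NV.w l true b) := by
    intro a b
    exact hC _ _ (Rel.ww l a b) (by intro h; injection h with _ h2; cases h2)
  let A : Bool → Finset (Fin 8) := fun e => Finset.univ.image (fun k => C (NV.w l e k))
  have hA3 : ∀ e, 3 ≤ (A e).card := fun e => three_le _ (hwc e)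
  have hmem : ∀ e c, c ∈ A e ↔ ∃ k, C (NV.w l e k) = c := by
    intro e c
    simp [A]
  have hdisj : Disjoint (A false) (A true) := by
    rw [Finset.disjoint_left]
    intro c h1 h2
    obtain ⟨a, ha⟩ := (hmem _ _).1 h1
    obtain ⟨b, hb⟩ := (hmem _ _).1 h2
    exact hww a b (ha.trans hb.symm)
  have hsub : A false ∪ A true ⊆ ((Finset.univ.erase 0).erase 7) := by
    intro c hc
    rw [Finset.mem_union] at hc
    simp only [Finset.mem_erase, Finset.mem_univ, and_true]
    rcases hc with h | h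
    · obtain ⟨a, ha⟩ := (hmem _ _).1 h
      rw [← ha]
      exact ⟨hw7 _ _, hw0 _ _⟩
    · obtain ⟨a, ha⟩ := (hmem _ _).1 h
      rw [← ha]
      exact ⟨hw7 _ _, hw0 _ _⟩
  have h6 : ((Finset.univ.erase (0 : Fin 8)).erase 7).card = 6 := by decide
  have hcardU := Finset.card_union_of_disjoint hdisj
  have hle := Finset.card_le_card hsub
  rw [h6, hcardU] at hle
  have hAe : ∀ e, (A e).card = 3 := by
    have h1 := hA3 false
    have h2 := hA3 true
    intro e
    cases e <;> omega
  have hall : A false ∪ A true = ((Finset.univ.erase 0).erase 7) := by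
    apply Finset.eq_of_subset_of_card_le hsub
    rw [h6, hcardU, hAe, hAe]
  have hin : ∀ c : Fin 8, c ≠ 0 → c ≠ 7 → ∃ e k, C (NV.w l e k) = c := by
    intro c h0 h7
    have : c ∈ A false ∪ A true := by
      rw [hall]
      simp [h0, h7]
    rw [Finset.mem_union] at this
    rcases this with h | h
    · obtain ⟨k, hk⟩ := (hmem _ _).1 h
      exact ⟨_, k, hk⟩
    · obtain ⟨k, hk⟩ := (hmem _ _).1 h
      exact ⟨_, k, hk⟩
  -- the z vertices
  have hz : ∀ e k, C (NV.z l e k) = β ∨ C (NV.z l e k) = γ := fun e k => hX _ rfl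
  have hz0 : ∀ e k, C (NV.z l e k) ≠ 0 := by
    intro e k
    have := hC _ _ (Rel.z2 l e k) (by intro h; cases h)
    rwa [hp] at this
  have hz7 : ∀ e k, C (NV.z l e k) ≠ 7 := by
    intro e k
    have := hC _ _ (Rel.up (NV.z l e k) (by simp [cls])) (by intro h; cases h)
    rwa [hp] at this
  have hzw : ∀ e k, C (NV.z l e k) ≠ C (NV.w l e k) := by
    intro e k
    exact hC _ _ (Rel.z1 l e k) (by intro h; cases h)
  have zcase : ∀ β γ : Fin 8, (β = 0 ∨ β = 7) →
      (∀ e k, C (NV.z l e k) = β ∨ C (NV.z l e k) = γ) → False := by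
    intro β γ hβ hz
    have hzγ : ∀ e k, C (NV.z l e k) = γ := by
      intro e k
      rcases hz e k with h | h
      · exfalso
        rcases hβ with hβ | hβ
        · exact hz0 e k (h.trans hβ)
        · exact hz7 e k (h.trans hβ)
      · exact h
    have g0 : γ ≠ 0 := by
      intro h
      exact hz0 false 0 ((hzγ false 0).trans h)
    have g7 : γ ≠ 7 := by
      intro h
      exact hz7 false 0 ((hzγ false 0).trans h)
    obtain ⟨e, k, hk⟩ := hin γ g0 g7
    exact hzw e k ((hzγ e k).trans hk.symm)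
  by_cases hβ : β = 0 ∨ β = 7
  · exact zcase β γ hβ hz
  by_cases hγ : γ = 0 ∨ γ = 7
  · exact zcase γ β hγ (fun e k => (hz e k).symm)
  push Not at hβ hγ
  have hx : ∀ a b, C (NV.x l a b) = β ∨ C (NV.x l a b) = γ := fun a b => hX _ rfl
  have hx1 : ∀ a b, C (NV.x l a b) ≠ C (NV.w l false a) := by
    intro a b
    exact hC _ _ (Rel.x1 l a b) (by intro h; cases h)
  have hx2 : ∀ a b, C (NV.x l a b) ≠ C (NV.w l true b) := by
    intro a b
    exact hC _ _ (Rel.x2 l a b) (by intro h; cases h)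
  have hy : ∀ e a, C (NV.y l e a) = β ∨ C (NV.y l e a) = γ := fun e a => hX _ rfl
  have hy1 : ∀ e a, C (NV.y l e a) ≠ C (NV.w l e a) := by
    intro e a
    exact hC _ _ (Rel.y1 l e a) (by intro h; cases h)
  have hy2 : ∀ e a, C (NV.y l e a) ≠ C (NV.w l e (a + 1)) := by
    intro e a
    exact hC _ _ (Rel.y2 l e a) (by intro h; cases h)
  have same : ∀ e, β ∈ A e → γ ∈ A e → False := by
    intro e h1 h2
    have hγ2 : γ ∈ (A e).erase β := Finset.mem_erase.2 ⟨hne.symm, h2⟩
    have hc1 : ((A e).erase β).card = 2 := by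
      rw [Finset.card_erase_of_mem h1, hAe]
    have hc2 : (((A e).erase β).erase γ).card = 1 := by
      rw [Finset.card_erase_of_mem hγ2, hc1]
    obtain ⟨δ, hδ⟩ := Finset.card_eq_one.1 hc2
    have hthree : ∀ k, C (NV.w l e k) = β ∨ C (NV.w l e k) = γ ∨ C (NV.w l e k) = δ := by
      intro k
      by_cases k1 : C (NV.w l e k) = β
      · exact Or.inl k1
      by_cases k2 : C (NV.w l e k) = γ
      · exact Or.inr (Or.inl k2)
      have : C (NV.w l e k) ∈ ((A e).erase β).erase γ :=
        Finset.mem_erase.2 ⟨k2, Finset.mem_erase.2 ⟨k1, (hmem _ _).2 ⟨k, rfl⟩⟩⟩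
      rw [hδ, Finset.mem_singleton] at this
      exact Or.inr (Or.inr this)
    obtain ⟨k, hk⟩ := odd_alt (fun k => C (NV.w l e k) = β ∨ C (NV.w l e k) = γ)
    have hcy := hwc e k
    by_cases hQ : C (NV.w l e k) = β ∨ C (NV.w l e k) = γ
    · have hQ' := hk.1 hQ
      have b1 := hy1 e k
      have b2 := hy2 e k
      have b3 := hy e k
      generalize C (NV.w l e k) = c1 at *
      generalize C (NV.w l e (k + 1)) = c2 at *
      generalize C (NV.y l e k) = c3 at *
      rcases hQ with rfl | rfl <;> rcases hQ' with rfl | rfl <;> rcases b3 with rfl | rfl <;>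
        simp_all
    · have hQ' : ¬ (C (NV.w l e (k + 1)) = β ∨ C (NV.w l e (k + 1)) = γ) := fun h => hQ (hk.2 h)
      push Not at hQ hQ'
      rcases hthree k with h | h | h
      · exact hQ.1 h
      · exact hQ.2 h
      · rcases hthree (k + 1) with h' | h' | h'
        · exact hQ'.1 h'
        · exact hQ'.2 h'
        · exact hcy (h.trans h'.symm)
  obtain ⟨e1, k1, hk1⟩ := hin β hβ.1 hβ.2
  obtain ⟨e2, k2, hk2⟩ := hin γ hγ.1 hγ.2
  cases e1 <;> cases e2
  · exact same false ((hmem _ _).2 ⟨k1, hk1⟩) ((hmem _ _).2 ⟨k2, hk2⟩)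
  · rcases hx k1 k2 with h | h
    · exact hx1 k1 k2 (h.trans hk1.symm)
    · exact hx2 k1 k2 (h.trans hk2.symm)
  · rcases hx k2 k1 with h | h
    · exact hx2 k2 k1 (h.trans hk1.symm)
    · exact hx1 k2 k1 (h.trans hk2.symm)
  · exact same true ((hmem _ _).2 ⟨k1, hk1⟩) ((hmem _ _).2 ⟨k2, hk2⟩)

theorem not_colorable : ¬ (Gam t).Colorable 8 := by
  classical
  intro hcol
  obtain ⟨C0, hC0⟩ := exists_fun_of_colorable hcol
  have hR0 : ∀ a b, Rel a b → a ≠ b → C0 a ≠ C0 b := by
    intro a b hab hne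
    refine hC0 a b ?_
    rw [Gam, SimpleGraph.fromRel_adj]
    exact ⟨hne, Or.inl hab⟩
  have hinj : Function.Injective (fun d => C0 (NV.p d : NV t)) := by
    intro d d' h
    by_contra hne
    exact hR0 _ _ (Rel.pp d d' hne) (by intro h; injection h with h; exact hne h) h
  let π : Fin 8 ≃ Fin 8 := Equiv.ofBijective _ (Finite.injective_iff_bijective.1 hinj)
  let C : NV t → Fin 8 := fun u => π.symm (C0 u)
  have hC : ∀ a b, Rel a b → a ≠ b → C a ≠ C b := by
    intro a b hab hne h
    exact hR0 a b hab hne (π.symm.injective h)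
  have hp : ∀ d, C (NV.p d) = d := by
    intro d
    show π.symm (π d) = d
    simp
  have hsel : ∀ l : Fin 4, ∃ l' : Fin 4, l' ≠ l ∧ C (NV.s l') = 0 := by
    intro l
    have h1 : ∀ d : Fin 8, ((d : ℕ) = 0 ∨ (d : ℕ) = l + 1 ∨ 5 ≤ (d : ℕ)) → C (NV.v l) ≠ d := by
      intro d hd
      have := hC _ _ (Rel.vp l d hd) (by intro h; cases h)
      rwa [hp] at this
    have h2 : ∃ l' : Fin 4, l' ≠ l ∧ (C (NV.v l) : ℕ) = l' + 1 := by
      have g := h1 (C (NV.v l))
      have g' : ¬ (((C (NV.v l) : Fin 8) : ℕ) = 0 ∨ ((C (NV.v l) : Fin 8) : ℕ) = l + 1 ∨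
          5 ≤ ((C (NV.v l) : Fin 8) : ℕ)) := fun h => g h rfl
      push Not at g'
      refine ⟨⟨(C (NV.v l) : ℕ) - 1, by omega⟩, ?_, ?_⟩
      · intro h
        have := congrArg Fin.val h
        simp only at this
        omega
      · simp only
        omega
    obtain ⟨l', hl', hv⟩ := h2
    refine ⟨l', hl', ?_⟩
    have h3 := hC _ _ (Rel.vs l l' hl'.symm) (by intro h; cases h)
    by_contra h0
    have h4 : (C (NV.s l') : ℕ) ≠ 0 := fun h => h0 (Fin.ext h)
    have h5 : (C (NV.s l') : ℕ) ≠ l' + 1 := by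
      intro h
      apply h3
      apply Fin.ext
      rw [hv, h]
    have h6 := hC _ _ (Rel.sp l' (C (NV.s l')) h4 h5) (by intro h; cases h)
    rw [hp] at h6
    exact h6 rfl
  let S : Fin 4 → Finset (Fin 8) := fun l =>
    Finset.univ.filter (fun c => ∃ u : NV t, cls u = l ∧ C u = c)
  have hmem : ∀ l c, c ∈ S l ↔ ∃ u : NV t, cls u = l ∧ C u = c := by
    intro l c
    simp [S]
  have hS3 : ∀ l, C (NV.s l) = 0 → 3 ≤ (S l).card := by
    intro l hl
    by_contra hlt
    obtain ⟨β, γ, hne, hS⟩ := exists_pair (S := S l) (by omega)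
    exact class_three C hC hp l hl β γ hne (fun u hu => hS _ ((hmem _ _).2 ⟨u, hu, rfl⟩))
  have hS1 : ∀ l, 1 ≤ (S l).card := by
    intro l
    rw [Nat.one_le_iff_ne_zero, Finset.card_ne_zero]
    exact ⟨C (NV.x l 0 0), (hmem _ _).2 ⟨_, rfl, rfl⟩⟩
  have hdisj : ∀ l l' : Fin 4, l ≠ l' → Disjoint (S l) (S l') := by
    intro l l' hne
    rw [Finset.disjoint_left]
    intro c h1 h2
    obtain ⟨u, hu, hcu⟩ := (hmem _ _).1 h1
    obtain ⟨u', hu', hcu'⟩ := (hmem _ _).1 h2
    have hne' : cls u ≠ cls u' := by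
      rw [hu, hu']
      intro h
      exact hne (Fin.ext h)
    refine hC u u' (Rel.uu u u' ?_ ?_ hne') ?_ (hcu.trans hcu'.symm)
    · rw [hu]; exact l.isLt
    · rw [hu']; exact l'.isLt
    · intro h
      exact hne' (congrArg cls h)
  have hsum : ∑ l, (S l).card ≤ 7 := by
    rw [← Finset.card_biUnion (fun l _ l' _ h => hdisj l l' h)]
    have : (Finset.univ.biUnion S) ⊆ Finset.univ.erase 7 := by
      intro c hc
      rw [Finset.mem_biUnion] at hc
      obtain ⟨l, -, hc⟩ := hc
      obtain ⟨u, hu, hcu⟩ := (hmem _ _).1 hc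
      rw [Finset.mem_erase]
      refine ⟨?_, Finset.mem_univ _⟩
      have h7 := hC u (NV.p 7) (Rel.up u (by rw [hu]; exact l.isLt)) (by
        intro h
        rw [h] at hu
        have := l.isLt
        simp only [cls] at hu
        omega)
      rw [hp] at h7
      rwa [← hcu]
    refine (Finset.card_le_card this).trans ?_
    decide
  rw [Fin.sum_univ_four] at hsum
  have a0 := hS1 0
  have a1 := hS1 1
  have a2 := hS1 2
  have a3 := hS1 3
  have two : ∀ l, ∃ l' : Fin 4, l' ≠ l ∧ 3 ≤ (S l').card := by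
    intro l
    obtain ⟨l', h1, h2⟩ := hsel l
    exact ⟨l', h1, hS3 l' h2⟩
  obtain ⟨i, -, hi⟩ := two 0
  obtain ⟨j, hj, hj3⟩ := two i
  fin_cases i <;> fin_cases j <;> simp at hj hi hj3 <;> omega

/-- auxiliary colours -/
def A1 (l : Fin 4) : ℕ := if (l : ℕ) = 0 then 2 else 1
def A2 (l : Fin 4) : ℕ := if (l : ℕ) ≤ 1 then 3 else 2
def A3 (l : Fin 4) : ℕ := if (l : ℕ) = 3 then 3 else 4

theorem A_facts (l : Fin 4) : 1 ≤ A1 l ∧ A1 l < A2 l ∧ A2 l < A3 l ∧ A3 l ≤ 4 ∧
    A1 l ≠ l + 1 ∧ A2 l ≠ l + 1 ∧ A3 l ≠ l + 1 := by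
  unfold A1 A2 A3
  have := l.isLt
  refine ⟨?_, ?_, ?_, ?_, ?_, ?_, ?_⟩ <;> split_ifs <;> omega

/-- the colouring; `g l = 0` for monochromatic classes -/
def col (g : Fin 4 → ℕ) (vv : Fin 4 → ℕ) (ca cb : Fin 4 → Fin (4 * t + 3)) : NV t → ℕ
  | NV.p d => d
  | NV.s l => if g l = 0 then l + 1 else 0
  | NV.v l => vv l
  | NV.w l false k => if g l = 0 then cyc3 0 0 (A1 l) (A2 l) k else
      cyc3 (ca l) (l + 1) (A1 l) (A2 l) k
  | NV.w l true k => if g l = 0 then cyc3 0 5 (A3 l) 6 k else
      cyc3 (cb l) (g l) (A3 l) (11 - g l) k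
  | NV.x l a b => if g l = 0 then l + 1 else if a = ca l then (if b = cb l then 0 else g l) else
      l + 1
  | NV.y l e _ => if g l = 0 then l + 1 else if e = false then g l else l + 1
  | NV.z l e _ => if g l = 0 then l + 1 else if e = false then g l else l + 1

section
variable (g : Fin 4 → ℕ) (vv : Fin 4 → ℕ) (ca cb : Fin 4 → Fin (4 * t + 3))

theorem col_wf (l : Fin 4) (k : Fin (4 * t + 3)) :
    (g l = 0 ∧ (col g vv ca cb (NV.w l false k) = 0 ∨ col g vv ca cb (NV.w l false k) = A1 l ∨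
      col g vv ca cb (NV.w l false k) = A2 l)) ∨
    (g l ≠ 0 ∧ ((k = ca l ∧ col g vv ca cb (NV.w l false k) = l + 1) ∨
      (k ≠ ca l ∧ (col g vv ca cb (NV.w l false k) = A1 l ∨
        col g vv ca cb (NV.w l false k) = A2 l)))) := by
  by_cases h : g l = 0
  · left
    refine ⟨h, ?_⟩
    simp only [col, if_pos h]
    exact cyc3_all _ _ _ _ _
  · right
    refine ⟨h, ?_⟩
    simp only [col, if_neg h]
    by_cases hk : k = ca l
    · left
      refine ⟨hk, ?_⟩
      rw [hk]
      exact cyc3_base _ _ _ _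
    · right
      exact ⟨hk, cyc3_off _ _ _ _ _ hk⟩

theorem col_wt (l : Fin 4) (k : Fin (4 * t + 3)) :
    (g l = 0 ∧ (col g vv ca cb (NV.w l true k) = 5 ∨ col g vv ca cb (NV.w l true k) = A3 l ∨
      col g vv ca cb (NV.w l true k) = 6)) ∨
    (g l ≠ 0 ∧ ((k = cb l ∧ col g vv ca cb (NV.w l true k) = g l) ∨
      (k ≠ cb l ∧ (col g vv ca cb (NV.w l true k) = A3 l ∨
        col g vv ca cb (NV.w l true k) = 11 - g l)))) := by
  by_cases h : g l = 0
  · left
    refine ⟨h, ?_⟩
    simp only [col, if_pos h]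
    exact cyc3_all _ _ _ _ _
  · right
    refine ⟨h, ?_⟩
    simp only [col, if_neg h]
    by_cases hk : k = cb l
    · left
      refine ⟨hk, ?_⟩
      rw [hk]
      exact cyc3_base _ _ _ _
    · right
      exact ⟨hk, cyc3_off _ _ _ _ _ hk⟩

theorem col_w (hg : ∀ l, g l = 0 ∨ g l = 5 ∨ g l = 6) (l : Fin 4) (e : Bool)
    (k : Fin (4 * t + 3)) : col g vv ca cb (NV.w l e k) < 7 ∧
    (g l = 0 → col g vv ca cb (NV.w l e k) ≠ l + 1) ∧
    (g l ≠ 0 → col g vv ca cb (NV.w l e k) ≠ 0) ∧
    (g l ≠ 0 → e = false → col g vv ca cb (NV.w l e k) ≠ g l) ∧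
    (g l ≠ 0 → e = true → col g vv ca cb (NV.w l e k) ≠ l + 1) := by
  have hA := A_facts l
  have hgl := hg l
  have hl := l.isLt
  cases e
  · have h := col_wf g vv ca cb l k
    generalize col g vv ca cb (NV.w l false k) = c at *
    refine ⟨?_, ?_, ?_, ?_, ?_⟩
    · omega
    · omega
    · omega
    · intro _ _; omega
    · intro _ h; cases h
  · have h := col_wt g vv ca cb l k
    generalize col g vv ca cb (NV.w l true k) = c at *
    refine ⟨?_, ?_, ?_, ?_, ?_⟩
    · omega
    · omega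
    · omega
    · intro _ h; cases h
    · intro _ _; omega

theorem col_cls (u : NV t) (hu : cls u < 4) :
    ∃ l : Fin 4, cls u = l ∧ ((col g vv ca cb u = l + 1) ∨
      (g l ≠ 0 ∧ col g vv ca cb u = g l) ∨
      (g l ≠ 0 ∧ col g vv ca cb u = 0 ∧ u = NV.x l (ca l) (cb l))) := by
  cases u with
  | p d => simp [cls] at hu
  | s l => simp [cls] at hu
  | v l => simp [cls] at hu
  | w l e a => simp [cls] at hu
  | x l a b =>
    refine ⟨l, rfl, ?_⟩
    simp only [col]
    by_cases h : g l = 0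
    · left; simp [h]
    · by_cases ha : a = ca l
      · by_cases hb : b = cb l
        · right; right
          refine ⟨h, ?_, ?_⟩
          · simp [h, ha, hb]
          · rw [ha, hb]
        · right; left
          refine ⟨h, ?_⟩
          simp [h, ha, hb]
      · left
        simp [h, ha]
  | y l e a =>
    refine ⟨l, rfl, ?_⟩
    simp only [col]
    by_cases h : g l = 0
    · left; simp [h]
    · cases e
      · right; left; simp [h]
      · left; simp [h]
  | z l e a =>
    refine ⟨l, rfl, ?_⟩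
    simp only [col]
    by_cases h : g l = 0
    · left; simp [h]
    · cases e
      · right; left; simp [h]
      · left; simp [h]

theorem col_ok (hg : ∀ l, g l = 0 ∨ g l = 5 ∨ g l = 6)
    (hinj : ∀ l l', g l ≠ 0 → g l = g l' → l = l')
    (hv : ∀ l, 1 ≤ vv l ∧ vv l ≤ 4 ∧ vv l ≠ l + 1 ∧ ∀ l' : Fin 4, vv l = l' + 1 → g l' ≠ 0)
    (u u' : NV t) (h : Rel u u') :
    col g vv ca cb u ≠ col g vv ca cb u' ∨
      ∃ l l' : Fin 4, l ≠ l' ∧ g l ≠ 0 ∧ g l' ≠ 0 ∧ u = NV.x l (ca l) (cb l) ∧
        u' = NV.x l' (ca l') (cb l') := by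
  cases h with
  | pp d d' h =>
    left
    simp only [col]
    exact fun h' => h (Fin.ext h')
  | sp l d h0 h1 =>
    left
    simp only [col]
    split_ifs <;> omega
  | vp l d h =>
    left
    simp only [col]
    have := hv l
    omega
  | vs l l' h =>
    left
    simp only [col]
    obtain ⟨h1, h2, h3, h4⟩ := hv l
    split_ifs with h5
    · intro h6
      exact h4 l' h6 h5
    · omega
  | sw l e a =>
    left
    have h1 := col_w g vv ca cb hg l e a
    have h2 : col g vv ca cb (NV.s l) = if g l = 0 then (l : ℕ) + 1 else 0 := rfl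
    rw [h2]
    split_ifs with h3
    · exact h1.2.1 h3
    · exact h1.2.2.1 h3
  | wp l e a =>
    left
    have h1 := (col_w g vv ca cb hg l e a).1
    have h2 : col g vv ca cb (NV.p 7) = 7 := rfl
    rw [h2]
    omega
  | wc l e a =>
    left
    have hA := A_facts l
    have hgl := hg l
    have hl := l.isLt
    cases e
    · simp only [col]
      split_ifs with h3
      · exact cyc3_ne _ _ _ _ (by omega) (by omega) (by omega) _
      · exact cyc3_ne _ _ _ _ (by omega) (by omega) (by omega) _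
    · simp only [col]
      split_ifs with h3
      · exact cyc3_ne _ _ _ _ (by omega) (by omega) (by omega) _
      · exact cyc3_ne _ _ _ _ (by omega) (by omega) (by omega) _
  | ww l a b =>
    left
    have hA := A_facts l
    have hgl := hg l
    have hl := l.isLt
    have h1 := col_wf g vv ca cb l a
    have h2 := col_wt g vv ca cb l b
    generalize col g vv ca cb (NV.w l false a) = c at *
    generalize col g vv ca cb (NV.w l true b) = c' at *
    omega
  | x1 l a b =>
    left
    have hA := A_facts l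
    have hgl := hg l
    have hl := l.isLt
    have h1 := col_wf g vv ca cb l a
    have h2 : col g vv ca cb (NV.x l a b) = if g l = 0 then (l : ℕ) + 1 else
      if a = ca l then (if b = cb l then 0 else g l) else l + 1 := rfl
    rw [h2]
    generalize col g vv ca cb (NV.w l false a) = c at *
    split_ifs with h3 h4 h5 <;> omega
  | x2 l a b =>
    left
    have hA := A_facts l
    have hgl := hg l
    have hl := l.isLt
    have h1 := col_wt g vv ca cb l b
    have h2 : col g vv ca cb (NV.x l a b) = if g l = 0 then (l : ℕ) + 1 else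
      if a = ca l then (if b = cb l then 0 else g l) else l + 1 := rfl
    rw [h2]
    generalize col g vv ca cb (NV.w l true b) = c at *
    split_ifs with h3 h4 h5 <;> omega
  | y1 l e a =>
    left
    have h1 := col_w g vv ca cb hg l e a
    have h2 : col g vv ca cb (NV.y l e a) = if g l = 0 then (l : ℕ) + 1 else
      if e = false then g l else l + 1 := rfl
    rw [h2]
    split_ifs with h3 h4
    · exact (h1.2.1 h3).symm
    · exact (h1.2.2.2.1 h3 h4).symm
    · exact (h1.2.2.2.2 h3 (by simpa using h4)).symm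
  | y2 l e a =>
    left
    have h1 := col_w g vv ca cb hg l e (a + 1)
    have h2 : col g vv ca cb (NV.y l e a) = if g l = 0 then (l : ℕ) + 1 else
      if e = false then g l else l + 1 := rfl
    rw [h2]
    split_ifs with h3 h4
    · exact (h1.2.1 h3).symm
    · exact (h1.2.2.2.1 h3 h4).symm
    · exact (h1.2.2.2.2 h3 (by simpa using h4)).symm
  | z1 l e a =>
    left
    have h1 := col_w g vv ca cb hg l e a
    have h2 : col g vv ca cb (NV.z l e a) = if g l = 0 then (l : ℕ) + 1 else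
      if e = false then g l else l + 1 := rfl
    rw [h2]
    split_ifs with h3 h4
    · exact (h1.2.1 h3).symm
    · exact (h1.2.2.2.1 h3 h4).symm
    · exact (h1.2.2.2.2 h3 (by simpa using h4)).symm
  | z2 l e a =>
    left
    have hgl := hg l
    have h2 : col g vv ca cb (NV.z l e a) = if g l = 0 then (l : ℕ) + 1 else
      if e = false then g l else l + 1 := rfl
    have h3 : col g vv ca cb (NV.p 0) = 0 := rfl
    rw [h2, h3]
    split_ifs <;> omega
  | up u hu =>
    left
    obtain ⟨l, -, hl⟩ := col_cls g vv ca cb u hu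
    have hgl := hg l
    have hl4 := l.isLt
    have h3 : col g vv ca cb (NV.p 7) = 7 := rfl
    rw [h3]
    rcases hl with h | ⟨h, h'⟩ | ⟨h, h', -⟩ <;> omega
  | uu u u' hu hu' hne =>
    obtain ⟨l, hlu, hl⟩ := col_cls g vv ca cb u hu
    obtain ⟨l', hlu', hl'⟩ := col_cls g vv ca cb u' hu'
    have hll : l ≠ l' := by
      intro h
      apply hne
      rw [hlu, hlu', h]
    have hll' : (l : ℕ) ≠ l' := fun h => hll (Fin.ext h)
    have hgl := hg l
    have hgl' := hg l'
    have hl4 := l.isLt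
    have hl4' := l'.isLt
    have hi := hinj l l'
    by_cases hc : col g vv ca cb u = col g vv ca cb u'
    · right
      rcases hl with h | ⟨h, h'⟩ | ⟨h, h', hx⟩
      · exfalso
        rcases hl' with k | ⟨k, k'⟩ | ⟨k, k', hx'⟩ <;> omega
      · exfalso
        rcases hl' with k | ⟨k, k'⟩ | ⟨k, k', hx'⟩
        · omega
        · exact hll (hi h (by omega))
        · omega
      · rcases hl' with k | ⟨k, k'⟩ | ⟨k, k', hx'⟩
        · exfalso; omega
        · exfalso; omega
        · exact ⟨l, l', hll, h, k, hx, hx'⟩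
    · exact Or.inl hc

theorem col_lt (hg : ∀ l, g l = 0 ∨ g l = 5 ∨ g l = 6) (hv : ∀ l, vv l ≤ 4) (u : NV t) :
    col g vv ca cb u < 8 := by
  by_cases hu : cls u < 4
  · obtain ⟨l, -, hl⟩ := col_cls g vv ca cb u hu
    have hgl := hg l
    have hl4 := l.isLt
    rcases hl with h | ⟨h, h'⟩ | ⟨h, h', -⟩ <;> omega
  · cases u with
    | p d => exact d.isLt
    | s l =>
      have hl4 := l.isLt
      simp only [col]
      split_ifs <;> omega
    | v l =>
      have := hv l
      simp only [col]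
      omega
    | w l e a =>
      have := (col_w g vv ca cb hg l e a).1
      omega
    | x l a b => exact absurd l.isLt hu
    | y l e a => exact absurd l.isLt hu
    | z l e a => exact absurd l.isLt hu

end

/-- all edges between big classes coming from cross pairs are critical -/
theorem special_critical (i j : Fin 4) (hij : i ≠ j) (a b a' b' : Fin (4 * t + 3)) :
    ((Gam t).deleteEdges {s(NV.x i a b, NV.x j a' b')}).Colorable 8 := by
  have hij' : (i : ℕ) ≠ j := fun h => hij (Fin.ext h)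
  have hi4 := i.isLt
  have hj4 := j.isLt
  let g : Fin 4 → ℕ := fun l => if l = i then 5 else if l = j then 6 else 0
  let vv : Fin 4 → ℕ := fun l => if l = i then j + 1 else i + 1
  let ca : Fin 4 → Fin (4 * t + 3) := fun l => if l = i then a else a'
  let cb : Fin 4 → Fin (4 * t + 3) := fun l => if l = i then b else b'
  have hg : ∀ l, g l = 0 ∨ g l = 5 ∨ g l = 6 := by
    intro l
    show (if l = i then 5 else if l = j then 6 else 0) = 0 ∨ _
    simp only [g]
    split_ifs <;> simp
  have hgne : ∀ l, g l ≠ 0 → l = i ∨ l = j := by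
    intro l
    simp only [g]
    split_ifs <;> simp_all
  have hinj : ∀ l l', g l ≠ 0 → g l = g l' → l = l' := by
    intro l l'
    simp only [g]
    split_ifs <;> simp_all
  have hv : ∀ l, 1 ≤ vv l ∧ vv l ≤ 4 ∧ vv l ≠ l + 1 ∧ ∀ l' : Fin 4, vv l = l' + 1 → g l' ≠ 0 := by
    intro l
    simp only [vv, g]
    by_cases hl : l = i
    · subst hl
      rw [if_pos rfl]
      refine ⟨by omega, by omega, by omega, ?_⟩
      intro l' hl'
      have : l' = j := Fin.ext (by omega)
      subst this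
      rw [if_pos rfl]
      split_ifs <;> simp
    · rw [if_neg hl]
      refine ⟨by omega, by omega, ?_, ?_⟩
      · intro h
        exact hl (Fin.ext (by omega))
      · intro l' hl'
        have : l' = i := Fin.ext (by omega)
        subst this
        rw [if_pos rfl]
        simp
  have hlt := col_lt g vv ca cb hg (fun l => (hv l).2.1)
  have hcai : ca i = a := by simp [ca]
  have hcbi : cb i = b := by simp [cb]
  have hcaj : ca j = a' := by simp [ca, hij.symm]
  have hcbj : cb j = b' := by simp [cb, hij.symm]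
  have main : ∀ u u', Rel u u' → s(u, u') ≠ s(NV.x i a b, NV.x j a' b') →
      col g vv ca cb u ≠ col g vv ca cb u' := by
    intro u u' huu hne
    rcases col_ok g vv ca cb hg hinj hv u u' huu with h | ⟨l, l', hll, h1, h2, h3, h4⟩
    · exact h
    · exfalso
      apply hne
      rw [h3, h4]
      rcases hgne l h1 with rfl | rfl
      · rcases hgne l' h2 with rfl | rfl
        · exact absurd rfl hll
        · rw [hcai, hcbi, hcaj, hcbj]
      · rcases hgne l' h2 with rfl | rfl
        · rw [hcai, hcbi, hcaj, hcbj, Sym2.eq_swap]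
        · exact absurd rfl hll
  refine colorable_of_fun (fun u => (⟨col g vv ca cb u, hlt u⟩ : Fin 8)) ?_
  intro u u' huu
  rw [deleteEdges_adj, Gam, SimpleGraph.fromRel_adj, Set.mem_singleton_iff] at huu
  obtain ⟨⟨hne, huu⟩, hsym⟩ := huu
  intro heq
  have heq' : col g vv ca cb u = col g vv ca cb u' := congrArg Fin.val heq
  rcases huu with h | h
  · exact main u u' h hsym heq'
  · exact main u' u h (by rwa [Sym2.eq_swap]) heq'.symm

/-- coding of the vertices -/
def toSum : NV t → (Fin 8 ⊕ Fin 4 ⊕ Fin 4) ⊕ ((Fin 4 × Bool × Fin (4 * t + 3)) ⊕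
    (Fin 4 × Fin (4 * t + 3) × Fin (4 * t + 3)) ⊕
    (Fin 4 × Bool × Fin (4 * t + 3)) ⊕ (Fin 4 × Bool × Fin (4 * t + 3)))
  | NV.p d => Sum.inl (Sum.inl d)
  | NV.s l => Sum.inl (Sum.inr (Sum.inl l))
  | NV.v l => Sum.inl (Sum.inr (Sum.inr l))
  | NV.w l e a => Sum.inr (Sum.inl (l, e, a))
  | NV.x l a b => Sum.inr (Sum.inr (Sum.inl (l, a, b)))
  | NV.y l e a => Sum.inr (Sum.inr (Sum.inr (Sum.inl (l, e, a))))
  | NV.z l e a => Sum.inr (Sum.inr (Sum.inr (Sum.inr (l, e, a))))

theorem toSum_injective : Function.Injective (toSum : NV t → _) := by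
  intro a b h
  cases a <;> cases b <;> simp [toSum] at h ⊢ <;> exact h

instance : Finite (NV t) := Finite.of_injective _ toSum_injective

noncomputable instance : Fintype (NV t) := Fintype.ofFinite _

theorem card_le : Fintype.card (NV t) ≤ 16 + 24 * (4 * t + 3) + 4 * (4 * t + 3) ^ 2 := by
  refine (Fintype.card_le_of_injective _ toSum_injective).trans ?_
  simp only [Fintype.card_sum, Fintype.card_prod, Fintype.card_fin, Fintype.card_bool]
  ring_nf
  omega

/-- indices of the special edges -/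
abbrev Idx (t : ℕ) := {q : Fin 4 × Fin 4 // q.1 < q.2} ×
  (Fin (4 * t + 3) × Fin (4 * t + 3) × Fin (4 * t + 3) × Fin (4 * t + 3))

/-- the special edges -/
def spec (i : Idx t) : Sym2 (NV t) :=
  s(NV.x i.1.1.1 i.2.1 i.2.2.1, NV.x i.1.1.2 i.2.2.2.1 i.2.2.2.2)

theorem spec_injective : Function.Injective (spec : Idx t → _) := by
  rintro ⟨⟨⟨i, j⟩, hij⟩, a, b, c, d⟩ ⟨⟨⟨i', j'⟩, hij'⟩, a', b', c', d'⟩ h
  simp only [spec, Sym2.eq_iff] at h
  simp only at hij hij'
  rcases h with ⟨h1, h2⟩ | ⟨h1, h2⟩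
  · injection h1 with h1 h3 h4
    injection h2 with h2 h5 h6
    subst h1 h2 h3 h4 h5 h6
    rfl
  · injection h1 with h1 h3 h4
    injection h2 with h2 h5 h6
    subst h1 h2
    exact absurd hij (not_lt.2 hij'.le)

theorem card_idx : Nat.card (Idx t) = 6 * (4 * t + 3) ^ 4 := by
  have h : Fintype.card {q : Fin 4 × Fin 4 // q.1 < q.2} = 6 := by decide
  rw [Nat.card_eq_fintype_card, Fintype.card_prod, h]
  simp only [Fintype.card_prod, Fintype.card_fin]
  ring

/-- The extracted critical graphs. -/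
theorem extract (t : ℕ) : ∃ (m : ℕ) (G : SimpleGraph (Fin m)),
    ¬ G.Colorable 8 ∧
    (∀ v w, G.Adj v w → (G.deleteEdges {s(v, w)}).Colorable 8) ∧
    (∀ v, (G.induce ({v}ᶜ : Set (Fin m))).Colorable 8) ∧
    m ≤ 16 + 24 * (4 * t + 3) + 4 * (4 * t + 3) ^ 2 ∧ 4 * t + 3 ≤ m ∧
    6 * (4 * t + 3) ^ 4 ≤ G.edgeSet.ncard := by
  obtain ⟨m, G, f, hf, hG, hE, hV⟩ := exists_critical (Gam t) 8 not_colorable
  have hedge : ∀ (i j : Fin 4), i ≠ j → ∀ a b a' b' : Fin (4 * t + 3),
      ∃ x y, G.Adj x y ∧ f x = NV.x i a b ∧ f y = NV.x j a' b' := by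
    intro i j hij a b a' b'
    exact edge_mem f hG _ _ (special_critical i j hij a b a' b')
  refine ⟨m, G, hG, hE, hV, ?_, ?_, ?_⟩
  · have h1 := Fintype.card_le_of_injective f hf
    rw [Fintype.card_fin] at h1
    exact h1.trans card_le
  · have h1 : ∀ a : Fin (4 * t + 3), ∃ x, f x = NV.x 0 a 0 := by
      intro a
      obtain ⟨x, y, -, h, -⟩ := hedge 0 1 (by decide) a 0 0 0
      exact ⟨x, h⟩
    choose g hg using h1
    have hginj : Function.Injective g := by
      intro a a' h
      have := congrArg f h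
      rw [hg, hg] at this
      injection this
    have := Fintype.card_le_of_injective g hginj
    simpa using this
  · have hsub : Set.range (spec : Idx t → _) ⊆ (Sym2.map f) '' G.edgeSet := by
      rintro _ ⟨i, rfl⟩
      obtain ⟨x, y, hxy, hx, hy⟩ := hedge i.1.1.1 i.1.1.2 i.1.2.ne i.2.1 i.2.2.1 i.2.2.2.1
        i.2.2.2.2
      refine ⟨s(x, y), hxy, ?_⟩
      rw [Sym2.map_mk, hx, hy]
      rfl
    have h1 : (Set.range (spec : Idx t → _)).ncard = 6 * (4 * t + 3) ^ 4 := by
      rw [← Set.image_univ, Set.ncard_image_of_injective _ spec_injective, Set.ncard_univ,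
        card_idx]
    rw [← h1]
    refine (Set.ncard_le_ncard hsub (Set.toFinite _)).trans ?_
    exact Set.ncard_image_le (Set.toFinite _)

end Pool.Agent.Helper201.NineCrit
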